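import Mathlib
import Pool.Agent.H319R2.LeighBridge

set_option autoImplicit false

/-!
Generalised Collatz maps of coprime type which are injective on a forward image.
-/

namespace Pool.Agent.X309.LI

open Finset Pool.Agent.H319R2.M

variable (g : GM)

/-- coprime type -/
def Cop : Prop := ∀ i : ℤ, 0 ≤ i → i < g.d → IsCoprime (g.m i) (g.d : ℤ)

theorem T_add (x t : ℤ) : g.T (x + g.d * t) = g.T x + g.m (x % g.d) * t := by
  have h := g.T_affine x 1 t
  rw [mul_one, one_mul] at h
  exact h

theorem sub_T (x y : ℤ) (h : x % g.d = y % g.d) :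
    (g.d : ℤ) * (g.T y - g.T x) = g.m (x % g.d) * (y - x) := by
  have e1 := g.T_mul x
  have e2 := g.T_mul y
  rw [← h] at e2
  rw [mul_sub, e1, e2]; ring

/-- the counting lemma -/
theorem key (hc : Cop g) (P : Set ℤ) (hP : ∀ x ∈ P, ∃ y ∈ P, g.T y = x) (s B : ℝ) (hs : 0 < s)
    (hB : ∀ i : ℤ, 0 ≤ i → i < g.d → |(g.m i : ℝ)| ≤ B)
    (h2 : ∀ i : ℤ, 0 ≤ i → i < g.d → (2 : ℝ) ≤ |(g.m i : ℝ)|)
    (hsum : ∑ i ∈ range g.d, |(g.m i : ℝ)| ^ (-s) ≤ 1) :
    ∀ (k : ℕ) (l : ℝ), 1 / B ≤ l → l < 2 ^ k → ∀ (n : ℕ) (a : ℤ) (α : ℝ) (F : Finset ℤ),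
      (∀ t ∈ F, α ≤ t ∧ (t : ℝ) ≤ α + l ∧ a + (g.d : ℤ) ^ n * t ∈ P) →
      (F.card : ℝ) ≤ (B * l) ^ s := by
  classical
  have hd2 := g.two_le
  have hB0 : 0 < B := by
    have h0 := hB 0 le_rfl (by omega)
    have h1 := h2 0 le_rfl (by omega)
    linarith
  have small : ∀ l : ℝ, 1 / B ≤ l → l < 1 → ∀ (α : ℝ) (F : Finset ℤ),
      (∀ t ∈ F, α ≤ t ∧ (t : ℝ) ≤ α + l) → (F.card : ℝ) ≤ (B * l) ^ s := by
    intro l hl hl1 α F hF
    have h1 : F.card ≤ 1 := by
      rw [Finset.card_le_one]
      intro t ht u hu
      obtain ⟨a1, a2⟩ := hF t ht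
      obtain ⟨b1, b2⟩ := hF u hu
      have h3 : |((t - u : ℤ) : ℝ)| < 1 := by
        push_cast
        rw [abs_lt]; constructor <;> linarith
      have h4 : |t - u| < 1 := by exact_mod_cast h3
      have h5 := Int.abs_lt_one_iff.1 h4
      omega
    have h3 : (1 : ℝ) ≤ B * l := by
      rw [div_le_iff₀ hB0] at hl
      linarith
    have h4 : (1 : ℝ) ≤ (B * l) ^ s := Real.one_le_rpow h3 hs.le
    have h5 : (F.card : ℝ) ≤ 1 := by exact_mod_cast h1
    linarith
  intro k
  induction k with
  | zero =>
    intro l hl hl1 n a α F hF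
    exact small l hl (by simpa using hl1) α F (fun t ht => ⟨(hF t ht).1, (hF t ht).2.1⟩)
  | succ k ih =>
    intro l hl hlk n a α F hF
    by_cases hl1 : l < 1
    · exact small l hl hl1 α F (fun t ht => ⟨(hF t ht).1, (hF t ht).2.1⟩)
    · push Not at hl1
      have hch : ∀ t : ℤ, ∃ y : ℤ, t ∈ F → y ∈ P ∧ g.T y = a + (g.d : ℤ) ^ n * t := by
        intro t
        by_cases ht : t ∈ F
        · obtain ⟨y, hy, hy'⟩ := hP _ (hF t ht).2.2
          exact ⟨y, fun _ => ⟨hy, hy'⟩⟩
        · exact ⟨0, fun h => absurd h ht⟩
      choose y hy using hch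
      have hmaps : ∀ t ∈ F, (y t % g.d).toNat ∈ range g.d := by
        intro t _
        rw [mem_range]
        have h1 := g.res_nonneg (y t)
        have h2 := g.res_lt (y t)
        omega
      rw [Finset.card_eq_sum_card_fiberwise hmaps]
      push_cast
      have hpart : ∀ i ∈ range g.d,
          ((F.filter (fun t => (y t % g.d).toNat = i)).card : ℝ) ≤
            (B * l) ^ s * |(g.m i : ℝ)| ^ (-s) := by
        intro i hi
        rw [mem_range] at hi
        set G := F.filter (fun t => (y t % g.d).toNat = i) with hG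
        have hi0 : (0 : ℤ) ≤ i := by positivity
        have hi1 : (i : ℤ) < g.d := by exact_mod_cast hi
        have hm2 := h2 i hi0 hi1
        have hmB := hB i hi0 hi1
        have hcop := hc i hi0 hi1
        set m : ℤ := g.m i with hm
        have hm0 : (0 : ℝ) < |(m : ℝ)| := by linarith
        have hmne : m ≠ 0 := by
          rintro h0
          rw [h0] at hm0
          simp at hm0
        have hrhs : (B * l) ^ s * |(m : ℝ)| ^ (-s) = (B * (l / |(m : ℝ)|)) ^ s := by
          rw [Real.rpow_neg hm0.le, ← mul_div_assoc, Real.div_rpow (by positivity) hm0.le,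
            div_eq_mul_inv]
        rw [hrhs]
        rcases G.eq_empty_or_nonempty with he | ⟨t0, ht0⟩
        · rw [he, card_empty]
          push_cast
          positivity
        · have hGm : ∀ t ∈ G, t ∈ F ∧ y t % g.d = i := by
            intro t ht
            rw [hG, mem_filter] at ht
            refine ⟨ht.1, ?_⟩
            have h1 := g.res_nonneg (y t)
            omega
          have hv : ∀ t ∈ G, ∃ v : ℤ, t - t0 = m * v ∧ y t = y t0 + (g.d : ℤ) ^ (n + 1) * v := by
            intro t ht
            obtain ⟨a1, a2⟩ := hGm t ht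
            obtain ⟨b1, b2⟩ := hGm t0 ht0
            have e1 := sub_T g (y t0) (y t) (by rw [a2, b2])
            rw [(hy t a1).2, (hy t0 b1).2, b2, ← hm] at e1
            have hdv : (g.d : ℤ) ∣ y t - y t0 := by
              rw [← Int.emod_emod_of_dvd _ (dvd_refl _)] at a2
              exact Int.ModEq.dvd (show y t0 % g.d = y t % g.d by rw [b2, ← a2]; simp)
            obtain ⟨u, hu⟩ := hdv
            have e2 : (g.d : ℤ) ^ n * (t - t0) = m * u := by
              have : (g.d : ℤ) * ((g.d : ℤ) ^ n * (t - t0)) = (g.d : ℤ) * (m * u) := by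
                rw [hu] at e1
                linear_combination e1
              exact mul_left_cancel₀ g.d_pos.ne' this
            have e3 : (g.d : ℤ) ^ n ∣ u := by
              have h1 : (g.d : ℤ) ^ n ∣ m * u := ⟨_, e2.symm⟩
              exact (hcop.pow_right).symm.dvd_of_dvd_mul_left h1
            obtain ⟨v, hv⟩ := e3
            refine ⟨v, ?_, ?_⟩
            · have : (g.d : ℤ) ^ n * (t - t0) = (g.d : ℤ) ^ n * (m * v) := by
                rw [e2, hv]; ring
              exact mul_left_cancel₀ (pow_ne_zero _ g.d_pos.ne') this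
            · have : y t = y t0 + g.d * u := by linarith
              rw [this, hv]; ring
          have hch2 : ∀ t : ℤ, ∃ v : ℤ, t ∈ G → t - t0 = m * v ∧
              y t = y t0 + (g.d : ℤ) ^ (n + 1) * v := by
            intro t
            by_cases ht : t ∈ G
            · obtain ⟨v, hv⟩ := hv t ht
              exact ⟨v, fun _ => hv⟩
            · exact ⟨0, fun h => absurd h ht⟩
          choose v hv using hch2
          have hinj : Set.InjOn v G := by
            intro t ht u hu htu
            have h1 := (hv t ht).1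
            have h2 := (hv u hu).1
            rw [htu] at h1
            omega
          rw [← card_image_of_injOn hinj]
          have hlm : l / |(m : ℝ)| < 2 ^ k := by
            rw [div_lt_iff₀ hm0]
            have : (2 : ℝ) ^ (k + 1) = 2 ^ k * 2 := pow_succ _ _
            have h3 : (2 : ℝ) ^ k * 2 ≤ 2 ^ k * |(m : ℝ)| :=
              mul_le_mul_of_nonneg_left hm2 (by positivity)
            linarith
          have hlm2 : 1 / B ≤ l / |(m : ℝ)| := by
            rw [div_le_div_iff₀ hB0 hm0]
            nlinarith
          -- the interval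
          rcases lt_or_gt_of_ne hmne with hneg | hpos
          · have hnegr : (m : ℝ) < 0 := by exact_mod_cast hneg
            apply ih _ hlm2 hlm (n + 1) (y t0) ((α + l - t0) / m)
            intro w hw
            rw [mem_image] at hw
            obtain ⟨t, ht, rfl⟩ := hw
            obtain ⟨a1, a2⟩ := hv t ht
            obtain ⟨c1, c2, c3⟩ := hF t (hGm t ht).1
            have hvr : ((v t : ℤ) : ℝ) = (t - t0) / m := by
              rw [eq_div_iff hnegr.ne]
              have : ((t - t0 : ℤ) : ℝ) = ((m * v t : ℤ) : ℝ) := by rw [a1]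
              push_cast at this
              linarith
            refine ⟨?_, ?_, ?_⟩
            · rw [hvr]
              exact div_le_div_of_nonpos_of_le hnegr.le (by linarith)
            · rw [hvr, abs_of_neg hnegr]
              have : (α + l - (t0 : ℝ)) / m + l / -m = (α - t0) / m := by
                field_simp; ring
              rw [this]
              exact div_le_div_of_nonpos_of_le hnegr.le (by linarith)
            · rw [← a2]
              exact (hy t (hGm t ht).1).1
          · have hposr : (0 : ℝ) < m := by exact_mod_cast hpos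
            apply ih _ hlm2 hlm (n + 1) (y t0) ((α - t0) / m)
            intro w hw
            rw [mem_image] at hw
            obtain ⟨t, ht, rfl⟩ := hw
            obtain ⟨a1, a2⟩ := hv t ht
            obtain ⟨c1, c2, c3⟩ := hF t (hGm t ht).1
            have hvr : ((v t : ℤ) : ℝ) = (t - t0) / m := by
              rw [eq_div_iff hposr.ne']
              have : ((t - t0 : ℤ) : ℝ) = ((m * v t : ℤ) : ℝ) := by rw [a1]
              push_cast at this
              linarith
            refine ⟨?_, ?_, ?_⟩
            · rw [hvr]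
              exact div_le_div_of_nonneg_right (by linarith) hposr.le
            · rw [hvr, abs_of_pos hposr, ← add_div]
              exact div_le_div_of_nonneg_right (by linarith) hposr.le
            · rw [← a2]
              exact (hy t (hGm t ht).1).1
      calc ∑ i ∈ range g.d, ((F.filter (fun t => (y t % g.d).toNat = i)).card : ℝ)
          ≤ ∑ i ∈ range g.d, (B * l) ^ s * |(g.m i : ℝ)| ^ (-s) := sum_le_sum hpart
        _ = (B * l) ^ s * ∑ i ∈ range g.d, |(g.m i : ℝ)| ^ (-s) := by rw [mul_sum]
        _ ≤ (B * l) ^ s * 1 := by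
            have h3 : 0 < B * l := mul_pos hB0 (by linarith)
            exact mul_le_mul_of_nonneg_left hsum (by positivity)
        _ = (B * l) ^ s := mul_one _

end Pool.Agent.X309.LI
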