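import Mathlib
import Pool.Agent.X309.LI1

set_option autoImplicit false

/-!
Generalised Collatz maps of coprime type which are injective on a forward image: the sum of the
reciprocals of the multipliers is smaller than one.
-/

namespace Pool.Agent.X309.LI

open Finset Pool.Agent.H319R2.M

variable (g : GM)

/-- product of the multipliers, up to sign -/
def Pi : ℕ := ∏ i ∈ range g.d, (g.m i).natAbs

theorem Pi_pos : 0 < Pi g := by
  unfold Pi
  apply Finset.prod_pos
  intro i hi
  rw [mem_range] at hi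
  exact Int.natAbs_pos.2 (g.ne i (by positivity) (by exact_mod_cast hi))

theorem dvd_Pi (x : ℤ) : g.m (x % g.d) ∣ (Pi g : ℤ) := by
  have h0 := g.res_nonneg x
  have h1 := g.res_lt x
  obtain ⟨i, hi⟩ := Int.eq_ofNat_of_zero_le h0
  rw [hi] at h1 ⊢
  rw [← Int.natAbs_dvd]
  have : (g.m (i : ℤ)).natAbs ∣ Pi g := by
    unfold Pi
    exact Finset.dvd_prod_of_mem (fun j : ℕ => (g.m (j : ℤ)).natAbs)
      (mem_range.2 (by exact_mod_cast h1))
  exact_mod_cast this

theorem Pi_cop (hc : Cop g) : IsCoprime ((Pi g : ℕ) : ℤ) (g.d : ℤ) := by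
  unfold Pi
  push_cast
  apply IsCoprime.prod_left
  intro i hi
  rw [mem_range] at hi
  have := hc i (by positivity) (by exact_mod_cast hi)
  exact (IsCoprime.abs_left_iff _ _).2 this

/-- values of the map change by a multiple of `N` when the argument changes suitably -/
theorem shift (x N q : ℤ) (h : g.m (x % g.d) ∣ N) :
    g.T (x + g.d * (N / g.m (x % g.d) * q)) = g.T x + N * q := by
  rw [T_add, ← mul_assoc, Int.mul_ediv_cancel' h]

/-- forward images are periodic -/
theorem range_per (K : ℕ) : ∀ y ∈ Set.range (g.T^[K]), ∀ q : ℤ,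
    y + (Pi g : ℤ) ^ K * q ∈ Set.range (g.T^[K]) := by
  induction K with
  | zero => intro y _ q; simp
  | succ K ih =>
    rintro y ⟨x, rfl⟩ q
    have h1 : g.T^[K] x ∈ Set.range (g.T^[K]) := ⟨x, rfl⟩
    obtain ⟨z, hz⟩ := ih _ h1 (g.d * ((Pi g : ℤ) / g.m ((g.T^[K] x) % g.d) * q))
    refine ⟨z, ?_⟩
    rw [Function.iterate_succ_apply', hz, Function.iterate_succ_apply']
    have h2 := shift g (g.T^[K] x) (Pi g) ((Pi g : ℤ) ^ K * q) (dvd_Pi g _)
    have e1 : g.T^[K] x + (Pi g : ℤ) ^ K * (g.d * ((Pi g : ℤ) / g.m ((g.T^[K] x) % g.d) * q)) =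
        g.T^[K] x + g.d * ((Pi g : ℤ) / g.m ((g.T^[K] x) % g.d) * ((Pi g : ℤ) ^ K * q)) := by ring
    rw [e1, h2]
    ring

theorem range_inv (K : ℕ) : ∀ y ∈ Set.range (g.T^[K]), g.T y ∈ Set.range (g.T^[K]) := by
  rintro y ⟨x, rfl⟩
  refine ⟨g.T x, ?_⟩
  rw [← Function.iterate_succ_apply, Function.iterate_succ_apply']

/-- number of elements of a periodic set along a progression with coprime difference -/
theorem count (A : Set ℤ) (L : ℕ) (hL : 0 < L) (hper : ∀ x y : ℤ, x ≡ y [ZMOD L] → (x ∈ A ↔ y ∈ A))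
    (c D : ℤ) (hD : IsCoprime D (L : ℤ)) (q : ℕ) [DecidablePred (· ∈ A)] :
    (((range (q * L)).filter (fun t : ℕ => c + D * t ∈ A)).card : ℝ) =
      q * ((range L).filter (fun t : ℕ => (t : ℤ) ∈ A)).card := by
  have h1 : (((range (q * L)).filter (fun t : ℕ => c + D * t ∈ A)).card : ℝ) =
      ∑ t ∈ range (q * L), (fun z : ℤ => if c + D * z ∈ A then (1 : ℝ) else 0) t := by
    rw [Finset.sum_boole]
  have h2 : (((range L).filter (fun t : ℕ => (t : ℤ) ∈ A)).card : ℝ) =
      ∑ t ∈ range L, (fun z : ℤ => if z ∈ A then (1 : ℝ) else 0) t := by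
    rw [Finset.sum_boole]
  rw [h1, h2, sum_blocks (fun z : ℤ => if c + D * z ∈ A then (1 : ℝ) else 0) L]
  · congr 1
    exact sum_perm hL (fun z : ℤ => if z ∈ A then (1 : ℝ) else 0)
      (by
        intro z w hzw
        have := hper z w hzw
        simp only [this]) (fun z => c + D * z) (by
        intro z hz w hw hzw
        rw [Int.modEq_iff_dvd] at hzw
        have h3 : (L : ℤ) ∣ D * (w - z) := by
          have : c + D * (w : ℤ) - (c + D * (z : ℤ)) = D * (w - z) := by ring
          rwa [this] at hzw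
        have h4 : (L : ℤ) ∣ (w : ℤ) - z := hD.symm.dvd_of_dvd_mul_left h3
        rw [mem_range] at hz hw
        have h5 : (w : ℤ) - z = 0 := by
          apply Int.eq_zero_of_abs_lt_dvd h4
          rw [abs_lt]; constructor <;> omega
        omega)
  · intro z w hzw
    have : c + D * z ≡ c + D * w [ZMOD L] := (hzw.mul_left D).add_left c
    have := hper _ _ this
    simp only [this]

end Pool.Agent.X309.LI
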