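import Mathlib
import Pool.Agent.X309.LI2

set_option autoImplicit false

/-!
Generalised Collatz maps of coprime type: reciprocals of the multipliers.
-/

namespace Pool.Agent.X309.LI

open Finset Pool.Agent.H319R2.M

variable (g : GM)

theorem sum_lt (A : Set ℤ) (L : ℕ) (hL : 0 < L)
    (hper : ∀ x y : ℤ, x ≡ y [ZMOD L] → (x ∈ A ↔ y ∈ A)) (hLc : IsCoprime (g.d : ℤ) (L : ℤ))
    (hA : ∀ x ∈ A, g.T x ∈ A) (hinj : Set.InjOn g.T A) (z : ℤ) (hz : z ∈ A)
    (hz' : ∀ x ∈ A, g.T x ≠ z) : ∑ i ∈ range g.d, 1 / |(g.m i : ℝ)| < 1 := by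
  classical
  have hd0 := g.d_pos
  have hPi := Pi_pos g
  set q : ℕ → ℕ := fun i => Pi g / (g.m (i : ℤ)).natAbs with hq
  set α : ℕ := ((range L).filter (fun t : ℕ => (t : ℤ) ∈ A)).card with hα
  set W : ℕ → Finset ℕ := fun i => (range (q i * L)).filter (fun t : ℕ => (i : ℤ) + g.d * t ∈ A)
    with hW
  have hmne : ∀ i : ℕ, i < g.d → g.m (i : ℤ) ≠ 0 := fun i hi =>
    g.ne i (by positivity) (by exact_mod_cast hi)
  have hmod : ∀ i : ℕ, i < g.d → ∀ t : ℤ, ((i : ℤ) + g.d * t) % g.d = i := by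
    intro i hi t
    rw [Int.add_mul_emod_self_left]
    exact Int.emod_eq_of_lt (by positivity) (by exact_mod_cast hi)
  have hqm : ∀ i : ℕ, i < g.d → (g.m (i : ℤ)).natAbs * q i = Pi g := by
    intro i hi
    apply Nat.mul_div_cancel'
    have h1 := dvd_Pi g (i : ℤ)
    rw [Int.emod_eq_of_lt (by positivity) (by exact_mod_cast hi)] at h1
    have h2 := Int.natAbs_dvd_natAbs.2 h1
    simpa using h2
  have hWc : ∀ i, ((W i).card : ℝ) = q i * α := by
    intro i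
    exact count A L hL hper i g.d hLc (q i)
  set Y : Finset ℕ := (range (Pi g * L)).filter (fun t : ℕ => (0 : ℤ) + 1 * t ∈ A) with hY
  have hYc : ((Y.card : ℕ) : ℝ) = Pi g * α := count A L hL hper 0 1 isCoprime_one_left (Pi g)
  set N : ℕ := Pi g * L with hN
  have hN0 : (0 : ℤ) < N := by
    have : 0 < Pi g * L := Nat.mul_pos hPi hL
    exact_mod_cast this
  have hred : ∀ y : ℤ, y ∈ A → (y % N).toNat ∈ Y := by
    intro y hy
    have h1 : 0 ≤ y % N := Int.emod_nonneg _ hN0.ne'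
    have h2 : y % N < N := Int.emod_lt_of_pos _ hN0
    rw [hY, mem_filter, mem_range]
    refine ⟨by omega, ?_⟩
    rw [zero_add, one_mul, Int.toNat_of_nonneg h1]
    refine (hper _ _ ?_).1 hy
    have h3 : y % N ≡ y [ZMOD N] := Int.mod_modEq _ _
    exact (h3.of_dvd ⟨(Pi g : ℤ), by rw [hN]; push_cast; ring⟩).symm
  set z0 : ℕ := (z % N).toNat with hz0
  have hz0Y : z0 ∈ Y := hred z hz
  set Φ : (Σ _ : ℕ, ℕ) → ℕ := fun p => (g.T ((p.1 : ℤ) + g.d * p.2) % N).toNat with hΦ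
  have hxA : ∀ p ∈ (range g.d).sigma W, p.1 < g.d ∧ (p.1 : ℤ) + g.d * p.2 ∈ A ∧
      p.2 < q p.1 * L := by
    intro p hp
    rw [mem_sigma, hW, mem_filter, mem_range, mem_range] at hp
    exact ⟨hp.1, hp.2.2, hp.2.1⟩
  have heq : ∀ y w : ℤ, (y % N).toNat = (w % N).toNat → ∃ k : ℤ, w = y + (Pi g : ℤ) * (L * k) := by
    intro y w h
    have h1 : 0 ≤ y % N := Int.emod_nonneg _ hN0.ne'
    have h2 : 0 ≤ w % N := Int.emod_nonneg _ hN0.ne'
    have h3 : y % N = w % N := by omega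
    obtain ⟨k, hk⟩ := Int.ModEq.dvd (show y ≡ w [ZMOD N] from h3)
    refine ⟨k, ?_⟩
    have : w = y + N * k := by linarith
    rw [this, hN]; push_cast; ring
  -- moving a point
  have hmove : ∀ x ∈ A, ∀ k : ℤ, ∃ x' ∈ A, g.T x' = g.T x + (Pi g : ℤ) * (L * k) ∧
      x' = x + g.d * ((Pi g : ℤ) / g.m (x % g.d) * (L * k)) := by
    intro x hx k
    refine ⟨_, ?_, shift g x (Pi g) (L * k) (dvd_Pi g x), rfl⟩
    refine (hper _ _ ?_).1 hx
    rw [Int.modEq_iff_dvd]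
    exact ⟨g.d * ((Pi g : ℤ) / g.m (x % g.d) * k), by ring⟩
  have hmaps : ∀ p ∈ (range g.d).sigma W, Φ p ∈ Y.erase z0 := by
    intro p hp
    obtain ⟨hp1, hp2, hp3⟩ := hxA p hp
    rw [mem_erase]
    refine ⟨?_, hred _ (hA _ hp2)⟩
    intro hcon
    obtain ⟨k, hk⟩ := heq _ _ hcon
    obtain ⟨x', hx', h1, -⟩ := hmove _ hp2 k
    exact hz' x' hx' (by rw [h1, ← hk])
  have hinjΦ : Set.InjOn Φ ((range g.d).sigma W) := by
    intro p hp p' hp' hpp
    rw [mem_coe] at hp hp'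
    obtain ⟨hp1, hp2, hp3⟩ := hxA p hp
    obtain ⟨hp1', hp2', hp3'⟩ := hxA p' hp'
    obtain ⟨k, hk⟩ := heq _ _ hpp
    obtain ⟨x', hx', h1, h2⟩ := hmove _ hp2 k
    have h3 : x' = (p'.1 : ℤ) + g.d * p'.2 := hinj hx' hp2' (by rw [h1, ← hk])
    rw [h3, hmod _ hp1] at h2
    have h4 : p'.1 = p.1 := by
      have e1 := hmod _ hp1' p'.2
      have e2 := hmod _ hp1 (p.2 + (Pi g : ℤ) / g.m (p.1 : ℤ) * (L * k))
      have e3 : (p'.1 : ℤ) + g.d * p'.2 =
          (p.1 : ℤ) + g.d * (p.2 + (Pi g : ℤ) / g.m (p.1 : ℤ) * (L * k)) := by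
        rw [h2]; ring
      rw [e3, e2] at e1
      exact_mod_cast e1.symm
    have h5 : (p'.2 : ℤ) - p.2 = (Pi g : ℤ) / g.m (p.1 : ℤ) * (L * k) := by
      rw [h4] at h2
      have : (g.d : ℤ) * (p'.2 - p.2) = g.d * ((Pi g : ℤ) / g.m (p.1 : ℤ) * (L * k)) := by
        linarith
      exact mul_left_cancel₀ hd0.ne' this
    have h6 : ((q p.1 * L : ℕ) : ℤ) ∣ (p'.2 : ℤ) - p.2 := by
      have e1 : ((Pi g : ℤ) / g.m (p.1 : ℤ)).natAbs = q p.1 := by
        have e2 : g.m (p.1 : ℤ) * ((Pi g : ℤ) / g.m (p.1 : ℤ)) = Pi g := by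
          apply Int.mul_ediv_cancel'
          have := dvd_Pi g (p.1 : ℤ)
          rwa [Int.emod_eq_of_lt (by positivity) (by exact_mod_cast hp1)] at this
        have e3 := congrArg Int.natAbs e2
        rw [Int.natAbs_mul, Int.natAbs_natCast] at e3
        exact Nat.eq_of_mul_eq_mul_left (Int.natAbs_pos.2 (hmne _ hp1)) (e3.trans (hqm _ hp1).symm)
      have e4 : ((q p.1 : ℕ) : ℤ) ∣ (Pi g : ℤ) / g.m (p.1 : ℤ) := by
        rw [← e1]
        exact Int.natAbs_dvd.2 (dvd_refl _)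
      rw [h5]
      push_cast
      have := mul_dvd_mul e4 (dvd_mul_right (L : ℤ) k)
      exact this
    have h7 : (p'.2 : ℤ) - p.2 = 0 := by
      apply Int.eq_zero_of_abs_lt_dvd h6
      rw [h4] at hp3'
      have a1 : (p.2 : ℤ) < (q p.1 * L : ℕ) := by exact_mod_cast hp3
      have a2 : (p'.2 : ℤ) < (q p.1 * L : ℕ) := by exact_mod_cast hp3'
      rw [abs_lt]; constructor <;> omega
    obtain ⟨i, t⟩ := p
    obtain ⟨i', t'⟩ := p'
    simp only at h4 h7
    subst h4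
    have : t = t' := by omega
    rw [this]
  have hcard := card_le_card_of_injOn Φ hmaps hinjΦ
  rw [card_sigma, card_erase_of_mem hz0Y] at hcard
  have hYpos : 0 < Y.card := card_pos.2 ⟨z0, hz0Y⟩
  have hreal : (∑ i ∈ range g.d, ((W i).card : ℝ)) + 1 ≤ Y.card := by
    have : (∑ i ∈ range g.d, (W i).card) + 1 ≤ Y.card := by omega
    exact_mod_cast this
  rw [hYc] at hreal
  simp only [hWc] at hreal
  have hPr : (0 : ℝ) < Pi g := by exact_mod_cast hPi
  have hαpos : (0 : ℝ) < α := by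
    have h1 : (0 : ℝ) < Y.card := by exact_mod_cast hYpos
    rw [hYc] at h1
    exact (mul_pos_iff_of_pos_left hPr).1 h1
  have hterm : ∑ i ∈ range g.d, 1 / |(g.m i : ℝ)| = (∑ i ∈ range g.d, (q i : ℝ)) / Pi g := by
    rw [sum_div]
    apply sum_congr rfl
    intro i hi
    rw [mem_range] at hi
    have h1 := hqm i hi
    have h2 : |(g.m i : ℝ)| * q i = Pi g := by
      rw [← Int.cast_abs, Int.abs_eq_natAbs]
      exact_mod_cast h1
    have h3 : 0 < |(g.m i : ℝ)| := abs_pos.2 (by exact_mod_cast hmne i hi)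
    rw [← h2]
    rw [div_eq_div_iff h3.ne' (by rw [h2]; exact hPr.ne')]
    ring
  rw [hterm, div_lt_one hPr]
  rw [← sum_mul] at hreal
  by_contra hcon
  push Not at hcon
  have := mul_le_mul_of_nonneg_right hcon hαpos.le
  linarith

end Pool.Agent.X309.LI
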