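import Mathlib
import Pool.Agent.X309.LI3

set_option autoImplicit false

/-!
Generalised Collatz maps of coprime type: counting periodic points and cycling trajectories.
-/

namespace Pool.Agent.X309.LI

open Finset Pool.Agent.H319R2.M

variable (g : GM)

theorem abs_m_pos (i : ℕ) (hi : i < g.d) : 0 < |(g.m i : ℝ)| :=
  abs_pos.2 (by exact_mod_cast g.ne i (by positivity) (by exact_mod_cast hi))

theorem two_le_of (hσ : ∑ i ∈ range g.d, 1 / |(g.m i : ℝ)| < 1) (i : ℤ) (h0 : 0 ≤ i) (h1 : i < g.d) :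
    (2 : ℝ) ≤ |(g.m i : ℝ)| := by
  obtain ⟨j, rfl⟩ := Int.eq_ofNat_of_zero_le h0
  have hj : j < g.d := by exact_mod_cast h1
  have hpos := abs_m_pos g j hj
  have h2 : 1 / |(g.m j : ℝ)| ≤ ∑ i ∈ range g.d, 1 / |(g.m i : ℝ)| :=
    single_le_sum (f := fun i : ℕ => 1 / |(g.m (i : ℤ) : ℝ)|) (fun _ _ => by positivity)
      (mem_range.2 hj)
  have h3 : 1 / |(g.m j : ℝ)| < 1 := by linarith
  rw [div_lt_one hpos] at h3
  have h4 : (1 : ℤ) < |g.m j| := by exact_mod_cast h3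
  have h5 : (2 : ℤ) ≤ |g.m j| := by omega
  exact_mod_cast h5

theorem exists_s (hσ : ∑ i ∈ range g.d, 1 / |(g.m i : ℝ)| < 1) :
    ∃ s : ℝ, 0 < s ∧ s < 1 ∧ ∑ i ∈ range g.d, |(g.m i : ℝ)| ^ (-s) = 1 := by
  set f : ℝ → ℝ := fun s => ∑ i ∈ range g.d, |(g.m i : ℝ)| ^ (-s) with hf
  have hcont : Continuous f := by
    apply continuous_finsetSum
    intro i hi
    have := abs_m_pos g i (mem_range.1 hi)
    exact Continuous.rpow continuous_const continuous_neg (fun _ => Or.inl this.ne')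
  have hf0 : f 0 = g.d := by simp [hf]
  have hf1 : f 1 = ∑ i ∈ range g.d, 1 / |(g.m i : ℝ)| := by
    rw [hf]
    apply sum_congr rfl
    intro i hi
    rw [Real.rpow_neg_one, one_div]
  have hd := g.dr
  obtain ⟨s, ⟨hs0, hs1⟩, hs⟩ := intermediate_value_Icc' (zero_le_one) hcont.continuousOn
    (show (1 : ℝ) ∈ Set.Icc (f 1) (f 0) from ⟨by rw [hf1]; exact hσ.le, by rw [hf0]; linarith⟩)
  refine ⟨s, lt_of_le_of_ne hs0 ?_, lt_of_le_of_ne hs1 ?_, hs⟩
  · rintro rfl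
    rw [hf0] at hs; linarith
  · rintro rfl
    rw [hf1] at hs; linarith

theorem expand (hσ : ∑ i ∈ range g.d, 1 / |(g.m i : ℝ)| < 1) :
    1 < ∏ i ∈ range g.d, |(g.m i : ℝ)| / g.d := by
  have hd := g.dr
  have hd0 : (0 : ℝ) < g.d := by linarith
  have hpos : ∀ i ∈ range g.d, 0 < |(g.m i : ℝ)| / g.d := by
    intro i hi
    have := abs_m_pos g i (mem_range.1 hi)
    positivity
  have h1 : ∑ i ∈ range g.d, (1 - ((|(g.m i : ℝ)| / g.d))⁻¹) ≤
      ∑ i ∈ range g.d, Real.log (|(g.m i : ℝ)| / g.d) :=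
    sum_le_sum fun i hi => Real.one_sub_inv_le_log_of_pos (hpos i hi)
  have h2 : ∑ i ∈ range g.d, (1 - ((|(g.m i : ℝ)| / g.d))⁻¹) =
      g.d * (1 - ∑ i ∈ range g.d, 1 / |(g.m i : ℝ)|) := by
    rw [sum_sub_distrib, mul_sub, mul_sum]
    simp only [sum_const, card_range, nsmul_eq_mul, mul_one, inv_div, mul_one_div]
  have h3 : 0 < ∑ i ∈ range g.d, Real.log (|(g.m i : ℝ)| / g.d) := by
    have : 0 < (g.d : ℝ) * (1 - ∑ i ∈ range g.d, 1 / |(g.m i : ℝ)|) :=
      mul_pos hd0 (by linarith)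
    linarith
  rw [← Real.log_prod (fun i hi => (hpos i hi).ne')] at h3
  exact (Real.log_pos_iff (Finset.prod_pos hpos).le).1 h3

/-- periodic points -/
def Per : Set ℤ := {x | ∃ p : ℕ, 0 < p ∧ g.T^[p] x = x}

theorem per_pred (x : ℤ) (hx : x ∈ Per g) : ∃ y ∈ Per g, g.T y = x := by
  obtain ⟨p, hp, h⟩ := hx
  refine ⟨g.T^[p - 1] x, ⟨p, hp, ?_⟩, ?_⟩
  · rw [← Function.iterate_add_apply, Nat.add_comm, Function.iterate_add_apply, h]
  · rw [← Function.iterate_succ_apply' g.T (p - 1) x, show (p - 1).succ = p by omega, h]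

/-- a bound for the multipliers -/
noncomputable def Bd : ℝ := ∑ i ∈ range g.d, |(g.m i : ℝ)|

theorem le_Bd (i : ℤ) (h0 : 0 ≤ i) (h1 : i < g.d) : |(g.m i : ℝ)| ≤ Bd g := by
  obtain ⟨j, rfl⟩ := Int.eq_ofNat_of_zero_le h0
  exact single_le_sum (f := fun i : ℕ => |(g.m (i : ℤ) : ℝ)|) (fun _ _ => abs_nonneg _)
    (mem_range.2 (by exact_mod_cast h1))

theorem per_fin (hc : Cop g) (hσ : ∑ i ∈ range g.d, 1 / |(g.m i : ℝ)| < 1) (s : ℝ) (hs : 0 < s)
    (hsum : ∑ i ∈ range g.d, |(g.m i : ℝ)| ^ (-s) = 1) (X : ℝ) (hX : 1 ≤ X) (F : Finset ℤ)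
    (hF : ∀ x ∈ F, x ∈ Per g ∧ |(x : ℝ)| ≤ X) : (F.card : ℝ) ≤ (Bd g * (2 * X)) ^ s := by
  have hB2 : (2 : ℝ) ≤ Bd g := by
    have h1 := two_le_of g hσ 0 le_rfl g.d_pos
    have h2 := le_Bd g 0 le_rfl g.d_pos
    linarith
  obtain ⟨k, hk⟩ := pow_unbounded_of_one_lt (2 * X) (by norm_num : (1 : ℝ) < 2)
  refine key g hc (Per g) (per_pred g) s (Bd g) hs (le_Bd g) (two_le_of g hσ) hsum.le k (2 * X) ?_ hk
    0 0 (-X) F ?_
  · have : 1 / Bd g ≤ 1 := by
      rw [div_le_one (by linarith)]; linarith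
    linarith
  · intro t ht
    obtain ⟨h1, h2⟩ := hF t ht
    rw [abs_le] at h2
    refine ⟨h2.1, by linarith [h2.2], ?_⟩
    simpa using h1

/-- size of the iterates -/
theorem iter_bound (hB : 1 ≤ Bd g) (K : ℕ) (X : ℝ) (hX : 1 ≤ X) (x : ℤ) (hx : |(x : ℝ)| ≤ X) :
    |((g.T^[K] x : ℤ) : ℝ)| ≤ (Bd g + g.R) ^ K * X := by
  have hR := g.R_nonneg
  induction K with
  | zero => simpa using hx
  | succ K ih =>
    rw [Function.iterate_succ_apply']
    refine (g.step_le _).trans ?_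
    have h1 : g.a ((g.T^[K] x) % g.d) ≤ Bd g := by
      unfold GM.a
      have h2 := le_Bd g _ (g.res_nonneg (g.T^[K] x)) (g.res_lt (g.T^[K] x))
      have hd := g.dr
      refine (div_le_self (abs_nonneg _) (by linarith)).trans h2
    have h3 : (1 : ℝ) ≤ (Bd g + g.R) ^ K * X := by
      have : (1 : ℝ) ≤ (Bd g + g.R) ^ K := one_le_pow₀ (by linarith)
      nlinarith
    have h4 : g.a ((g.T^[K] x) % g.d) * |((g.T^[K] x : ℤ) : ℝ)| ≤
        Bd g * ((Bd g + g.R) ^ K * X) :=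
      mul_le_mul h1 ih (abs_nonneg _) (by linarith)
    rw [pow_succ]
    nlinarith

/-- iterates are injective on residue classes -/
theorem iter_inj (K : ℕ) : ∀ x y : ℤ, x ≡ y [ZMOD (g.d : ℤ) ^ K] → g.T^[K] x = g.T^[K] y → x = y := by
  induction K with
  | zero => intro x y _ h; simpa using h
  | succ K ih =>
    intro x y h hT
    rw [Function.iterate_succ_apply, Function.iterate_succ_apply] at hT
    have h0 : x % g.d = y % g.d := by
      have : (g.d : ℤ) ∣ (g.d : ℤ) ^ (K + 1) := dvd_pow_self _ (by omega)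
      exact h.of_dvd this
    have e3 := sub_T g x y h0
    have h1 : g.T x = g.T y := by
      apply ih _ _ _ hT
      rw [Int.modEq_iff_dvd] at h ⊢
      have h2 : (g.d : ℤ) * (g.d : ℤ) ^ K ∣ (g.d : ℤ) * (g.T y - g.T x) := by
        rw [e3, ← pow_succ']
        exact Dvd.dvd.mul_left h _
      exact (mul_dvd_mul_iff_left g.d_pos.ne').1 h2
    rw [h1, sub_self, mul_zero] at e3
    rcases mul_eq_zero.1 e3.symm with h2 | h2
    · exact absurd h2 (g.m_ne x)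
    · omega

/-- cycling points -/
def Cyc : Set ℤ := {x | ∃ a p : ℕ, 0 < p ∧ g.T^[a + p] x = g.T^[a] x}

theorem cyc_per (K : ℕ) (hinj : Set.InjOn g.T (Set.range (g.T^[K]))) (x : ℤ) (hx : x ∈ Cyc g) :
    g.T^[K] x ∈ Per g := by
  obtain ⟨a, p, hp, h⟩ := hx
  refine ⟨p, hp, ?_⟩
  have hmaps : Set.MapsTo g.T (Set.range (g.T^[K])) (Set.range (g.T^[K])) := range_inv g K
  have h1 := hinj.iterate hmaps a
  apply h1
  · have : ∀ p : ℕ, g.T^[p] (g.T^[K] x) ∈ Set.range (g.T^[K]) := by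
      intro p
      exact ⟨g.T^[p] x, by
        rw [← Function.iterate_add_apply, ← Function.iterate_add_apply, Nat.add_comm]⟩
    exact this p
  · exact ⟨x, rfl⟩
  · rw [← Function.iterate_add_apply, ← Function.iterate_add_apply, ← Function.iterate_add_apply]
    have e1 : a + p + K = K + (a + p) := by omega
    have e2 : a + K = K + a := by omega
    rw [e1, e2, Function.iterate_add_apply g.T K (a + p), h, ← Function.iterate_add_apply]

theorem cyc_fin (hc : Cop g) (hσ : ∑ i ∈ range g.d, 1 / |(g.m i : ℝ)| < 1) (s : ℝ) (hs : 0 < s)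
    (hsum : ∑ i ∈ range g.d, |(g.m i : ℝ)| ^ (-s) = 1) (K : ℕ)
    (hinj : Set.InjOn g.T (Set.range (g.T^[K]))) (X : ℝ) (hX : 1 ≤ X) (F : Finset ℤ)
    (hF : ∀ x ∈ F, x ∈ Cyc g ∧ |(x : ℝ)| ≤ X) :
    (F.card : ℝ) ≤ (g.d : ℝ) ^ K * (Bd g * (2 * (Bd g + g.R) ^ K)) ^ s * X ^ s := by
  classical
  have hR := g.R_nonneg
  have hB2 : (2 : ℝ) ≤ Bd g := by
    have h1 := two_le_of g hσ 0 le_rfl g.d_pos
    have h2 := le_Bd g 0 le_rfl g.d_pos
    linarith
  have hd0 : (0 : ℤ) < (g.d : ℤ) ^ K := pow_pos g.d_pos K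
  have hpow : (1 : ℝ) ≤ (Bd g + g.R) ^ K := one_le_pow₀ (by linarith)
  set G := F.image (g.T^[K]) with hG
  have h1 : (G.card : ℝ) ≤ (Bd g * (2 * ((Bd g + g.R) ^ K * X))) ^ s := by
    apply per_fin g hc hσ s hs hsum _ (by nlinarith)
    intro y hy
    rw [hG, mem_image] at hy
    obtain ⟨x, hx, rfl⟩ := hy
    obtain ⟨a1, a2⟩ := hF x hx
    exact ⟨cyc_per g K hinj x a1, iter_bound g (by linarith) K X hX x a2⟩
  have h2 : F.card ≤ ((range (g.d ^ K)) ×ˢ G).card := by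
    apply card_le_card_of_injOn (fun x => ((x % (g.d : ℤ) ^ K).toNat, g.T^[K] x))
    · intro x hx
      have e1 : 0 ≤ x % (g.d : ℤ) ^ K := Int.emod_nonneg _ hd0.ne'
      have e2 : x % (g.d : ℤ) ^ K < (g.d : ℤ) ^ K := Int.emod_lt_of_pos _ hd0
      simp only [coe_product, Set.mem_prod, mem_coe, mem_range]
      refine ⟨?_, mem_image_of_mem _ hx⟩
      have e3 : (((g.d ^ K : ℕ)) : ℤ) = (g.d : ℤ) ^ K := by push_cast; rfl
      omega
    · intro x hx y hy hxy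
      simp only [Prod.mk.injEq] at hxy
      apply iter_inj g K x y _ hxy.2
      have e1 : 0 ≤ x % (g.d : ℤ) ^ K := Int.emod_nonneg _ hd0.ne'
      have e2 : 0 ≤ y % (g.d : ℤ) ^ K := Int.emod_nonneg _ hd0.ne'
      have : x % (g.d : ℤ) ^ K = y % (g.d : ℤ) ^ K := by omega
      exact this
  rw [card_product, card_range] at h2
  have h3 : (F.card : ℝ) ≤ (g.d : ℝ) ^ K * G.card := by exact_mod_cast h2
  refine h3.trans ?_
  rw [mul_assoc]
  refine mul_le_mul_of_nonneg_left (h1.trans (le_of_eq ?_)) (by positivity)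
  rw [← Real.mul_rpow (by positivity) (by linarith)]
  congr 1
  ring

/-- the condition on the forward images gives a small sum -/
theorem sum_lt_of_inj (hc : Cop g) (K : ℕ) (hinj : Set.InjOn g.T (Set.range (g.T^[K])))
    (hne : Set.range (g.T^[K + 1]) ≠ Set.range (g.T^[K])) :
    ∑ i ∈ range g.d, 1 / |(g.m i : ℝ)| < 1 := by
  have hsub : Set.range (g.T^[K + 1]) ⊆ Set.range (g.T^[K]) := by
    rintro y ⟨x, rfl⟩
    exact ⟨g.T x, by rw [← Function.iterate_succ_apply]⟩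
  obtain ⟨z, hz, hz'⟩ : ∃ z ∈ Set.range (g.T^[K]), z ∉ Set.range (g.T^[K + 1]) := by
    by_contra hcon
    push Not at hcon
    exact hne (Set.Subset.antisymm hsub hcon)
  refine sum_lt g (Set.range (g.T^[K])) (Pi g ^ K) (pow_pos (Pi_pos g) K) ?_ ?_
    (range_inv g K) hinj z hz ?_
  · have h1 : ∀ x y : ℤ, x ≡ y [ZMOD (Pi g ^ K : ℕ)] → x ∈ Set.range (g.T^[K]) →
        y ∈ Set.range (g.T^[K]) := by
      intro x y hxy hx
      obtain ⟨q, hq⟩ := hxy.dvd
      have := range_per g K x hx q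
      have e : y = x + (Pi g : ℤ) ^ K * q := by
        push_cast at hq
        linarith
      rw [e]
      exact this
    intro x y hxy
    exact ⟨h1 x y hxy, h1 y x hxy.symm⟩
  · push_cast
    exact ((Pi_cop g hc).pow_left).symm
  · rintro x ⟨w, rfl⟩ hcon
    exact hz' ⟨w, by rw [Function.iterate_succ_apply', hcon]⟩

end Pool.Agent.X309.LI
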