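import Mathlib

/-!
# Definitions: twists of elliptic curves over `ℚ` by Dirichlet characters
-/

set_option autoImplicit false

open Complex UpperHalfPlane MatrixGroups CongruenceSubgroup

namespace Pool.Agent.X309.TwDefs

/-- The coefficient `a_p` of `E : y² = x³ + a x + b` at a prime `p ∤ 2 (4a³ + 27b²)`: `p` minus the
number of pairs `(x, y)` modulo `p` with `y² = x³ + a x + b`. -/
noncomputable def ap (a b : ℤ) (p : ℕ) : ℤ :=
  (p : ℤ) - Nat.card {x : ZMod p × ZMod p //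
    x.2 ^ 2 = x.1 ^ 3 + (a : ZMod p) * x.1 + (b : ZMod p)}

/-- The `n`-th Fourier coefficient of `f`. -/
noncomputable def coef {N : ℕ} (f : CuspForm (Gamma0 N : Subgroup (GL (Fin 2) ℝ)) 2) (n : ℕ) : ℂ :=
  (qExpansion 1 f).coeff n

/-- The primitive `∑ c(n)/n e^(2πinz) = 2πi ∫_{i∞}^z f(w) dw` of `2πi f(z) dz`. -/
noncomputable def prim {N : ℕ} (f : CuspForm (Gamma0 N : Subgroup (GL (Fin 2) ℝ)) 2) (z : ℂ) : ℂ :=
  ∑' n : ℕ, coef f n / n * Complex.exp (2 * Real.pi * Complex.I * n * z)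

/-- `f ∈ S_2(Γ₀(N))` is the newform of the elliptic curve `E : y² = x³ + a x + b`, with its standard
properties: the Fourier coefficients `c(n)` of `f` are real with `c(1) = 1`, they satisfy the Hecke
relations `c(mn) = c(m) c(n)` for coprime `m`, `n` and `c(p^(j+2)) = c(p) c(p^(j+1)) - p c(p^j)`
(without the last term if `p ∣ N`) and the bounds `|c(p)| ≤ 2√p` for `p ∤ N`, `|c(p)| ≤ 1` for
`p ∣ N`; `f` is an eigenfunction of the Fricke involution: `f(-1/(Nτ)) = -w N τ² f(τ)` with `w = ±1`;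
for all primes `p ∤ 2 (4a³ + 27b²)` one has `p ∤ N` and `c(p) = a_p(E)`; and the periods
`2πi ∫_z^{γz} f(w) dw`, `γ ∈ Γ₀(N)`, lie in a lattice `ℤ ω₁ + ℤ ω₂` of `ℂ`.  (Every elliptic curve over
`ℚ` has such a form by the modularity theorem: for a suitable lattice `ℂ/(ℤ ω₁ + ℤ ω₂)` is a curve
isogenous to `E` and the integral of `2πi f(z) dz` is the modular parametrisation of it by
`X_0(N)`.) -/
structure IsFormOf (a b : ℤ) (N : ℕ) (f : CuspForm (Gamma0 N : Subgroup (GL (Fin 2) ℝ)) 2) :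
    Prop where
  one : coef f 1 = 1
  real : ∀ n, (coef f n).im = 0
  mul : ∀ m n : ℕ, Nat.Coprime m n → coef f (m * n) = coef f m * coef f n
  pow : ∀ p j : ℕ, p.Prime → coef f (p ^ (j + 2)) = coef f p * coef f (p ^ (j + 1)) -
      (if p ∣ N then 0 else (p : ℂ) * coef f (p ^ j))
  good : ∀ p : ℕ, p.Prime → ¬ p ∣ N → ‖coef f p‖ ≤ 2 * Real.sqrt p
  bad : ∀ p : ℕ, p.Prime → p ∣ N → ‖coef f p‖ ≤ 1
  fricke : ∃ w : ℝ, (w = 1 ∨ w = -1) ∧ ∀ τ τ' : ℍ, (τ' : ℂ) * ((N : ℂ) * (τ : ℂ)) = -1 →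
    f τ' = -(w : ℂ) * (N : ℂ) * (τ : ℂ) ^ 2 * f τ
  points : ∀ p : ℕ, p.Prime → ¬ (p : ℤ) ∣ 2 * (4 * a ^ 3 + 27 * b ^ 2) →
    ¬ p ∣ N ∧ coef f p = (ap a b p : ℂ)
  periods : ∃ ω₁ ω₂ : ℂ, (ω₁ * (starRingEnd ℂ) ω₂).im ≠ 0 ∧
    ∀ γ : SL(2, ℤ), γ ∈ Gamma0 N → ∃ m n : ℤ, ∀ z : ℍ,
      prim f ((γ • z : ℍ) : ℂ) = prim f (z : ℂ) + (m * ω₁ + n * ω₂)

/-- A twist `E_η`: an elliptic curve `E : y² = x³ + a x + b` over `ℚ` with its newform `f` of level
`N`, and a primitive Dirichlet character `η` of conductor `m` prime to `N` (`m = 1` gives `E`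
itself). -/
structure TwistedCurve where
  a : ℤ
  b : ℤ
  disc : 4 * a ^ 3 + 27 * b ^ 2 ≠ 0
  N : ℕ
  N_ne : N ≠ 0
  f : CuspForm (Gamma0 N : Subgroup (GL (Fin 2) ℝ)) 2
  isForm : IsFormOf a b N f
  m : ℕ
  m_ne : m ≠ 0
  cop : Nat.Coprime m N
  η : DirichletCharacter ℂ m
  prim : η.IsPrimitive

/-- The Euler factor of `L(E_η, χ, s) = L(E, χ η, s)` at the prime `p`. -/
noncomputable def TwistedCurve.factor (E : TwistedCurve) {q : ℕ} (χ : DirichletCharacter ℂ q)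
    (s : ℂ) (p : ℕ) : ℂ :=
  (1 - χ (p : ZMod q) * E.η (p : ZMod E.m) * coef E.f p * (p : ℂ) ^ (-s) +
    (if p ∣ E.N then 0 else
      (χ (p : ZMod q) * E.η (p : ZMod E.m)) ^ 2 * (p : ℂ) ^ (1 - 2 * s)))⁻¹

/-- The Euler factor of `L(A, χ, s)`, `A = ∏ A_i`, at the prime `p`. -/
noncomputable def factor {g : ℕ} (A : Fin g → TwistedCurve) {q : ℕ} (χ : DirichletCharacter ℂ q)
    (s : ℂ) (p : ℕ) : ℂ := ∏ i, (A i).factor χ s p

/-- The product of the levels `N_i` and of the conductors `m_i`. -/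
def level {g : ℕ} (A : Fin g → TwistedCurve) : ℕ := ∏ i, (A i).N * (A i).m

/-- The primitive Dirichlet characters `(q, χ)` of conductor `q ≤ X` prime to `M`. -/
def Chars (M X : ℕ) : Set (Σ q : ℕ, DirichletCharacter ℂ q) :=
  {x | 1 ≤ x.1 ∧ x.1 ≤ X ∧ Nat.Coprime x.1 M ∧ x.2.IsPrimitive}

/-- The exponents `j < d` prime to the order `d` of `χ`: the conjugates of `χ` under the
automorphisms of `ℂ` are the powers `χ ^ j`. -/
noncomputable def conj {q : ℕ} (χ : DirichletCharacter ℂ q) : Finset ℕ :=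
  (Finset.range (orderOf χ)).filter (Nat.Coprime (orderOf χ))

/-- `L q χ` is the `L`-function `L(A, χ, s)` for all primitive `χ` of conductor `q` prime to
`level A`: it is entire, does not vanish identically and is for `Re s > 3/2` the Euler product. -/
def IsL {g : ℕ} (A : Fin g → TwistedCurve) (L : (q : ℕ) → DirichletCharacter ℂ q → ℂ → ℂ) : Prop :=
  ∀ (q : ℕ) (χ : DirichletCharacter ℂ q), 1 ≤ q → Nat.Coprime q (level A) → χ.IsPrimitive →
    Differentiable ℂ (L q χ) ∧ analyticOrderAt (L q χ) 1 ≠ ⊤ ∧ ∀ s : ℂ, 3 / 2 < s.re →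
      HasProd (fun p : Nat.Primes => factor A χ s p) (L q χ s)

/-- `B q χ` is the `L`-function `∏ L(A, χ ^ j, s)`, `j` prime to the order of `χ`, of the abelian
variety `A_χ` for all primitive `χ` of conductor `q` prime to `level A`: it is entire, does not vanish
identically and is for `Re s > 3/2` the Euler product. -/
def IsB {g : ℕ} (A : Fin g → TwistedCurve) (B : (q : ℕ) → DirichletCharacter ℂ q → ℂ → ℂ) : Prop :=
  ∀ (q : ℕ) (χ : DirichletCharacter ℂ q), 1 ≤ q → Nat.Coprime q (level A) → χ.IsPrimitive →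
    Differentiable ℂ (B q χ) ∧ analyticOrderAt (B q χ) 1 ≠ ⊤ ∧ ∀ s : ℂ, 3 / 2 < s.re →
      HasProd (fun p : Nat.Primes => ∏ j ∈ conj χ, factor A (χ ^ j) s p) (B q χ s)

end Pool.Agent.X309.TwDefs
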