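import Pool.Agent.Y683.AA.Avg

/-!
Sums over the Galois conjugates of a primitive Dirichlet character.
-/

set_option autoImplicit false

namespace Pool.Agent.X309.DC

open Finset
open Pool.Agent.TH940 (tot GH)
open Pool.Agent.Y683.AA (Prim cr average moduli ncard_ge prim_eq pc md mem_pc card_small card_char
  exponent_char finsum_prim finite_char cr_nonneg)

/-- the exponents prime to the order -/
def ex (d : ℕ) : Finset ℕ := (range d).filter (Nat.Coprime d)

lemma card_ex (d : ℕ) : (ex d).card = d.totient := rfl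

lemma mem_ex {d j : ℕ} : j ∈ ex d ↔ j < d ∧ Nat.Coprime d j := by
  rw [ex, mem_filter, mem_range]

lemma prim_pow {q : ℕ} [NeZero q] {χ : DirichletCharacter ℂ q} (hχ : χ.IsPrimitive) {j : ℕ}
    (hj : Nat.Coprime (orderOf χ) j) : (χ ^ j).IsPrimitive := by
  obtain ⟨k, hk⟩ := exists_pow_eq_self_of_coprime hj.symm
  have h1 : (χ ^ j).FactorsThrough (χ ^ j).conductor :=
    DirichletCharacter.factorsThrough_conductor _
  obtain ⟨hd, ψ, hψ⟩ := h1
  have h2 : χ.FactorsThrough (χ ^ j).conductor := ⟨hd, ψ ^ k, by rw [map_pow, ← hψ, hk]⟩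
  have h3 : χ.conductor ∣ (χ ^ j).conductor := by
    exact DirichletCharacter.conductor_dvd_of_mem_conductorSet χ h2
  have h4 : χ.conductor = q := hχ
  rw [h4] at h3
  exact Nat.dvd_antisymm (DirichletCharacter.conductor_dvd_level _) h3

lemma gh_sum {ι : Type} [Fintype ι] {N : ι → ℕ} {K : ι → ℝ}
    {G : ι → (q : ℕ) → DirichletCharacter ℂ q → ℕ} (h : ∀ i, GH (N i) (K i) (G i)) :
    GH (∏ i, N i) (1 + ∑ i, K i) (fun q χ => ∑ i, G i q χ) := by
  classical
  have hcop : ∀ q : ℕ, Nat.Coprime q (∏ i, N i) → ∀ i, Nat.Coprime q (N i) := fun q hq i =>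
    Nat.Coprime.coprime_dvd_right (dvd_prod_of_mem N (mem_univ i)) hq
  refine ⟨?_, ?_, ?_⟩
  · have : 0 ≤ ∑ i, K i := sum_nonneg fun i _ => (h i).pos.le
    linarith
  · intro q χ hq hqN hχ
    push_cast
    have hlog : 0 ≤ Real.log q := Real.log_natCast_nonneg q
    calc ∑ i, (G i q χ : ℝ) ≤ ∑ i, K i * (1 + Real.log q) :=
          sum_le_sum fun i _ => (h i).bd q χ hq (hcop q hqN i) hχ
      _ = (∑ i, K i) * (1 + Real.log q) := by rw [sum_mul]
      _ ≤ _ := by nlinarith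
  · intro δ hδ
    choose q0 hq0 using fun i => (h i).nv δ hδ
    have hne : ∀ i, q0 i ≤ ∑ j, |q0 j| := fun i => (le_abs_self _).trans
      (single_le_sum (f := fun j => |q0 j|) (fun j _ => abs_nonneg _) (mem_univ i))
    refine ⟨∑ j, |q0 j|, fun q h1 h2 h3 χ h4 h5 => ?_⟩
    exact sum_eq_zero fun i _ => hq0 i q ((hne i).trans h1) h2 (hcop q h3 i) χ h4 h5

open Classical in
/-- the indicator of a zero at a conjugate -/
noncomputable def ind (G : (q : ℕ) → DirichletCharacter ℂ q → ℕ) (q : ℕ)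
    (χ : DirichletCharacter ℂ q) : ℕ := if ∃ j ∈ ex (orderOf χ), G q (χ ^ j) ≠ 0 then 1 else 0

lemma gh_ind {N : ℕ} {K : ℝ} {G : (q : ℕ) → DirichletCharacter ℂ q → ℕ} (hG : GH N K G) :
    GH N 1 (ind G) := by
  refine ⟨one_pos, ?_, ?_⟩
  · intro q χ hq hqN hχ
    have hlog : 0 ≤ Real.log q := Real.log_natCast_nonneg q
    have : ind G q χ ≤ 1 := by
      unfold ind
      split_ifs <;> omega
    have h2 : (ind G q χ : ℝ) ≤ 1 := by exact_mod_cast this
    linarith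
  · intro δ hδ
    obtain ⟨q0, hq0⟩ := hG.nv δ hδ
    refine ⟨q0, fun q h1 h2 h3 χ h4 h5 => ?_⟩
    unfold ind
    rw [if_neg]
    rintro ⟨j, hj, hne⟩
    obtain ⟨-, hj2⟩ := mem_ex.1 hj
    have : NeZero q := ⟨by omega⟩
    exact hne (hq0 q h1 h2 h3 _ (prim_pow h4 hj2) (by rwa [Nat.Coprime.orderOf_pow hj2]))

lemma prim_finite (N X : ℕ) : (Prim N X).Finite := by
  rw [prim_eq]
  exact Finset.finite_toSet _

lemma count_eq (G : (q : ℕ) → DirichletCharacter ℂ q → ℕ) (N X : ℕ) :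
    {x ∈ Prim N X | ∃ j ∈ ex (orderOf x.2), G x.1 (x.2 ^ j) ≠ 0}.ncard =
      ∑ᶠ x ∈ Prim N X, ind G x.1 x.2 := by
  classical
  have h1 : {x ∈ Prim N X | ∃ j ∈ ex (orderOf x.2), G x.1 (x.2 ^ j) ≠ 0} =
      (((prim_finite N X).toFinset.filter
        (fun x => ∃ j ∈ ex (orderOf x.2), G x.1 (x.2 ^ j) ≠ 0) : Finset _) :
        Set (Σ q : ℕ, DirichletCharacter ℂ q)) := by
    ext x
    simp
  rw [h1, Set.ncard_coe_finset, finsum_mem_eq_finite_toFinset_sum _ (prim_finite N X), card_filter]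
  refine sum_congr rfl fun x _ => ?_
  unfold ind
  split_ifs <;> rfl

/-- the proportion of the characters with a zero at a conjugate -/
theorem proportion {N : ℕ} (hN : 1 ≤ N) {K : ℝ} {G : (q : ℕ) → DirichletCharacter ℂ q → ℕ}
    (hG : GH N K G) : ∃ C c : ℝ, 0 < C ∧ 0 < c ∧ ∀ X : ℕ, 1 ≤ X →
      (({x ∈ Prim N X | ∃ j ∈ ex (orderOf x.2), G x.1 (x.2 ^ j) ≠ 0}.ncard : ℕ) : ℝ) ≤
        C * Real.exp (-c * cr X) * (Prim N X).ncard := by
  obtain ⟨C, c, hC, hc, h⟩ := average hN (gh_ind hG)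
  refine ⟨C, c, hC, hc, fun X hX => ?_⟩
  rw [count_eq]
  exact h X hX

end Pool.Agent.X309.DC
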