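import Pool.Agent.X309.DE

/-!
The average over the moduli.
-/

set_option autoImplicit false

namespace Pool.Agent.X309.DC

open Finset
open Pool.Agent.TH940 (tot GH)
open Pool.Agent.Y683.AA (cr moduli tot_triv cr_nonneg sqrt_le)

/-- the sum of `tot G q` over all moduli -/
theorem sum_tot {N : ℕ} {K : ℝ} {G : (q : ℕ) → DirichletCharacter ℂ q → ℕ} (hG : GH N K G) :
    ∃ C c : ℝ, 0 < C ∧ 0 < c ∧ ∀ X : ℕ, 1 ≤ X →
      ((∑ q ∈ (Icc 1 X).filter (fun q => Nat.Coprime q N), tot G q : ℕ) : ℝ) ≤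
        C * (X : ℝ) ^ 2 * Real.exp (-c * cr X) := by
  classical
  have hK := hG.pos
  obtain ⟨C1, c1, hC1, hc1, h1⟩ := moduli hG (ε := 1 / 8) (by norm_num)
  obtain ⟨C3, hC3, h3⟩ := Pool.Agent.Y683.AA.exp_absorb hc1
  set c : ℝ := min (c1 / 2) (1 / 8) with hc
  have hc0 : 0 < c := lt_min (by positivity) (by norm_num)
  refine ⟨C1 * K * C3 + 16 * C1, c, by positivity, hc0, fun X hX => ?_⟩
  have hXr : (1 : ℝ) ≤ X := by exact_mod_cast hX
  have hX0 : (0 : ℝ) < X := by linarith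
  have hlog : 0 ≤ Real.log X := Real.log_natCast_nonneg X
  have hu0 := cr_nonneg X
  push_cast
  set md := (Icc 1 X).filter (fun q => Nat.Coprime q N) with hmd
  set B := md.filter (fun q : ℕ => C1 * (q : ℝ) ^ (3 / 4 + 1 / 8 : ℝ) < tot G q) with hB
  rw [← sum_filter_add_sum_filter_not md
    (fun q : ℕ => C1 * (q : ℝ) ^ (3 / 4 + 1 / 8 : ℝ) < tot G q)]
  have hBcard : (B.card : ℝ) ≤ C1 * X * Real.exp (-c1 * cr X) := by
    refine le_trans ?_ (h1 X hX)
    have : B ⊆ (Icc 1 X).filter (fun q : ℕ => Nat.Coprime q N ∧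
        C1 * (q : ℝ) ^ (3 / 4 + 1 / 8 : ℝ) < tot G q) := by
      intro q hq
      rw [hB, mem_filter, hmd, mem_filter] at hq
      rw [mem_filter]
      exact ⟨hq.1.1, hq.1.2, hq.2⟩
    exact_mod_cast card_le_card this
  have h2 : (1 + Real.log X) * Real.exp (-c1 * cr X) ≤ C3 * Real.exp (-c * cr X) := by
    have h4 := h3 (cr X) hu0
    rw [Pool.Agent.Y683.AA.cr_pow] at h4
    have h5 : (1 + Real.log X) ≤ (1 + Real.log X) ^ 3 := by
      nlinarith [sq_nonneg (Real.log X), mul_nonneg hlog (sq_nonneg (Real.log X))]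
    have h6 : Real.exp (-(c1 / 2) * cr X) ≤ Real.exp (-c * cr X) := by
      refine Real.exp_le_exp.2 ?_
      have : c ≤ c1 / 2 := min_le_left _ _
      nlinarith
    calc (1 + Real.log X) * Real.exp (-c1 * cr X) ≤
        (1 + Real.log X) ^ 3 * Real.exp (-c1 * cr X) :=
          mul_le_mul_of_nonneg_right h5 (Real.exp_pos _).le
      _ ≤ C3 * Real.exp (-(c1 / 2) * cr X) := h4
      _ ≤ _ := mul_le_mul_of_nonneg_left h6 hC3.le
  have h3 : ∑ q ∈ B, (tot G q : ℝ) ≤ C1 * K * C3 * X ^ 2 * Real.exp (-c * cr X) := by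
    calc ∑ q ∈ B, (tot G q : ℝ) ≤ ∑ q ∈ B, (X : ℝ) * (K * (1 + Real.log X)) := by
          refine sum_le_sum fun q hq => ?_
          rw [hB, mem_filter, hmd, mem_filter, mem_Icc] at hq
          obtain ⟨⟨⟨k1, k2⟩, k3⟩, -⟩ := hq
          refine (tot_triv hG k1 k3).trans ?_
          have k4 : (q : ℝ) ≤ X := by exact_mod_cast k2
          have k5 : (0 : ℝ) < q := by exact_mod_cast k1
          have k6 : Real.log q ≤ Real.log X := Real.log_le_log k5 k4
          have k7 : 0 ≤ Real.log q := Real.log_natCast_nonneg q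
          gcongr
      _ = (B.card : ℝ) * (X * (K * (1 + Real.log X))) := by rw [sum_const, nsmul_eq_mul]
      _ ≤ (C1 * X * Real.exp (-c1 * cr X)) * (X * (K * (1 + Real.log X))) :=
          mul_le_mul_of_nonneg_right hBcard (by positivity)
      _ = C1 * K * X ^ 2 * ((1 + Real.log X) * Real.exp (-c1 * cr X)) := by ring
      _ ≤ C1 * K * X ^ 2 * (C3 * Real.exp (-c * cr X)) :=
          mul_le_mul_of_nonneg_left h2 (by positivity)
      _ = _ := by ring
  have h4 : ∑ q ∈ md.filter (fun q : ℕ => ¬ C1 * (q : ℝ) ^ (3 / 4 + 1 / 8 : ℝ) < tot G q),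
      (tot G q : ℝ) ≤ 16 * C1 * (X : ℝ) ^ 2 * Real.exp (-c * cr X) := by
    have hX8 : (X : ℝ) * (X : ℝ) ^ (3 / 4 + 1 / 8 : ℝ) ≤ 16 * (X ^ 2 * Real.exp (-c * cr X)) := by
      have hs := sqrt_le hX (c := 4 * c) (by
        have : c ≤ 1 / 8 := min_le_right _ _
        linarith)
      have e1 : (X : ℝ) * (X : ℝ) ^ (3 / 4 + 1 / 8 : ℝ) = X ^ 2 * (X : ℝ) ^ (-(1 / 8) : ℝ) := by
        rw [← Real.rpow_natCast, ← Real.rpow_add hX0]
        nth_rewrite 1 [← Real.rpow_one (X : ℝ)]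
        rw [← Real.rpow_add hX0]
        norm_num
      rw [e1]
      have e2 : (X : ℝ) ^ (-(1 / 8) : ℝ) ≤ 16 * Real.exp (-c * cr X) := by
        have e3 : (X : ℝ) ^ (-(1 / 2) : ℝ) ≤ 2 * Real.exp (-(4 * c) * cr X) := by
          have e4 : (X : ℝ) ^ ((1 : ℝ) / 2) = X * (X : ℝ) ^ (-(1 / 2) : ℝ) := by
            nth_rewrite 2 [← Real.rpow_one (X : ℝ)]
            rw [← Real.rpow_add hX0]
            norm_num
          rw [e4] at hs
          have e5 : (X : ℝ) * (X : ℝ) ^ (-(1 / 2) : ℝ) ≤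
              X * (2 * Real.exp (-(4 * c) * cr X)) := by linarith
          exact le_of_mul_le_mul_left e5 hX0
        have e6 : ((X : ℝ) ^ (-(1 / 8) : ℝ)) ^ 4 = (X : ℝ) ^ (-(1 / 2) : ℝ) := by
          rw [← Real.rpow_natCast, ← Real.rpow_mul hX0.le]
          norm_num
        have e7 : (16 * Real.exp (-c * cr X)) ^ 4 = 65536 * Real.exp (-(4 * c) * cr X) := by
          rw [mul_pow, ← Real.exp_nat_mul]
          norm_num
          ring_nf
        refine le_of_pow_le_pow_left₀ (n := 4) (by norm_num) (by positivity) ?_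
        rw [e6, e7]
        refine e3.trans ?_
        have := Real.exp_pos (-(4 * c) * cr X)
        nlinarith
      calc (X : ℝ) ^ 2 * (X : ℝ) ^ (-(1 / 8) : ℝ) ≤ X ^ 2 * (16 * Real.exp (-c * cr X)) :=
            mul_le_mul_of_nonneg_left e2 (by positivity)
        _ = _ := by ring
    calc ∑ q ∈ md.filter (fun q : ℕ => ¬ C1 * (q : ℝ) ^ (3 / 4 + 1 / 8 : ℝ) < tot G q),
        (tot G q : ℝ) ≤ ∑ q ∈ md.filter
          (fun q : ℕ => ¬ C1 * (q : ℝ) ^ (3 / 4 + 1 / 8 : ℝ) < tot G q),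
          C1 * (X : ℝ) ^ (3 / 4 + 1 / 8 : ℝ) := by
          refine sum_le_sum fun q hq => ?_
          rw [mem_filter, hmd, mem_filter, mem_Icc] at hq
          obtain ⟨⟨⟨k1, k2⟩, k3⟩, k4⟩ := hq
          push Not at k4
          refine k4.trans ?_
          have k5 : (q : ℝ) ≤ X := by exact_mod_cast k2
          gcongr
      _ = ((md.filter
          (fun q : ℕ => ¬ C1 * (q : ℝ) ^ (3 / 4 + 1 / 8 : ℝ) < tot G q)).card : ℝ) *
          (C1 * (X : ℝ) ^ (3 / 4 + 1 / 8 : ℝ)) := by rw [sum_const, nsmul_eq_mul]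
      _ ≤ X * (C1 * (X : ℝ) ^ (3 / 4 + 1 / 8 : ℝ)) := by
          refine mul_le_mul_of_nonneg_right ?_ (by positivity)
          have h5 : (md.filter
            (fun q : ℕ => ¬ C1 * (q : ℝ) ^ (3 / 4 + 1 / 8 : ℝ) < tot G q)).card ≤ X := by
            refine (card_filter_le _ _).trans ((card_filter_le _ _).trans ?_)
            rw [Nat.card_Icc]
            omega
          exact_mod_cast h5
      _ = C1 * (X * (X : ℝ) ^ (3 / 4 + 1 / 8 : ℝ)) := by ring
      _ ≤ C1 * (16 * (X ^ 2 * Real.exp (-c * cr X))) := mul_le_mul_of_nonneg_left hX8 hC1.le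
      _ = _ := by ring
  calc _ ≤ _ := add_le_add h3 h4
    _ = _ := by ring

/-- the average against the degrees -/
theorem avg_tot {N : ℕ} (hN : 1 ≤ N) {K : ℝ} {G : (q : ℕ) → DirichletCharacter ℂ q → ℕ}
    (hG : GH N K G) : ∃ C c : ℝ, 0 < C ∧ 0 < c ∧ ∀ X : ℕ, 1 ≤ X →
      ((∑ q ∈ (Icc 1 X).filter (fun q => Nat.Coprime q N), tot G q : ℕ) : ℝ) ≤
        C * Real.exp (-c * cr X) *
          ((∑ q ∈ (Icc 1 X).filter (fun q => Nat.Coprime q N), q.totient : ℕ) : ℝ) := by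
  classical
  obtain ⟨C1, c1, hC1, hc1, h1⟩ := sum_tot hG
  obtain ⟨c2, hc2, h2⟩ := Pool.Agent.Y683.AA.ncard_ge N hN
  obtain ⟨C3, hC3, h3⟩ := Pool.Agent.Y683.AA.exp_absorb hc1
  refine ⟨C1 / c2 * C3, c1 / 2, by positivity, by positivity, fun X hX => ?_⟩
  have hXr : (1 : ℝ) ≤ X := by exact_mod_cast hX
  have hX0 : (0 : ℝ) < X := by linarith
  have hlog : 0 ≤ Real.log X := Real.log_natCast_nonneg X
  have h4 := h3 (cr X) (cr_nonneg X)
  rw [Pool.Agent.Y683.AA.cr_pow] at h4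
  have h6 : ((Pool.Agent.Y683.AA.Prim N X).ncard : ℝ) ≤
      ((∑ q ∈ (Icc 1 X).filter (fun q => Nat.Coprime q N), q.totient : ℕ) : ℝ) := by
    have : (Pool.Agent.Y683.AA.Prim N X).ncard ≤
        ∑ q ∈ (Icc 1 X).filter (fun q => Nat.Coprime q N), q.totient := by
      rw [Pool.Agent.Y683.AA.ncard_prim]
      refine sum_le_sum fun q hq => ?_
      rw [Pool.Agent.Y683.AA.md, mem_filter, mem_Icc] at hq
      have : NeZero q := ⟨by omega⟩
      refine (card_le_univ _).trans ?_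
      rw [Pool.Agent.Y683.AA.card_char]
    exact_mod_cast this
  refine (h1 X hX).trans ?_
  have h5 : C1 * (X : ℝ) ^ 2 * Real.exp (-c1 * cr X) =
      (C1 / c2) * ((1 + Real.log X) ^ 2 * Real.exp (-c1 * cr X)) *
        (c2 * ((X : ℝ) / (1 + Real.log X)) ^ 2) := by
    have : (0 : ℝ) < 1 + Real.log X := by linarith
    field_simp
  have h7 : (1 + Real.log X) ^ 2 * Real.exp (-c1 * cr X) ≤ C3 * Real.exp (-(c1 / 2) * cr X) := by
    refine le_trans ?_ h4
    refine mul_le_mul_of_nonneg_right ?_ (Real.exp_pos _).le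
    exact pow_le_pow_right₀ (by linarith) (by norm_num)
  rw [h5]
  calc (C1 / c2) * ((1 + Real.log X) ^ 2 * Real.exp (-c1 * cr X)) *
        (c2 * ((X : ℝ) / (1 + Real.log X)) ^ 2) ≤
      (C1 / c2) * (C3 * Real.exp (-(c1 / 2) * cr X)) *
        ((∑ q ∈ (Icc 1 X).filter (fun q => Nat.Coprime q N), q.totient : ℕ) : ℝ) := by
        refine mul_le_mul (mul_le_mul_of_nonneg_left h7 (by positivity)) ((h2 X hX).trans h6)
          (by positivity) (by positivity)
    _ = _ := by ring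

end Pool.Agent.X309.DC
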