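import Pool.Agent.X309.DD

/-!
Products of Dirichlet characters of coprime conductors.
-/

set_option autoImplicit false

namespace Pool.Agent.X309.DC

open Finset
open Pool.Agent.TH940 (tot GH)

/-- the product of two characters of coprime moduli -/
noncomputable def tw {q m : ℕ} (χ : DirichletCharacter ℂ q) (η : DirichletCharacter ℂ m) :
    DirichletCharacter ℂ (q * m) :=
  DirichletCharacter.changeLevel (Nat.dvd_mul_right q m) χ *
    DirichletCharacter.changeLevel (Nat.dvd_mul_left m q) η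

lemma cl_apply {d n : ℕ} (hd : d ∣ n) (ψ : DirichletCharacter ℂ d) {a : ℕ} (h : Nat.Coprime a n) :
    DirichletCharacter.changeLevel hd ψ (a : ZMod n) = ψ (a : ZMod d) := by
  have hu : IsUnit ((a : ℕ) : ZMod n) := (ZMod.isUnit_iff_coprime a n).2 h
  have h1 := DirichletCharacter.changeLevel_eq_cast_of_dvd ψ hd hu.unit
  rw [IsUnit.unit_spec, ZMod.cast_natCast hd] at h1
  exact h1

lemma tw_cop {q m : ℕ} (χ : DirichletCharacter ℂ q) (η : DirichletCharacter ℂ m) {a : ℕ}
    (h : Nat.Coprime a (q * m)) : tw χ η (a : ZMod (q * m)) = χ (a : ZMod q) * η (a : ZMod m) := by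
  unfold tw
  rw [MulChar.mul_apply, cl_apply _ _ h, cl_apply _ _ h]

lemma tw_apply {q m : ℕ} (χ : DirichletCharacter ℂ q) (η : DirichletCharacter ℂ m) (a : ℕ) :
    tw χ η (a : ZMod (q * m)) = χ (a : ZMod q) * η (a : ZMod m) := by
  by_cases h : Nat.Coprime a (q * m)
  · exact tw_cop χ η h
  · rw [MulChar.map_nonunit _ (fun hu => h ((ZMod.isUnit_iff_coprime a (q * m)).1 hu))]
    by_cases h1 : Nat.Coprime a q
    · have h2 : ¬ Nat.Coprime a m := fun h2 => h (Nat.Coprime.mul_right h1 h2)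
      rw [MulChar.map_nonunit η (fun hu => h2 ((ZMod.isUnit_iff_coprime a m).1 hu)), mul_zero]
    · rw [MulChar.map_nonunit χ (fun hu => h1 ((ZMod.isUnit_iff_coprime a q).1 hu)), zero_mul]

lemma exists_crt {q m : ℕ} (hqm : Nat.Coprime q m) (a b : ℕ) :
    ∃ v : ℕ, (v : ZMod q) = (a : ZMod q) ∧ (v : ZMod m) = (b : ZMod m) := by
  obtain ⟨v, h1, h2⟩ := Nat.chineseRemainder hqm a b
  exact ⟨v, (ZMod.natCast_eq_natCast_iff _ _ _).2 h1, (ZMod.natCast_eq_natCast_iff _ _ _).2 h2⟩

lemma cop_iff {n a b : ℕ} (h : (a : ZMod n) = (b : ZMod n)) : Nat.Coprime a n ↔ Nat.Coprime b n := by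
  rw [← ZMod.isUnit_iff_coprime, ← ZMod.isUnit_iff_coprime, h]

/-- a character trivial at the units congruent to `1` modulo `d` factors through `d` -/
lemma factors_of {q d : ℕ} [NeZero q] (hd : d ∣ q) (χ : DirichletCharacter ℂ q)
    (h : ∀ a : ℕ, Nat.Coprime a q → (a : ZMod d) = 1 → χ (a : ZMod q) = 1) :
    χ.FactorsThrough d := by
  rw [DirichletCharacter.factorsThrough_iff_ker_unitsMap hd]
  intro u hu
  rw [MonoidHom.mem_ker] at hu ⊢
  have h1 : ((u : ZMod q).val : ZMod q) = (u : ZMod q) := ZMod.natCast_zmod_val _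
  have h2 : Nat.Coprime (u : ZMod q).val q := by
    rw [← ZMod.isUnit_iff_coprime, h1]
    exact u.isUnit
  have h3 : (((u : ZMod q).val : ℕ) : ZMod d) = 1 := by
    have h4 : ((ZMod.unitsMap hd u : (ZMod d)ˣ) : ZMod d) = 1 := by rw [hu]; rfl
    rw [ZMod.unitsMap_val] at h4
    rw [← h4, ← ZMod.cast_natCast hd, h1]
  have h5 := h _ h2 h3
  rw [h1] at h5
  ext
  rw [MulChar.coe_toUnitHom, h5]
  rfl

lemma tw_prim {q m : ℕ} [NeZero q] [NeZero m] (hqm : Nat.Coprime q m)
    {χ : DirichletCharacter ℂ q} (hχ : χ.IsPrimitive) {η : DirichletCharacter ℂ m}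
    (hη : η.IsPrimitive) : (tw χ η).IsPrimitive := by
  have : NeZero (q * m) := ⟨mul_ne_zero (NeZero.ne q) (NeZero.ne m)⟩
  set c := (tw χ η).conductor with hc
  have hcd : c ∣ q * m := DirichletCharacter.conductor_dvd_level _
  have hval : ∀ a : ℕ, Nat.Coprime a (q * m) → (a : ZMod c) = 1 →
      tw χ η (a : ZMod (q * m)) = 1 := by
    intro a ha h1
    obtain ⟨hd, ψ, hψ⟩ : (tw χ η).FactorsThrough c := DirichletCharacter.factorsThrough_conductor _
    rw [hψ, cl_apply hd ψ ha, h1, map_one]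
  have hgc : ∀ a : ℕ, (a : ZMod (Nat.gcd c q)) = 1 → (a : ZMod (Nat.gcd c m)) = 1 →
      (a : ZMod c) = 1 := by
    intro a h1 h2
    have h3 : a ≡ 1 [MOD Nat.gcd c q] := by
      rw [← ZMod.natCast_eq_natCast_iff, h1, Nat.cast_one]
    have h4 : a ≡ 1 [MOD Nat.gcd c m] := by
      rw [← ZMod.natCast_eq_natCast_iff, h2, Nat.cast_one]
    have h5 : Nat.Coprime (Nat.gcd c q) (Nat.gcd c m) :=
      Nat.Coprime.coprime_dvd_left (Nat.gcd_dvd_right c q)
        (Nat.Coprime.coprime_dvd_right (Nat.gcd_dvd_right c m) hqm)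
    have h6 := (Nat.modEq_and_modEq_iff_modEq_mul h5).1 ⟨h3, h4⟩
    have h7 : Nat.gcd c q * Nat.gcd c m = c := by
      rw [← Nat.Coprime.gcd_mul c hqm]
      exact Nat.gcd_eq_left hcd
    rw [h7] at h6
    rw [← ZMod.natCast_eq_natCast_iff] at h6
    rw [h6, Nat.cast_one]
  have hq : q ∣ c := by
    have h1 : χ.FactorsThrough (Nat.gcd c q) := by
      refine factors_of (Nat.gcd_dvd_right c q) χ fun a ha h1 => ?_
      obtain ⟨v, hv1, hv2⟩ := exists_crt hqm a 1
      have hvq : Nat.Coprime v q := (cop_iff hv1).2 ha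
      have hvm : Nat.Coprime v m := (cop_iff hv2).2 (Nat.coprime_one_left m)
      have hvg : (v : ZMod (Nat.gcd c q)) = 1 := by
        have h2 := congrArg (ZMod.castHom (Nat.gcd_dvd_right c q) (ZMod (Nat.gcd c q))) hv1
        rw [map_natCast, map_natCast] at h2
        rw [h2, h1]
      have hvg2 : (v : ZMod (Nat.gcd c m)) = 1 := by
        have h2 := congrArg (ZMod.castHom (Nat.gcd_dvd_right c m) (ZMod (Nat.gcd c m))) hv2
        rw [map_natCast, map_natCast, Nat.cast_one] at h2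
        exact h2
      have h3 := hval v (Nat.Coprime.mul_right hvq hvm) (hgc v hvg hvg2)
      rw [tw_apply, hv1, hv2, Nat.cast_one, map_one, mul_one] at h3
      exact h3
    have h2 := DirichletCharacter.conductor_dvd_of_mem_conductorSet χ h1
    have h3 : χ.conductor = q := hχ
    rw [h3] at h2
    exact h2.trans (Nat.gcd_dvd_left c q)
  have hm : m ∣ c := by
    have h1 : η.FactorsThrough (Nat.gcd c m) := by
      refine factors_of (Nat.gcd_dvd_right c m) η fun a ha h1 => ?_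
      obtain ⟨v, hv1, hv2⟩ := exists_crt hqm 1 a
      have hvq : Nat.Coprime v q := (cop_iff hv1).2 (Nat.coprime_one_left q)
      have hvm : Nat.Coprime v m := (cop_iff hv2).2 ha
      have hvg : (v : ZMod (Nat.gcd c q)) = 1 := by
        have h2 := congrArg (ZMod.castHom (Nat.gcd_dvd_right c q) (ZMod (Nat.gcd c q))) hv1
        rw [map_natCast, map_natCast, Nat.cast_one] at h2
        exact h2
      have hvg2 : (v : ZMod (Nat.gcd c m)) = 1 := by
        have h2 := congrArg (ZMod.castHom (Nat.gcd_dvd_right c m) (ZMod (Nat.gcd c m))) hv2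
        rw [map_natCast, map_natCast] at h2
        rw [h2, h1]
      have h3 := hval v (Nat.Coprime.mul_right hvq hvm) (hgc v hvg hvg2)
      rw [tw_apply, hv1, hv2, Nat.cast_one, map_one, one_mul] at h3
      exact h3
    have h2 := DirichletCharacter.conductor_dvd_of_mem_conductorSet η h1
    have h3 : η.conductor = m := hη
    rw [h3] at h2
    exact h2.trans (Nat.gcd_dvd_left c m)
  exact Nat.dvd_antisymm hcd (Nat.Coprime.mul_dvd_of_dvd_of_dvd hqm hq hm)

lemma order_tw {q m : ℕ} [NeZero q] [NeZero m] (hqm : Nat.Coprime q m)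
    (χ : DirichletCharacter ℂ q) (η : DirichletCharacter ℂ m) :
    orderOf χ ≤ orderOf (tw χ η) := by
  have : NeZero (q * m) := ⟨mul_ne_zero (NeZero.ne q) (NeZero.ne m)⟩
  refine Nat.le_of_dvd (orderOf_pos _) (orderOf_dvd_of_pow_eq_one ?_)
  have h1 := pow_orderOf_eq_one (tw χ η)
  set n := orderOf (tw χ η) with hn
  ext u
  have e1 : ((u : ZMod q).val : ZMod q) = (u : ZMod q) := ZMod.natCast_zmod_val _
  obtain ⟨v, hv1, hv2⟩ := exists_crt hqm (u : ZMod q).val 1
  have hvq : Nat.Coprime v q := by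
    rw [← ZMod.isUnit_iff_coprime, hv1, e1]
    exact u.isUnit
  have hvm : Nat.Coprime v m := (cop_iff hv2).2 (Nat.coprime_one_left m)
  have hu : IsUnit ((v : ℕ) : ZMod (q * m)) :=
    (ZMod.isUnit_iff_coprime v (q * m)).2 (Nat.Coprime.mul_right hvq hvm)
  have h2 : ((tw χ η) ^ n) (v : ZMod (q * m)) = 1 := by
    rw [h1, MulChar.one_apply hu]
  rw [MulChar.pow_apply_coe, MulChar.one_apply_coe]
  have h3 : (tw χ η) (v : ZMod (q * m)) ^ n = 1 := by
    rw [← hu.unit_spec, ← MulChar.pow_apply_coe, hu.unit_spec]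
    exact h2
  rw [tw_apply, hv1, hv2, Nat.cast_one, map_one, mul_one, e1] at h3
  exact h3

/-- the order function of the twists by `η` -/
lemma gh_tw {N : ℕ} {K : ℝ} {G : (q : ℕ) → DirichletCharacter ℂ q → ℕ} (hG : GH N K G) {m : ℕ}
    (hm : 1 ≤ m) (hmN : Nat.Coprime m N) {η : DirichletCharacter ℂ m} (hη : η.IsPrimitive) :
    GH (N * m) (K * (1 + Real.log m)) (fun q χ => G (q * m) (tw χ η)) := by
  have hNZm : NeZero m := ⟨by omega⟩
  have hlm : 0 ≤ Real.log m := Real.log_natCast_nonneg m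
  have hmr : (1 : ℝ) ≤ m := by exact_mod_cast hm
  have hmp : (0 : ℝ) < m := by linarith
  have hc : ∀ q : ℕ, Nat.Coprime q (N * m) → Nat.Coprime (q * m) N ∧ Nat.Coprime q m := by
    intro q h
    exact ⟨Nat.Coprime.mul_left (Nat.Coprime.coprime_dvd_right (Nat.dvd_mul_right N m) h) hmN,
      Nat.Coprime.coprime_dvd_right (Nat.dvd_mul_left m N) h⟩
  refine ⟨by have := hG.pos; positivity, ?_, ?_⟩
  · intro q χ hq hqN hχ
    have : NeZero q := ⟨by omega⟩
    have hqr : (1 : ℝ) ≤ q := by exact_mod_cast hq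
    have hqp : (0 : ℝ) < q := by linarith
    have hlq : 0 ≤ Real.log q := Real.log_natCast_nonneg q
    refine (hG.bd (q * m) (tw χ η) (Nat.mul_pos hq hm) (hc q hqN).1
      (tw_prim (hc q hqN).2 hχ hη)).trans ?_
    push_cast
    rw [Real.log_mul hqp.ne' hmp.ne', mul_assoc]
    refine mul_le_mul_of_nonneg_left ?_ hG.pos.le
    nlinarith
  · intro δ hδ
    obtain ⟨q0, hq0⟩ := hG.nv (δ / 2) (by positivity)
    set T : ℝ := (m : ℝ) ^ (3 / 4 + δ / 2) with hT
    have hT0 : 0 < T := by positivity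
    refine ⟨max q0 (T ^ (2 / δ)), fun q h1 h2 h3 χ h4 h5 => ?_⟩
    have : NeZero q := ⟨by omega⟩
    have hqr : (1 : ℝ) < q := by exact_mod_cast h2
    have hqp : (0 : ℝ) < q := by linarith
    refine hq0 (q * m) ?_ ?_ (hc q h3).1 (tw χ η) (tw_prim (hc q h3).2 h4 hη) ?_
    · push_cast
      have h6 := (le_max_left _ _).trans h1
      nlinarith
    · exact lt_of_lt_of_le h2 (Nat.le_mul_of_pos_right q hm)
    · have h6 : (orderOf χ : ℝ) ≤ orderOf (tw χ η) := by exact_mod_cast order_tw (hc q h3).2 χ η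
      refine le_trans ?_ (h5.trans h6)
      push_cast
      rw [Real.mul_rpow hqp.le hmp.le]
      have h7 : T ≤ (q : ℝ) ^ (δ / 2) := by
        have h8 : T ^ (2 / δ) ≤ q := (le_max_right _ _).trans h1
        have h9 : (T ^ (2 / δ)) ^ (δ / 2) ≤ (q : ℝ) ^ (δ / 2) :=
          Real.rpow_le_rpow (by positivity) h8 (by positivity)
        rw [← Real.rpow_mul hT0.le] at h9
        have h10 : 2 / δ * (δ / 2) = 1 := by field_simp
        rw [h10, Real.rpow_one] at h9
        exact h9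
      calc (q : ℝ) ^ (3 / 4 + δ / 2) * T ≤ (q : ℝ) ^ (3 / 4 + δ / 2) * (q : ℝ) ^ (δ / 2) := by
            gcongr
        _ = (q : ℝ) ^ (3 / 4 + δ) := by
            rw [← Real.rpow_add hqp]
            congr 1
            ring

end Pool.Agent.X309.DC
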