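import Pool.Agent.TH940.Pack
import Pool.Agent.TH940.Fin
import Pool.Agent.TH940.Inst
import Pool.Agent.X309.TwDefs
import Pool.Agent.X309.DE

/-!
The `L`-functions of the twists and their orders of vanishing.
-/

set_option autoImplicit false

open Complex UpperHalfPlane MatrixGroups CongruenceSubgroup

namespace Pool.Agent.X309.TwDefs

theorem order_shift (L : ℂ → ℂ) : analyticOrderAt (fun z => L (z - 1 / 2)) 1 =
    analyticOrderAt L (1 / 2) := by
  have hg : AnalyticAt ℂ (fun z : ℂ => z - 1 / 2) 1 := by fun_prop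
  have hd : deriv (fun z : ℂ => z - 1 / 2) 1 ≠ 0 := by simp
  have h := analyticOrderAt_comp_of_deriv_ne_zero (f := L) hg hd
  have h2 : (fun z : ℂ => L (z - 1 / 2)) = L ∘ (fun z : ℂ => z - 1 / 2) := rfl
  rw [h2, h]
  norm_num

theorem lamf_eq {N : ℕ} (f : CuspForm (Gamma0 N : Subgroup (GL (Fin 2) ℝ)) 2)
    (hr : ∀ n, (coef f n).im = 0) (p : ℕ) (hp : p.Prime) (s : ℂ) :
    (W388.lamf f p : ℂ) * (p : ℂ) ^ (-(s - 1 / 2)) = coef f p * (p : ℂ) ^ (-s) := by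
  have hp0 : (0 : ℝ) < p := by exact_mod_cast hp.pos
  have hpc : (p : ℂ) ≠ 0 := by exact_mod_cast hp.ne_zero
  have hc : coef f p = ((coef f p).re : ℂ) := by
    apply Complex.ext
    · simp
    · simp [hr p]
  unfold W388.lamf
  rw [hc]
  unfold coef
  rw [show -(s - 1 / 2) = -s + (1 / 2 : ℂ) by ring, Complex.cpow_add _ _ hpc]
  push_cast
  rw [Complex.ofReal_cpow hp0.le]
  have e : ((((2 : ℝ) - 1) / 2 : ℝ) : ℂ) = (1 / 2 : ℂ) := by push_cast; norm_num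
  rw [e]
  have hne : (p : ℂ) ^ (1 / 2 : ℂ) ≠ 0 := by
    rw [Ne, Complex.cpow_eq_zero_iff]
    exact fun h => hpc h.1
  rw [Complex.ofReal_natCast]
  field_simp


theorem factor_eq {N : ℕ} (f : CuspForm (Gamma0 N : Subgroup (GL (Fin 2) ℝ)) 2)
    (hr : ∀ n, (coef f n).im = 0) (x s : ℂ) (p : ℕ) (hp : p.Prime) :
    (1 - x * coef f p * (p : ℂ) ^ (-s) + (if p ∣ N then 0 else x ^ 2 * (p : ℂ) ^ (1 - 2 * s)))⁻¹ =
      (1 - x * (W388.lamf f p : ℂ) * (p : ℂ) ^ (-(s - 1 / 2)) +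
      (if p ∣ N then 0 else x ^ 2 * (p : ℂ) ^ (-2 * (s - 1 / 2))))⁻¹ := by
  rw [mul_assoc x (W388.lamf f p : ℂ), lamf_eq f hr p hp s, mul_assoc x (coef f p),
    show (-2 * (s - 1 / 2) : ℂ) = 1 - 2 * s by ring]

/-- the order of a product at a point -/
theorem order_prod {ι : Type} (s : Finset ι) (F : ι → ℂ → ℂ) (z : ℂ)
    (h1 : ∀ i ∈ s, AnalyticAt ℂ (F i) z) (h2 : ∀ i ∈ s, analyticOrderAt (F i) z ≠ ⊤) :
    analyticOrderAt (fun w => ∏ i ∈ s, F i w) z =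
      ((∑ i ∈ s, analyticOrderNatAt (F i) z : ℕ) : ℕ∞) := by
  classical
  induction s using Finset.induction_on with
  | empty =>
    simp only [Finset.prod_empty, Finset.sum_empty]
    rw [(analyticAt_const).analyticOrderAt_eq_zero.2 one_ne_zero]
    rfl
  | insert i s hi ih =>
    have h3 : (fun w => ∏ j ∈ insert i s, F j w) = (F i) * (fun w => ∏ j ∈ s, F j w) := by
      funext w
      rw [Finset.prod_insert hi]
      rfl
    have h4 : AnalyticAt ℂ (fun w => ∏ j ∈ s, F j w) z :=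
      Finset.analyticAt_fun_prod s fun j hj => h1 j (Finset.mem_insert_of_mem hj)
    rw [h3, analyticOrderAt_mul (h1 i (Finset.mem_insert_self i s)) h4,
      ih (fun j hj => h1 j (Finset.mem_insert_of_mem hj))
        (fun j hj => h2 j (Finset.mem_insert_of_mem hj)), Finset.sum_insert hi,
      ← Nat.cast_analyticOrderNatAt (h2 i (Finset.mem_insert_self i s))]
    push_cast
    rfl

/-- One elliptic curve. -/
theorem core (a b : ℤ) (N : ℕ) [NeZero N]
    (f : CuspForm (Gamma0 N : Subgroup (GL (Fin 2) ℝ)) 2) (hf : IsFormOf a b N f) :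
    ∃ (K : ℝ) (L : (q : ℕ) → DirichletCharacter ℂ q → ℂ → ℂ),
      (∀ (q : ℕ) (χ : DirichletCharacter ℂ q), 1 ≤ q → Nat.Coprime q N → χ.IsPrimitive →
        Differentiable ℂ (L q χ) ∧ analyticOrderAt (L q χ) 1 ≠ ⊤ ∧ ∀ s : ℂ, 3 / 2 < s.re →
          HasProd (fun p : Nat.Primes => (1 - χ (p : ZMod q) * coef f p * ((p : ℕ) : ℂ) ^ (-s) +
            (if (p : ℕ) ∣ N then 0 else χ (p : ZMod q) ^ 2 * ((p : ℕ) : ℂ) ^ (1 - 2 * s)))⁻¹)
            (L q χ s)) ∧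
      Pool.Agent.TH940.GH N K (fun q χ => analyticOrderNatAt (L q χ) 1) := by
  classical
  obtain ⟨w, hw, hfr⟩ := hf.fricke
  obtain ⟨ω₁, ω₂, hω, hper⟩ := hf.periods
  have hN0 : (0 : ℝ) ≤ (N : ℝ) := Nat.cast_nonneg N
  have hsq : ((Real.sqrt N : ℝ) : ℂ) ^ 2 = (N : ℂ) := by
    have h1 : (Real.sqrt N) ^ 2 = (N : ℝ) := Real.sq_sqrt hN0
    exact_mod_cast congrArg (fun x : ℝ => (x : ℂ)) h1
  have hf' : W388.IsNewf N 2 f w := by
    refine ⟨hf.one, hf.real, hf.mul, ?_, hw, ?_⟩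
    · intro p j hp
      have h1 := hf.pow p j hp
      unfold coef at h1
      rw [h1]
      norm_num
    · intro τ τ' h
      rw [hfr τ τ' h]
      congr 1
      have hI : Complex.I ^ 2 = -1 := Complex.I_sq
      have : (((Real.sqrt N : ℝ) : ℂ) * (τ : ℂ) / Complex.I) ^ (2 : ℤ) = -((N : ℂ) * (τ : ℂ) ^ 2) := by
        rw [zpow_ofNat, div_pow, mul_pow, hsq, hI]
        ring
      rw [this]
      ring
  have hreal : ∀ n, coef f n = (((coef f n).re : ℝ) : ℂ) := by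
    intro n
    apply Complex.ext
    · simp
    · simp [hf.real n]
  have hcoef : Pool.Agent.W192.CY.Coef N (Pool.Agent.TH940.cr f) := by
    have hre : ∀ n, coef f n = ((Pool.Agent.TH940.cr f n : ℝ) : ℂ) := hreal
    have hnorm : ∀ n, |Pool.Agent.TH940.cr f n| = ‖coef f n‖ := by
      intro n
      rw [hre n, Complex.norm_real, Real.norm_eq_abs]
    refine ⟨?_, ?_, ?_, ?_, ?_, ?_⟩
    · unfold Pool.Agent.TH940.cr
      rw [W388.coeff_zero f]; simp
    · have h := hf.one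
      rw [hre 1] at h
      exact_mod_cast h
    · intro m n hmn
      have h := hf.mul m n hmn
      rw [hre, hre m, hre n] at h
      exact_mod_cast h
    · intro p j hp
      have h := hf.pow p j hp
      rw [hre, hre p, hre (p ^ (j + 1)), hre (p ^ j)] at h
      split_ifs at h ⊢ with hpN
      · rw [sub_zero] at h ⊢
        exact_mod_cast h
      · exact_mod_cast h
    · intro p hp hpN
      rw [hnorm]
      exact hf.good p hp hpN
    · intro p hp hpN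
      rw [hnorm]
      exact hf.bad p hp hpN
  have hΛ : Pool.Agent.TH940.Pers f (Pool.Agent.TH940.lat ω₁ ω₂) := by
    intro γ hγ
    obtain ⟨m, n, h⟩ := hper γ hγ
    exact ⟨m * ω₁ + n * ω₂, ⟨m, n, rfl⟩, h⟩
  obtain ⟨K, L, hK, hL, hnv⟩ := Pool.Agent.TH940.pack hf' hcoef hω hΛ
  -- orders
  have han : ∀ (q : ℕ) (χ : DirichletCharacter ℂ q), 1 ≤ q → Nat.Coprime q N → χ.IsPrimitive →
      ∀ s : ℂ, AnalyticAt ℂ (L q χ) s := fun q χ h1 h2 h3 s => (hL q χ h1 h2 h3).1.analyticAt s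
  have htop : ∀ (q : ℕ) (χ : DirichletCharacter ℂ q), 1 ≤ q → Nat.Coprime q N → χ.IsPrimitive →
      ∀ s : ℂ, analyticOrderAt (L q χ) s ≠ ⊤ := by
    intro q χ h1 h2 h3 s
    exact H370.Loc.order_ne_top (K := Set.univ) isPreconnected_univ (fun z _ => han q χ h1 h2 h3 z)
      (Set.mem_univ _) (hL q χ h1 h2 h3).2.2.1 (Set.mem_univ s)
  set G : (q : ℕ) → DirichletCharacter ℂ q → ℕ := fun q χ => analyticOrderNatAt (L q χ) (1 / 2)
    with hG
  have hGH : Pool.Agent.TH940.GH N K G := by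
    refine ⟨hK, fun q χ h1 h2 h3 => (hL q χ h1 h2 h3).2.2.2, fun δ hδ => ?_⟩
    obtain ⟨q0, hq0⟩ := hnv δ hδ
    refine ⟨q0, fun q h1 h2 h3 χ h4 h5 => ?_⟩
    have h6 := hq0 q h1 h2 h3 χ h4 h5
    rw [hG]
    simp only
    unfold analyticOrderNatAt
    rw [(han q χ (by omega) h3 h4 _).analyticOrderAt_eq_zero.2 h6]
    rfl
  have hsh : ∀ (q : ℕ) (χ : DirichletCharacter ℂ q),
      analyticOrderAt (fun s => L q χ (s - 1 / 2)) 1 = analyticOrderAt (L q χ) (1 / 2) :=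
    fun q χ => order_shift (L q χ)
  refine ⟨K, fun q χ s => L q χ (s - 1 / 2), ?_, ?_⟩
  · intro q χ hq hqN hχ
    obtain ⟨h1, h2, -⟩ := hL q χ hq hqN hχ
    refine ⟨h1.comp (by fun_prop), ?_, fun s hs => ?_⟩
    · show analyticOrderAt (fun s => L q χ (s - 1 / 2)) 1 ≠ ⊤
      rw [hsh]
      exact htop q χ hq hqN hχ _
    · have h4 := h2 (s - 1 / 2) (by
        have : (s - 1 / 2 : ℂ).re = s.re - 1 / 2 := by simp
        rw [this]; linarith)
      refine (congrArg (fun g => HasProd g (L q χ (s - 1 / 2))) (funext fun p => ?_)).mpr h4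
      exact factor_eq f hf.real (χ (p : ZMod q)) s p p.2
  · have h5 : (fun (q : ℕ) (χ : DirichletCharacter ℂ q) =>
        analyticOrderNatAt (fun s => L q χ (s - 1 / 2)) 1) = G := by
      funext q χ
      rw [hG]
      show analyticOrderNatAt (fun s => L q χ (s - 1 / 2)) 1 = analyticOrderNatAt (L q χ) (1 / 2)
      unfold analyticOrderNatAt
      rw [hsh]
    rw [h5]
    exact hGH

/-- One twist. -/
theorem core_tw (E : TwistedCurve) :
    ∃ (K : ℝ) (L : (q : ℕ) → DirichletCharacter ℂ q → ℂ → ℂ),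
      (∀ (q : ℕ) (χ : DirichletCharacter ℂ q), 1 ≤ q → Nat.Coprime q (E.N * E.m) →
        χ.IsPrimitive → Differentiable ℂ (L q χ) ∧ analyticOrderAt (L q χ) 1 ≠ ⊤ ∧
          ∀ s : ℂ, 3 / 2 < s.re → HasProd (fun p : Nat.Primes => E.factor χ s p) (L q χ s)) ∧
      Pool.Agent.TH940.GH (E.N * E.m) K (fun q χ => analyticOrderNatAt (L q χ) 1) := by
  have hN : NeZero E.N := ⟨E.N_ne⟩
  have hm : NeZero E.m := ⟨E.m_ne⟩
  have hm1 : 1 ≤ E.m := Nat.one_le_iff_ne_zero.2 E.m_ne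
  obtain ⟨K, L, hL, hG⟩ := core E.a E.b E.N E.f E.isForm
  refine ⟨K * (1 + Real.log E.m), fun q χ => L (q * E.m) (DC.tw χ E.η), ?_,
    DC.gh_tw hG hm1 E.cop E.prim⟩
  intro q χ hq hqN hχ
  have : NeZero q := ⟨by omega⟩
  have h1 : Nat.Coprime (q * E.m) E.N := Nat.Coprime.mul_left
    (Nat.Coprime.coprime_dvd_right (Nat.dvd_mul_right _ _) hqN) E.cop
  have h2 : Nat.Coprime q E.m := Nat.Coprime.coprime_dvd_right (Nat.dvd_mul_left _ _) hqN
  obtain ⟨h3, h4, h5⟩ := hL (q * E.m) (DC.tw χ E.η) (Nat.mul_pos hq hm1) h1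
    (DC.tw_prim h2 hχ E.prim)
  refine ⟨h3, h4, fun s hs => ?_⟩
  refine (congrArg (fun g => HasProd g _) (funext fun p => ?_)).mpr (h5 s hs)
  unfold TwistedCurve.factor
  rw [DC.tw_apply]

/-- The general case. -/
theorem pack {g : ℕ} (A : Fin g → TwistedCurve) :
    ∃ (K : ℝ) (L B : (q : ℕ) → DirichletCharacter ℂ q → ℂ → ℂ)
      (G : (q : ℕ) → DirichletCharacter ℂ q → ℕ), IsL A L ∧ IsB A B ∧
      (∀ q χ s, B q χ s = ∏ j ∈ conj χ, L q (χ ^ j) s) ∧
      Pool.Agent.TH940.GH (level A) K G ∧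
      ∀ (q : ℕ) (χ : DirichletCharacter ℂ q), 1 ≤ q → Nat.Coprime q (level A) → χ.IsPrimitive →
        analyticOrderNatAt (L q χ) 1 = G q χ ∧
        analyticOrderNatAt (B q χ) 1 = ∑ j ∈ DC.ex (orderOf χ), G q (χ ^ j) ∧
        (B q χ 1 = 0 ↔ ∃ j ∈ DC.ex (orderOf χ), G q (χ ^ j) ≠ 0) := by
  classical
  choose K L0 hL0 hG0 using fun i => core_tw (A i)
  set M : ℕ := level A with hM
  have hcop : ∀ q : ℕ, Nat.Coprime q M → ∀ i, Nat.Coprime q ((A i).N * (A i).m) := fun q hq i =>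
    Nat.Coprime.coprime_dvd_right
      (Finset.dvd_prod_of_mem (fun i => (A i).N * (A i).m) (Finset.mem_univ i)) hq
  set L : (q : ℕ) → DirichletCharacter ℂ q → ℂ → ℂ := fun q χ s => ∏ i, L0 i q χ s with hLd
  set B : (q : ℕ) → DirichletCharacter ℂ q → ℂ → ℂ := fun q χ s => ∏ j ∈ conj χ, L q (χ ^ j) s
    with hBd
  set G : (q : ℕ) → DirichletCharacter ℂ q → ℕ := fun q χ =>
    ∑ i, analyticOrderNatAt (L0 i q χ) 1 with hGd
  have hGH : Pool.Agent.TH940.GH M (1 + ∑ i, K i) G := DC.gh_sum hG0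
  have hconj : ∀ (q : ℕ) (χ : DirichletCharacter ℂ q), conj χ = DC.ex (orderOf χ) :=
    fun q χ => rfl
  have hLan : ∀ (q : ℕ) (χ : DirichletCharacter ℂ q), 1 ≤ q → Nat.Coprime q M → χ.IsPrimitive →
      Differentiable ℂ (L q χ) := by
    intro q χ h1 h2 h3
    have : ∀ i ∈ (Finset.univ : Finset (Fin g)), Differentiable ℂ (L0 i q χ) :=
      fun i _ => (hL0 i q χ h1 (hcop q h2 i) h3).1
    exact Differentiable.fun_finsetProd this
  have hLord : ∀ (q : ℕ) (χ : DirichletCharacter ℂ q), 1 ≤ q → Nat.Coprime q M → χ.IsPrimitive →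
      analyticOrderAt (L q χ) 1 = ((G q χ : ℕ) : ℕ∞) := by
    intro q χ h1 h2 h3
    exact order_prod Finset.univ (fun i => L0 i q χ) 1
      (fun i _ => ((hL0 i q χ h1 (hcop q h2 i) h3).1).analyticAt 1)
      (fun i _ => (hL0 i q χ h1 (hcop q h2 i) h3).2.1)
  have hLnat : ∀ (q : ℕ) (χ : DirichletCharacter ℂ q), 1 ≤ q → Nat.Coprime q M → χ.IsPrimitive →
      analyticOrderNatAt (L q χ) 1 = G q χ := by
    intro q χ h1 h2 h3
    unfold analyticOrderNatAt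
    rw [hLord q χ h1 h2 h3]
    rfl
  have hpr : ∀ (q : ℕ) (χ : DirichletCharacter ℂ q), 1 ≤ q → χ.IsPrimitive →
      ∀ j ∈ conj χ, (χ ^ j).IsPrimitive := by
    intro q χ h1 h3 j hj
    have : NeZero q := ⟨by omega⟩
    rw [hconj] at hj
    exact DC.prim_pow h3 (DC.mem_ex.1 hj).2
  have hBan : ∀ (q : ℕ) (χ : DirichletCharacter ℂ q), 1 ≤ q → Nat.Coprime q M → χ.IsPrimitive →
      Differentiable ℂ (B q χ) := by
    intro q χ h1 h2 h3
    have : ∀ j ∈ conj χ, Differentiable ℂ (L q (χ ^ j)) :=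
      fun j hj => hLan q (χ ^ j) h1 h2 (hpr q χ h1 h3 j hj)
    exact Differentiable.fun_finsetProd this
  have hBord : ∀ (q : ℕ) (χ : DirichletCharacter ℂ q), 1 ≤ q → Nat.Coprime q M → χ.IsPrimitive →
      analyticOrderAt (B q χ) 1 = ((∑ j ∈ conj χ, G q (χ ^ j) : ℕ) : ℕ∞) := by
    intro q χ h1 h2 h3
    have h4 := order_prod (conj χ) (fun j => L q (χ ^ j)) 1
      (fun j hj => (hLan q (χ ^ j) h1 h2 (hpr q χ h1 h3 j hj)).analyticAt 1)
      (fun j hj => by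
        rw [hLord q (χ ^ j) h1 h2 (hpr q χ h1 h3 j hj)]
        exact ENat.natCast_ne_top _)
    refine h4.trans ?_
    congr 1
    refine Finset.sum_congr rfl fun j hj => ?_
    exact hLnat q (χ ^ j) h1 h2 (hpr q χ h1 h3 j hj)
  have hBnat : ∀ (q : ℕ) (χ : DirichletCharacter ℂ q), 1 ≤ q → Nat.Coprime q M → χ.IsPrimitive →
      analyticOrderNatAt (B q χ) 1 = ∑ j ∈ conj χ, G q (χ ^ j) := by
    intro q χ h1 h2 h3
    unfold analyticOrderNatAt
    rw [hBord q χ h1 h2 h3]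
    rfl
  have hBzero : ∀ (q : ℕ) (χ : DirichletCharacter ℂ q), 1 ≤ q → Nat.Coprime q M → χ.IsPrimitive →
      (B q χ 1 = 0 ↔ ∃ j ∈ conj χ, G q (χ ^ j) ≠ 0) := by
    intro q χ h1 h2 h3
    have h4 : (B q χ 1 ≠ 0) ↔ analyticOrderAt (B q χ) 1 = 0 :=
      ((hBan q χ h1 h2 h3).analyticAt 1).analyticOrderAt_eq_zero.symm
    have h5 : (B q χ 1 ≠ 0) ↔ ∑ j ∈ conj χ, G q (χ ^ j) = 0 := by
      rw [h4, hBord q χ h1 h2 h3]
      exact Nat.cast_eq_zero
    have h6 : (B q χ 1 = 0) ↔ ¬ ∑ j ∈ conj χ, G q (χ ^ j) = 0 := by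
      rw [← h5]
      tauto
    rw [h6, Finset.sum_eq_zero_iff]
    push Not
    rfl
  refine ⟨_, L, B, G, ?_, ?_, fun q χ s => rfl, hGH, fun q χ h1 h2 h3 =>
    ⟨hLnat q χ h1 h2 h3, hBnat q χ h1 h2 h3, hBzero q χ h1 h2 h3⟩⟩
  · intro q χ h1 h2 h3
    refine ⟨hLan q χ h1 h2 h3, ?_, fun s hs => ?_⟩
    · rw [hLord q χ h1 h2 h3]
      exact ENat.natCast_ne_top _
    · exact hasProd_prod fun i _ => (hL0 i q χ h1 (hcop q h2 i) h3).2.2 s hs
  · intro q χ h1 h2 h3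
    refine ⟨hBan q χ h1 h2 h3, ?_, fun s hs => ?_⟩
    · rw [hBord q χ h1 h2 h3]
      exact ENat.natCast_ne_top _
    · refine hasProd_prod fun j hj => hasProd_prod fun i _ => ?_
      exact (hL0 i q (χ ^ j) h1 (hcop q h2 i) (hpr q χ h1 h3 j hj)).2.2 s hs

theorem level_pos {g : ℕ} (A : Fin g → TwistedCurve) : 1 ≤ level A :=
  Nat.one_le_iff_ne_zero.2 (Finset.prod_ne_zero_iff.2 fun i _ => mul_ne_zero (A i).N_ne (A i).m_ne)

/-- The newform `η(z) η(2z) η(7z) η(14z)` of the curve `X_0(14)`: `y² + xy + y = x³ + 4x - 6`, i.e.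
`y² = x³ + 5805 x - 285714`. -/
theorem inst : ∃ f : CuspForm (Gamma0 14 : Subgroup (GL (Fin 2) ℝ)) 2,
    IsFormOf 5805 (-285714) 14 f := by
  refine ⟨Pool.Agent.W97.MT.form14, ?_, ?_, ?_, ?_, ?_, ?_, ?_, ?_, ?_⟩
  · exact TH940.Inst.facts.2.1
  · intro n
    obtain ⟨c, hc⟩ := TH940.Inst.facts.1 n
    unfold coef
    rw [hc, Complex.intCast_im]
  · exact fun m n h => TH940.Inst.mul m n h
  · exact fun p j hp => TH940.Inst.pow p j hp
  · exact fun p hp h => TH940.Inst.good p hp (fun h2 => h (h2 ▸ by norm_num))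
  · exact fun p hp h => TH940.Inst.bad p hp h
  · exact_mod_cast TH940.Inst.fricke
  · intro p hp h
    have h2 : p ≠ 2 := by
      rintro rfl
      exact h (by norm_num)
    have h3 : p ≠ 3 := by
      rintro rfl
      exact h (by norm_num)
    have h7 : p ≠ 7 := by
      rintro rfl
      exact h (by norm_num)
    refine ⟨fun hd => ?_, TH940.Inst.points p hp h2 h3⟩
    have h1 : p ∣ 2 * 7 := by simpa using hd
    rcases (Nat.Prime.dvd_mul hp).1 h1 with h4 | h4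
    · exact h2 ((Nat.prime_dvd_prime_iff_eq hp Nat.prime_two).1 h4)
    · exact h7 ((Nat.prime_dvd_prime_iff_eq hp (by norm_num)).1 h4)
  · exact TH940.Inst.periods

end Pool.Agent.X309.TwDefs
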