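import Mathlib

/-!
Characters of `(R / P ^ a C)ˣ` for a prime `P` of degree one: the order of a character primitive at `P`.
-/

set_option autoImplicit false

namespace Pool.Agent.X309

/-- characters of cyclic groups -/
lemma cyc {G : Type*} [CommGroup G] [Finite G] [IsCyclic G] {p k r : ℕ} (hp : p.Prime)
    (hn : Nat.card G = p ^ (k + 1) * r) (F : G →* ℂˣ) {v : G} (hv : v ^ p = 1) (hFv : F v ≠ 1)
    {e : ℕ} (he : F ^ e = 1) : p ^ (k + 1) ∣ e := by
  obtain ⟨g, hg⟩ := IsCyclic.exists_generator (α := G)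
  obtain ⟨j, rfl⟩ : ∃ j : ℕ, g ^ j = v := by
    have h := hg v
    rw [← mem_powers_iff_mem_zpowers] at h
    exact h
  have hog : orderOf g = Nat.card G := orderOf_eq_card_of_forall_mem_zpowers hg
  by_contra hcon
  apply hFv
  have h1 : orderOf (F g) ∣ e := by
    apply orderOf_dvd_of_pow_eq_one
    have h := DFunLike.congr_fun he g
    simpa using h
  have h2 : orderOf (F g) ∣ p ^ (k + 1) * r := by
    rw [← hn, ← hog]
    apply orderOf_dvd_of_pow_eq_one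
    rw [← map_pow, pow_orderOf_eq_one, map_one]
  have h3 : p ^ k * r ∣ j := by
    have h : p ^ (k + 1) * r ∣ j * p := by
      rw [← hn, ← hog]
      apply orderOf_dvd_of_pow_eq_one
      rw [pow_mul]
      exact hv
    have h' : p * (p ^ k * r) ∣ p * j := by
      rw [mul_comm p j]
      convert h using 1
      ring
    exact Nat.dvd_of_mul_dvd_mul_left hp.pos h'
  obtain ⟨t1, t2, ht1, ht2, ht⟩ := (Nat.dvd_mul).1 h2
  obtain ⟨i, hi, rfl⟩ := (Nat.dvd_prime_pow hp).1 ht1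
  have hi' : i ≤ k := by
    by_contra h
    have h5 : i = k + 1 := by omega
    subst h5
    exact hcon (dvd_trans (ht ▸ dvd_mul_right _ _) h1)
  have h4 : orderOf (F g) ∣ j :=
    dvd_trans (by rw [← ht]; exact Nat.mul_dvd_mul (pow_dvd_pow p hi') ht2) h3
  rw [map_pow]
  exact orderOf_dvd_iff_pow_eq_one.1 h4

variable {R : Type*} [CommRing R] [IsDedekindDomain R]

lemma charp {P : Ideal R} {p : ℕ} (hP : P.IsPrime) (hP0 : P ≠ ⊥) (hpP : (p : R) ∈ P)
    (hunr : (p : R) ∉ P ^ 2) (k : ℕ) : (p : R) ^ k ∉ P ^ (k + 1) := by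
  intro h
  have h1 : P ∣ Ideal.span {(p : R)} := Ideal.dvd_span_singleton.2 hpP
  obtain ⟨J, hJ⟩ := h1
  have hJP : ¬ P ∣ J := by
    rintro ⟨J', rfl⟩
    apply hunr
    rw [← Ideal.dvd_span_singleton, hJ, ← mul_assoc, ← pow_two]
    exact dvd_mul_right _ _
  have h2 : P ^ (k + 1) ∣ P ^ k * J ^ k := by
    rw [← mul_pow, ← hJ, Ideal.span_singleton_pow, Ideal.dvd_span_singleton]
    exact h
  rw [pow_succ] at h2
  have h3 := (mul_dvd_mul_iff_left (pow_ne_zero k hP0)).1 h2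
  exact hJP ((Ideal.prime_of_isPrime hP0 hP).dvd_of_dvd_pow h3)

lemma exists_zmod {P : Ideal R} {p : ℕ} (hp : p.Prime) (hP : P.IsPrime) (hP0 : P ≠ ⊥)
    (hpP : (p : R) ∈ P) (hunr : (p : R) ∉ P ^ 2) {a : ℕ} (hc : Nat.card (R ⧸ P ^ a) = p ^ a) :
    Nonempty (ZMod (p ^ a) ≃+* R ⧸ P ^ a) := by
  have hfin : Finite (R ⧸ P ^ a) := Nat.finite_of_card_ne_zero (by
    rw [hc]
    exact pow_ne_zero _ hp.ne_zero)
  have := Fintype.ofFinite (R ⧸ P ^ a)
  have hzero : ∀ k : ℕ, ((p ^ k : ℕ) : R ⧸ P ^ a) = 0 ↔ (p : R) ^ k ∈ P ^ a := by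
    intro k
    rw [← Ideal.Quotient.eq_zero_iff_mem]
    push_cast
    simp
  have h1 : ringChar (R ⧸ P ^ a) ∣ p ^ a := by
    rw [← CharP.cast_eq_zero_iff (R ⧸ P ^ a) (ringChar (R ⧸ P ^ a)) (p ^ a), hzero]
    exact Ideal.pow_mem_pow hpP a
  obtain ⟨i, hi, hi2⟩ := (Nat.dvd_prime_pow hp).1 h1
  have h2 : i = a := by
    by_contra hne
    have hlt : i < a := lt_of_le_of_ne hi hne
    have h3 : ((p ^ i : ℕ) : R ⧸ P ^ a) = 0 := by
      rw [← hi2]
      exact CharP.cast_eq_zero _ _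
    rw [hzero] at h3
    exact charp hP hP0 hpP hunr i (Ideal.pow_le_pow_right (by omega : i + 1 ≤ a) h3)
  have h3 : CharP (R ⧸ P ^ a) (p ^ a) := by
    rw [← h2, ← hi2]
    have := ringChar.charP (R ⧸ P ^ a)
    rw [h2] at *
    exact this
  exact ⟨ZMod.ringEquiv (R ⧸ P ^ a) (by rw [← Nat.card_eq_fintype_card, hc])⟩

/-- the order of a character primitive at `P` -/
lemma order_dvd {P C : Ideal R} {p : ℕ} (hp : p.Prime) (hp2 : p ≠ 2) (hP : P.IsPrime)
    (hP0 : P ≠ ⊥) (hpP : (p : R) ∈ P) (hunr : (p : R) ∉ P ^ 2) {k : ℕ}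
    (hc : Nat.card (R ⧸ P ^ (k + 2)) = p ^ (k + 2)) (hcop : IsCoprime P C)
    (F : (R ⧸ P ^ (k + 2) * C)ˣ →* ℂˣ) {u : (R ⧸ P ^ (k + 2) * C)ˣ} {α : R}
    (hα : Ideal.Quotient.mk (P ^ (k + 2) * C) α = u) (hα1 : α - 1 ∈ P ^ (k + 1) * C)
    (hu : F u ≠ 1) {e : ℕ} (he : F ^ e = 1) : p ^ (k + 1) ∣ e := by
  obtain ⟨e1⟩ := exists_zmod hp hP hP0 hpP hunr hc
  have hfin : Finite (R ⧸ P ^ (k + 2)) := Nat.finite_of_card_ne_zero (by
    rw [hc]
    exact pow_ne_zero _ hp.ne_zero)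
  set ε : (ZMod (p ^ (k + 2)))ˣ ≃* (R ⧸ P ^ (k + 2))ˣ := Units.mapEquiv e1.toMulEquiv
  have hcyc0 := ZMod.isCyclic_units_of_prime_pow p hp hp2 (k + 2)
  have hcyc : IsCyclic (R ⧸ P ^ (k + 2))ˣ := isCyclic_of_surjective ε ε.surjective
  have hcard : Nat.card (R ⧸ P ^ (k + 2))ˣ = p ^ (k + 1) * (p - 1) := by
    rw [← Nat.card_congr ε.toEquiv]
    have : NeZero (p ^ (k + 2)) := ⟨pow_ne_zero _ hp.ne_zero⟩
    rw [Nat.card_eq_fintype_card, ZMod.card_units_eq_totient, Nat.totient_prime_pow hp (by omega)]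
    rfl
  have hcop' : IsCoprime (P ^ (k + 2)) C := IsCoprime.pow_left hcop
  set E := Ideal.quotientMulEquivQuotientProd (P ^ (k + 2)) C hcop'
  set ι : (R ⧸ P ^ (k + 2))ˣ →* (R ⧸ P ^ (k + 2) * C)ˣ :=
    ((Units.mapEquiv E.symm.toMulEquiv).toMonoidHom.comp
      (MulEquiv.prodUnits.symm.toMonoidHom)).comp (MonoidHom.inl _ _) with hι
  set v : (R ⧸ P ^ (k + 2))ˣ := Units.map (Ideal.Quotient.factor
    (Ideal.mul_le_left : P ^ (k + 2) * C ≤ P ^ (k + 2))).toMonoidHom u with hv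
  have hιv : ι v = u := by
    ext
    change E.symm (((v : (R ⧸ P ^ (k + 2))ˣ) : R ⧸ P ^ (k + 2)), (1 : R ⧸ C)) = u
    rw [RingEquiv.symm_apply_eq]
    have h1 : ((v : (R ⧸ P ^ (k + 2))ˣ) : R ⧸ P ^ (k + 2)) = Ideal.Quotient.factor
      (Ideal.mul_le_left : P ^ (k + 2) * C ≤ P ^ (k + 2)) (u : R ⧸ P ^ (k + 2) * C) := rfl
    refine Prod.ext ?_ ?_
    · rw [Ideal.quotientMulEquivQuotientProd_fst]
      exact h1
    · rw [Ideal.quotientMulEquivQuotientProd_snd, ← hα, Ideal.Quotient.factor_mk]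
      symm
      rw [← map_one (Ideal.Quotient.mk C), Ideal.Quotient.mk_eq_mk_iff_sub_mem]
      exact Ideal.mul_le_right hα1
  have hvp : v ^ p = 1 := by
    ext
    have h1 : ((v : (R ⧸ P ^ (k + 2))ˣ) : R ⧸ P ^ (k + 2)) =
        Ideal.Quotient.mk (P ^ (k + 2)) α := by
      change Ideal.Quotient.factor _ (u : R ⧸ P ^ (k + 2) * C) = _
      rw [← hα, Ideal.Quotient.factor_mk]
    rw [Units.val_pow_eq_pow_val, h1, Units.val_one, ← map_pow,
      ← map_one (Ideal.Quotient.mk (P ^ (k + 2))), Ideal.Quotient.mk_eq_mk_iff_sub_mem]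
    have h2 : α - 1 ∈ P ^ (k + 1) := Ideal.mul_le_left hα1
    have h3 : α ^ p - 1 = (α - 1) * ∑ i ∈ Finset.range p, α ^ i := by
      rw [mul_geom_sum]
    have h4 : ∑ i ∈ Finset.range p, α ^ i ∈ P := by
      have hm : Ideal.Quotient.mk P α = 1 := by
        rw [← map_one (Ideal.Quotient.mk P), Ideal.Quotient.mk_eq_mk_iff_sub_mem]
        exact Ideal.pow_le_self (by omega) h2
      rw [← Ideal.Quotient.eq_zero_iff_mem, map_sum]
      simp only [map_pow, hm, one_pow, Finset.sum_const, Finset.card_range, nsmul_eq_mul, mul_one]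
      have := Ideal.Quotient.eq_zero_iff_mem.2 hpP
      simpa using this
    rw [h3, show k + 2 = k + 1 + 1 by ring, pow_succ]
    exact Ideal.mul_mem_mul h2 h4
  refine cyc hp hcard (F.comp ι) hvp ?_ ?_
  · rw [MonoidHom.comp_apply, hιv]
    exact hu
  · ext x
    have h := DFunLike.congr_fun he (ι x)
    rw [MonoidHom.pow_apply] at h
    rw [MonoidHom.pow_apply, MonoidHom.comp_apply, h]
    rfl

end Pool.Agent.X309
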