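import Pool.Agent.Y683.AA.TWc
import Pool.Agent.Y683.AA.SW2
import Pool.Agent.Y683.AA.SW3
import Pool.Agent.Y690.EP

/-!
Hecke characters of type `(a, b)` and their twists.
-/

set_option autoImplicit false

open Complex IsDedekindDomain

namespace Pool.Agent.X309

open Pool.Agent.W192.HK
open Pool.Agent.Y683.AA

variable {R : Subring ℂ} {ω : ℂ}

/-- primitive Hecke character of conductor `q` and infinity type `(a, b)` -/
structure HT (a b : ℕ) (q : Ideal R) (θ : Ideal R → ℂ) : Prop where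
  ne : q ≠ ⊥
  mul : ∀ I J : Ideal R, θ (I * J) = θ I * θ J
  zero : ∀ I : Ideal R, θ I = 0 ↔ (I = ⊥ ∨ ¬ IsCoprime I q)
  princ : ∀ α : R, α ≠ 0 → α - 1 ∈ q → θ (sp α) = (α : ℂ) ^ a * (starRingEnd ℂ) (α : ℂ) ^ b
  prim : ∀ q' : Ideal R, q < q' → ∃ α : R, α ≠ 0 ∧ α - 1 ∈ q' ∧ IsCoprime (sp α) q ∧
    θ (sp α) ≠ (α : ℂ) ^ a * (starRingEnd ℂ) (α : ℂ) ^ b

lemma nm_sp (hb : H_BASIC) (hR : QR R ω) (α : R) :
    (nm (sp α) : ℂ) = (α : ℂ) * (starRingEnd ℂ) (α : ℂ) := by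
  obtain ⟨b1, b2, b3, b4, b5, b6, b7, -⟩ := hb R ω hR
  rw [b5, ← Complex.mul_conj]

lemma nm_ne (hb : H_BASIC) (hR : QR R ω) {J : Ideal R} (hI : J ≠ ⊥) : (nm J : ℂ) ≠ 0 := by
  obtain ⟨b1, b2, b3, b4, b5, b6, b7, -⟩ := hb R ω hR
  have h8 := b3 J hI
  have : nm J ≠ 0 := by linarith
  exact_mod_cast this

lemma nm_mulC (hb : H_BASIC) (hR : QR R ω) (I J : Ideal R) :
    (nm (I * J) : ℂ) = (nm I : ℂ) * nm J := by
  obtain ⟨b1, b2, b3, b4, b5, b6, b7, -⟩ := hb R ω hR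
  rw [b4, Complex.ofReal_mul]

lemma sp_ne' {α : R} (hα : α ≠ 0) : sp α ≠ ⊥ := by
  intro h
  exact hα (Ideal.span_singleton_eq_bot.1 h)

lemma coe_ne {α : R} (hα : α ≠ 0) : (α : ℂ) ≠ 0 := fun h => hα (by exact_mod_cast h)

lemma conj_ne {α : R} (hα : α ≠ 0) : (starRingEnd ℂ) (α : ℂ) ≠ 0 := by
  rw [Ne, map_eq_zero]
  exact coe_ne hα

/-- from type `(n, 0)` to type `(n + b, b)` -/
lemma up (hb : H_BASIC) (hR : QR R ω) {n b : ℕ} {q : Ideal R} {θ : Ideal R → ℂ}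
    (h : HC n q θ) : HT (n + b) b q (fun I => θ I * (nm I : ℂ) ^ b) := by
  have key : ∀ α : R, ((α : ℂ) ^ n) * (nm (sp α) : ℂ) ^ b =
      (α : ℂ) ^ (n + b) * (starRingEnd ℂ) (α : ℂ) ^ b := by
    intro α
    rw [nm_sp hb hR]
    ring
  refine ⟨h.ne, fun I J => ?_, fun I => ?_, fun α hα h1 => ?_, fun q' hq' => ?_⟩
  · rw [h.mul, nm_mulC hb hR]
    ring
  · rw [mul_eq_zero, h.zero]
    constructor
    · rintro (h1 | h1)
      · exact h1
      · by_contra h2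
        push Not at h2
        exact pow_ne_zero b (nm_ne hb hR h2.1) h1
    · exact fun h1 => Or.inl h1
  · rw [h.princ α hα h1, key]
  · obtain ⟨α, h1, h2, h3, h4⟩ := h.prim q' hq'
    refine ⟨α, h1, h2, h3, fun h5 => h4 ?_⟩
    rw [← key] at h5
    exact mul_right_cancel₀ (pow_ne_zero b (nm_ne hb hR (sp_ne' h1))) h5

/-- from type `(n + b, b)` to type `(n, 0)` -/
lemma down (hb : H_BASIC) (hR : QR R ω) {n b : ℕ} {q : Ideal R} {θ : Ideal R → ℂ}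
    (h : HT (n + b) b q θ) : HC n q (fun I => θ I / (nm I : ℂ) ^ b) := by
  have key : ∀ α : R, α ≠ 0 → (α : ℂ) ^ (n + b) * (starRingEnd ℂ) (α : ℂ) ^ b /
      (nm (sp α) : ℂ) ^ b = (α : ℂ) ^ n := by
    intro α hα
    rw [nm_sp hb hR, div_eq_iff (pow_ne_zero _ (mul_ne_zero (coe_ne hα) (conj_ne hα)))]
    ring
  refine ⟨h.ne, fun I J => ?_, fun I => ?_, fun α hα h1 => ?_, fun q' hq' => ?_⟩
  · rw [h.mul, nm_mulC hb hR, mul_pow, mul_div_mul_comm]
  · rw [div_eq_zero_iff, h.zero]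
    constructor
    · rintro (h1 | h1)
      · exact h1
      · by_contra h2
        push Not at h2
        exact pow_ne_zero b (nm_ne hb hR h2.1) h1
    · exact fun h1 => Or.inl h1
  · change θ (sp α) / _ = _
    rw [h.princ α hα h1, key α hα]
  · obtain ⟨α, h1, h2, h3, h4⟩ := h.prim q' hq'
    refine ⟨α, h1, h2, h3, fun h5 => h4 ?_⟩
    change θ (sp α) / _ = _ at h5
    rw [← key α h1, div_left_inj' (pow_ne_zero b (nm_ne hb hR (sp_ne' h1)))] at h5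
    exact h5

/-- complex conjugation -/
lemma HT.conj {a b : ℕ} {q : Ideal R} {θ : Ideal R → ℂ} (h : HT a b q θ) :
    HT b a q (fun I => (starRingEnd ℂ) (θ I)) := by
  have key : ∀ α : R, (starRingEnd ℂ) ((α : ℂ) ^ a * (starRingEnd ℂ) (α : ℂ) ^ b) =
      (α : ℂ) ^ b * (starRingEnd ℂ) (α : ℂ) ^ a := by
    intro α
    rw [map_mul, map_pow, map_pow, Complex.conj_conj, mul_comm]
  refine ⟨h.ne, fun I J => ?_, fun I => ?_, fun α hα h1 => ?_, fun q' hq' => ?_⟩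
  · rw [h.mul, map_mul]
  · rw [map_eq_zero, h.zero]
  · rw [h.princ α hα h1, key]
  · obtain ⟨α, h1, h2, h3, h4⟩ := h.prim q' hq'
    refine ⟨α, h1, h2, h3, fun h5 => h4 ?_⟩
    rw [← key] at h5
    exact (starRingEnd ℂ).injective h5

/-- `θ` has an entire `L`-function that is not zero at `m` -/
def Sg (m : ℕ) (θ : Ideal R → ℂ) : Prop := ∃ L : ℂ → ℂ, Differentiable ℂ L ∧
  (∀ s : ℂ, (m : ℝ) + 1 / 2 < s.re →
    HasSum (fun J : Ideal R => θ J * (nm J : ℂ) ^ (-s)) (L s)) ∧ L (m : ℂ) ≠ 0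

lemma Sg.conj {m : ℕ} {θ : Ideal R → ℂ} (h : Sg m θ) :
    Sg m (fun I => (starRingEnd ℂ) (θ I)) := by
  obtain ⟨L, h1, h2, h3⟩ := h
  refine ⟨cj L, diff_cj h1, fun s hs => ?_, ?_⟩
  · have h6 := (h2 ((starRingEnd ℂ) s) (by rw [Complex.conj_re]; exact hs)).map (starRingEnd ℂ)
      Complex.continuous_conj
    have h7 : (fun J : Ideal R => (starRingEnd ℂ) (θ J) * (nm J : ℂ) ^ (-s)) =
        (starRingEnd ℂ) ∘ (fun J : Ideal R => θ J * (nm J : ℂ) ^ (-(starRingEnd ℂ) s)) := by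
      funext J
      simp only [Function.comp]
      rw [map_mul]
      rw [← map_neg, Complex.cpow_conj _ _ (by
        rw [Complex.arg_ofReal_of_nonneg (by rw [nm]; positivity)]
        exact Real.pi_pos.ne), Complex.conj_conj, Complex.conj_ofReal]
    rw [h7]
    exact h6
  · have h4 : cj L (m : ℂ) = (starRingEnd ℂ) (L m) := by
      unfold cj
      rw [Complex.conj_natCast]
    rw [h4, Ne, map_eq_zero]
    exact h3

/-- the hypothesis on the orders at the centre for `χ` -/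
def Ok (R : Subring ℂ) (o : ℕ → (Ideal R → ℂ) → ℕ) (A B : ℝ) (χ : Ideal R → ℂ) : Prop :=
  ∀ (σ : ℂ →+* ℂ) (m : ℕ) (f q : Ideal R) (ψ θ : Ideal R → ℂ), 1 ≤ m → (m : ℝ) ≤ A →
    HC (2 * m - 1) f ψ → nm f ≤ B → HC (2 * m - 1) q θ → Agr σ θ ψ χ → o m θ = 0

/-- the twist of one character of type `(a, b)` with `b < a` -/
lemma single_gt (hb : H_BASIC) (hcls : H_CLS) (hR : QR R ω)
    {L0 : ℕ → (Ideal R → ℂ) → ℂ → ℂ}
    (hL0 : ∀ (m : ℕ) (q : Ideal R) (θ : Ideal R → ℂ), 1 ≤ m → HC (2 * m - 1) q θ →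
        LF m θ (L0 m θ)) {A B : ℝ} {c : Ideal R} {χ : Ideal R → ℂ} (hχ : HC 0 c χ)
    (hok : Ok R (fun m θ => analyticOrderNatAt (L0 m θ) (m : ℂ)) A B χ)
    (σ : ℂ →+* ℂ) {m n b : ℕ} {f : Ideal R} {ψ : Ideal R → ℂ} (hψ : HT (n + b) b f ψ)
    (hab : n + b + b = 2 * m - 1) (hm : 1 ≤ m) (hA : (n : ℝ) ≤ A) (hB : nm f ≤ B) :
    ∃ (q : Ideal R) (θ : Ideal R → ℂ), HT (n + b) b q θ ∧
      (∀ I : Ideal R, ψ I * χ I ≠ 0 → θ I = ψ I * σ (χ I)) ∧ Sg m θ := by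
  obtain ⟨e, rfl⟩ : ∃ e, n = 2 * e + 1 := ⟨(n - 1) / 2, by omega⟩
  have hn : 2 * (e + 1) - 1 = 2 * e + 1 := by omega
  have hme : m = e + 1 + b := by omega
  have hψ' := down hb hR hψ
  obtain ⟨q, θ', hθ', hag⟩ := exists_twist hb hcls hR σ hψ' hχ
  rw [← hn] at hψ' hθ'
  have hF := hL0 (e + 1) q θ' (by omega) hθ'
  have ho : analyticOrderNatAt (L0 (e + 1) θ') ((e + 1 : ℕ) : ℂ) = 0 := by
    refine hok σ (e + 1) f q _ θ' (by omega) (le_trans ?_ hA) hψ' hB hθ' hag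
    push_cast
    have : (0 : ℝ) ≤ e := Nat.cast_nonneg e
    linarith
  have ho2 : L0 (e + 1) θ' ((e + 1 : ℕ) : ℂ) ≠ 0 := by
    have h1 : analyticOrderAt (L0 (e + 1) θ') ((e + 1 : ℕ) : ℂ) = 0 := by
      rw [← Nat.cast_analyticOrderNatAt hF.ord, ho]
      rfl
    exact (hF.diff.analyticAt _).analyticOrderAt_eq_zero.1 h1
  rw [hn] at hθ'
  refine ⟨q, fun I => θ' I * (nm I : ℂ) ^ b, up hb hR hθ', fun I hI => ?_, ?_⟩
  · have hI0 : I ≠ ⊥ := by
      rintro rfl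
      exact hI (by rw [(hψ.zero ⊥).2 (Or.inl rfl), zero_mul])
    have hN := pow_ne_zero b (nm_ne hb hR hI0)
    have h1 := hag I (mul_ne_zero (div_ne_zero (left_ne_zero_of_mul hI) hN)
      (right_ne_zero_of_mul hI))
    change θ' I * (nm I : ℂ) ^ b = _
    rw [h1]
    field_simp
  · refine ⟨fun s => L0 (e + 1) θ' (s - b), ?_, fun s hs => ?_, ?_⟩
    · exact hF.diff.comp (differentiable_id.sub_const _)
    · have hz' : ((e + 1 : ℕ) : ℝ) + 1 / 2 < (s - b).re := by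
        rw [Complex.sub_re, Complex.natCast_re]
        rw [hme] at hs
        push_cast at hs ⊢
        linarith
      have h6 : (fun J : Ideal R => θ' J * (nm J : ℂ) ^ b * (nm J : ℂ) ^ (-s)) =
          fun J : Ideal R => θ' J * (nm J : ℂ) ^ (-(s - b)) := by
        funext J
        by_cases hI : J = ⊥
        · rw [hI, (hθ'.zero ⊥).2 (Or.inl rfl), zero_mul, zero_mul, zero_mul]
        · have h7 := nm_ne hb hR hI
          have h8 : (nm J : ℂ) ^ (-(s - b)) = (nm J : ℂ) ^ (-s) * (nm J : ℂ) ^ b := by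
            rw [show -(s - (b : ℂ)) = -s + b by ring, Complex.cpow_add _ _ h7,
              Complex.cpow_natCast]
          rw [h8]
          ring
      rw [h6]
      exact hF.sum (s - b) hz'
    · have h7 : (m : ℂ) - b = ((e + 1 : ℕ) : ℂ) := by
        rw [hme]
        push_cast
        ring
      simp only
      rw [h7]
      exact ho2

/-- the twist of one character of type `(a, b)` -/
lemma single (hb : H_BASIC) (hcls : H_CLS) (hR : QR R ω)
    {L0 : ℕ → (Ideal R → ℂ) → ℂ → ℂ}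
    (hL0 : ∀ (m : ℕ) (q : Ideal R) (θ : Ideal R → ℂ), 1 ≤ m → HC (2 * m - 1) q θ →
        LF m θ (L0 m θ)) {A B : ℝ} {c : Ideal R} {χ : Ideal R → ℂ} (hχ : HC 0 c χ)
    (hok : Ok R (fun m θ => analyticOrderNatAt (L0 m θ) (m : ℂ)) A B χ)
    (σ : ℂ →+* ℂ) {m a b : ℕ} {f : Ideal R} {ψ : Ideal R → ℂ} (hψ : HT a b f ψ)
    (hab : a + b = 2 * m - 1) (hm : 1 ≤ m) (hA : |(a : ℝ) - b| ≤ A) (hB : nm f ≤ B) :
    ∃ (q : Ideal R) (θ : Ideal R → ℂ), HT a b q θ ∧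
      (∀ I : Ideal R, ψ I * σ (χ I) ≠ 0 → θ I = ψ I * σ (χ I)) ∧ Sg m θ := by
  have hχσ : ∀ I, σ (χ I) ≠ 0 → χ I ≠ 0 := fun I h h0 => h (by rw [h0, map_zero])
  rcases lt_or_ge b a with h | h
  · obtain ⟨n, rfl⟩ := Nat.exists_eq_add_of_le' h.le
    obtain ⟨q, θ, h1, h2, h3⟩ := single_gt hb hcls hR hL0 hχ hok σ hψ hab hm (by
      rw [Nat.cast_add, add_sub_cancel_right] at hA
      exact (le_abs_self _).trans hA) hB
    exact ⟨q, θ, h1, fun I hI => h2 I (mul_ne_zero (left_ne_zero_of_mul hI)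
      (hχσ I (right_ne_zero_of_mul hI))), h3⟩
  · obtain ⟨n, rfl⟩ := Nat.exists_eq_add_of_le' h
    obtain ⟨q, θ, h1, h2, h3⟩ := single_gt hb hcls hR hL0 hχ hok ((starRingEnd ℂ).comp σ)
      hψ.conj (by rw [← hab]; ring) hm (by
        rw [Nat.cast_add] at hA
        have h4 : (n : ℝ) = -((a : ℝ) - (n + a)) := by ring
        rw [h4]
        exact (neg_le_abs _).trans hA) hB
    refine ⟨q, fun I => (starRingEnd ℂ) (θ I), h1.conj, fun I hI => ?_, h3.conj⟩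
    change (starRingEnd ℂ) (θ I) = _
    rw [h2 I (mul_ne_zero (by rw [Ne, map_eq_zero]; exact left_ne_zero_of_mul hI)
      (hχσ I (right_ne_zero_of_mul hI))), map_mul, Complex.conj_conj, RingHom.comp_apply,
      Complex.conj_conj]

/-- the Euler product -/
lemma euler (hb : H_BASIC) (hR : QR R ω) {a b : ℕ} {q : Ideal R} {θ : Ideal R → ℂ}
    (hθ : HT a b q θ) (z F : ℂ)
    (h : HasSum (fun J : Ideal R => θ J * (nm J : ℂ) ^ (-z)) F) :
    HasProd (fun v : HeightOneSpectrum R =>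
      (1 - θ v.asIdeal * (nm v.asIdeal : ℂ) ^ (-z))⁻¹) F := by
  obtain ⟨b1, b2, b3, b4, b5, b6, b7, -⟩ := hb R ω hR
  have := hR.ded
  have htop : θ ⊤ = 1 := by
    have h1 := hθ.princ 1 one_ne_zero (by rw [sub_self]; exact q.zero_mem)
    rwa [sp, Ideal.span_singleton_one, Subring.coe_one, one_pow, map_one, one_pow, mul_one] at h1
  have hcm : Pool.Agent.Y690.CM (fun J : Ideal R => θ J * (nm J : ℂ) ^ (-z)) := by
    refine ⟨?_, ?_, fun A B => ?_⟩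
    · rw [(hθ.zero ⊥).2 (Or.inl rfl), zero_mul]
    · rw [htop, (b7 ⊤).2 rfl, Complex.ofReal_one, Complex.one_cpow, mul_one]
    · rw [hθ.mul, b4, Complex.ofReal_mul, Complex.mul_cpow_ofReal_nonneg
        (by rw [nm]; positivity) (by rw [nm]; positivity)]
      ring
  have h1 := Pool.Agent.Y690.hasProd_ideal hcm h.summable.norm
  rw [h.tsum_eq] at h1
  exact h1

end Pool.Agent.X309
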