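import Pool.Agent.X309.BB1

/-!
The order of vanishing over ray class fields.
-/

set_option autoImplicit false

open Complex IsDedekindDomain

namespace Pool.Agent.X309

open Pool.Agent.W192.HK
open Pool.Agent.Y683.AA

variable {R : Subring ℂ} {ω : ℂ}

lemma order_shift (F : ℂ → ℂ) (b z : ℂ) :
    analyticOrderAt (fun s => F (s - b)) z = analyticOrderAt F (z - b) := by
  have h : AnalyticAt ℂ (fun s : ℂ => s - b) z := by fun_prop
  have h' : deriv (fun s : ℂ => s - b) z ≠ 0 := by simp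
  exact analyticOrderAt_comp_of_deriv_ne_zero h h'

lemma bnd_mono {ε : ℝ} (hε : 0 < ε) {m : ℕ} {w n : ℝ} (hn : 0 ≤ n) (hmw : (m : ℝ) ≤ w) :
    bnd ε m n ≤ (w * n) ^ ε * (n ^ (2 / 3 : ℝ) + (w * n) ^ (1 / 2 : ℝ)) := by
  unfold bnd
  have h0 : (0 : ℝ) ≤ m := Nat.cast_nonneg m
  have h1 : (m : ℝ) * n ≤ w * n := mul_le_mul_of_nonneg_right hmw hn
  have h2 : 0 ≤ (m : ℝ) * n := mul_nonneg h0 hn
  have h3 := Real.rpow_le_rpow h2 h1 hε.le
  have h4 := Real.rpow_le_rpow h2 h1 (show (0 : ℝ) ≤ 1 / 2 by norm_num)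
  have h5 : 0 ≤ n ^ (2 / 3 : ℝ) := Real.rpow_nonneg hn _
  have h6 : 0 ≤ ((m : ℝ) * n) ^ (1 / 2 : ℝ) := Real.rpow_nonneg h2 _
  have h7 : 0 ≤ ((m : ℝ) * n) ^ ε := Real.rpow_nonneg h2 _
  exact mul_le_mul h3 (by linarith) (by linarith) (h7.trans h3)

/-- the twists by the characters modulo `q` of one character of type `(a, b)`, `b < a` -/
lemma fam_gt (hb : H_BASIC) (hcls : H_CLS) (hfp : H_FP) (hR : QR R ω) {C0 : ℝ}
    (hC : IdCount R C0) {L0 : ℕ → (Ideal R → ℂ) → ℂ → ℂ}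
    (hL0 : ∀ (m : ℕ) (q : Ideal R) (θ : Ideal R → ℂ), 1 ≤ m → HC (2 * m - 1) q θ →
        LF m θ (L0 m θ)) {q f0 : Ideal R} (hq : q ≠ ⊥) (hf0 : f0 ≠ ⊥) {C ε : ℝ} (hC1 : 0 ≤ C)
    (hε : 0 < ε)
    (hgood : ∀ m : ℕ, 1 ≤ m → ((∑ᶠ θ ∈ Dv m (q * f0),
      analyticOrderNatAt (L0 m θ) (m : ℂ) : ℕ) : ℝ) ≤ C * bnd ε m (nm (q * f0)))
    (σ : ℂ →+* ℂ) {m n b : ℕ} {f : Ideal R} {ψ : Ideal R → ℂ} (hψ : HT (n + b) b f ψ)
    (hf : f0 ≤ f) (hab : n + b + b = 2 * m - 1) (hm : 1 ≤ m) :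
    ∃ (θ : (Ideal R → ℂ) → Ideal R → ℂ) (L : (Ideal R → ℂ) → ℂ → ℂ),
      (∀ χ ∈ Dv 0 q, (∃ g, HT (n + b) b g (θ χ)) ∧
        (∀ I : Ideal R, ψ I * χ I ≠ 0 → θ χ I = ψ I * σ (χ I)) ∧ LF m (θ χ) (L χ)) ∧
      ((∑ᶠ χ ∈ Dv 0 q, analyticOrderNatAt (L χ) (m : ℂ) : ℕ) : ℝ) ≤
        C * (((n : ℝ) * nm (q * f0)) ^ ε *
          ((nm (q * f0)) ^ (2 / 3 : ℝ) + ((n : ℝ) * nm (q * f0)) ^ (1 / 2 : ℝ))) := by
  classical
  have := hR.ded
  obtain ⟨e, rfl⟩ : ∃ e, n = 2 * e + 1 := ⟨(n - 1) / 2, by omega⟩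
  have hn : 2 * (e + 1) - 1 = 2 * e + 1 := by omega
  have hme : m = e + 1 + b := by omega
  have hψ' := down hb hR hψ
  set ψ' : Ideal R → ℂ := fun I => ψ I / (nm I : ℂ) ^ b with hψ'def
  have hex : ∀ χ : Ideal R → ℂ, ∃ t : Ideal R → ℂ, ∀ c : Ideal R, HC 0 c χ → q ≤ c →
      ∃ g : Ideal R, f * c ≤ g ∧ HC (2 * e + 1) g t ∧ Agr σ t ψ' χ := by
    intro χ
    by_cases h : ∃ c : Ideal R, HC 0 c χ ∧ q ≤ c
    · obtain ⟨c0, hχ0, hc0⟩ := h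
      obtain ⟨g0, t0, -, h2, h3⟩ := exists_twd hb hcls hR σ hψ' hχ0
      refine ⟨t0, fun c hχ hc => ?_⟩
      obtain ⟨g, t, h4, h5, h6⟩ := exists_twd hb hcls hR σ hψ' hχ
      have h7 : t = t0 := tw_unique hb hfp hR hψ' hχ h5 h2 h6 h3
      rw [← h7]
      exact ⟨g, h4, h5, h6⟩
    · exact ⟨0, fun c h1 h2 => absurd ⟨c, h1, h2⟩ h⟩
  choose t ht using hex
  have hqf : q * f0 ≠ ⊥ := mul_ne_zero hq hf0
  have hsum : ∑ᶠ χ ∈ Dv 0 q, analyticOrderNatAt (L0 (e + 1) (t χ)) ((e + 1 : ℕ) : ℂ) ≤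
      ∑ᶠ θ ∈ Dv (e + 1) (q * f0), analyticOrderNatAt (L0 (e + 1) θ) ((e + 1 : ℕ) : ℂ) := by
    refine sum_inj (o := fun θ => analyticOrderNatAt (L0 (e + 1) θ) ((e + 1 : ℕ) : ℂ))
      ((hk_finite hb hcls hfp hR hC 0 _).subset (dv_subset hb hR 0 hq le_rfl))
      ((hk_finite hb hcls hfp hR hC (e + 1) _).subset (dv_subset hb hR (e + 1) hqf le_rfl)) t ?_ ?_
    · rintro χ ⟨c, hχ, hc⟩
      obtain ⟨g, h1, h2, -⟩ := ht χ c hχ hc
      refine ⟨g, by rw [hn]; exact h2, le_trans ?_ h1⟩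
      rw [mul_comm q f0]
      exact Ideal.mul_mono hf hc
    · rintro χ ⟨c, hχ, hc⟩ χ' ⟨c', hχ', hc'⟩ he
      obtain ⟨g, -, -, h3⟩ := ht χ c hχ hc
      obtain ⟨g', -, -, h3'⟩ := ht χ' c' hχ' hc'
      rw [← he] at h3'
      exact tw_injective hb hfp hR hψ' hχ hχ' h3 h3'
  refine ⟨fun χ I => t χ I * (nm I : ℂ) ^ b, fun χ s => L0 (e + 1) (t χ) (s - b), ?_, ?_⟩
  · rintro χ ⟨c, hχ, hc⟩
    obtain ⟨g, h1, h2, hag⟩ := ht χ c hχ hc
    have hF := hL0 (e + 1) g (t χ) (by omega) (by rw [hn]; exact h2)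
    refine ⟨⟨g, up hb hR h2⟩, fun I hI => ?_, ?_, fun s hs => ?_, ?_⟩
    · have hI0 : I ≠ ⊥ := by
        rintro rfl
        exact hI (by rw [(hψ.zero ⊥).2 (Or.inl rfl), zero_mul])
      have hN := pow_ne_zero b (nm_ne hb hR hI0)
      have h1 := hag I (mul_ne_zero (div_ne_zero (left_ne_zero_of_mul hI) hN)
        (right_ne_zero_of_mul hI))
      change t χ I * (nm I : ℂ) ^ b = _
      rw [h1, hψ'def]
      field_simp
    · exact hF.diff.comp (differentiable_id.sub_const _)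
    · have hz' : ((e + 1 : ℕ) : ℝ) + 1 / 2 < (s - b).re := by
        rw [Complex.sub_re, Complex.natCast_re]
        rw [hme] at hs
        push_cast at hs ⊢
        linarith
      have h6 : (fun J : Ideal R => t χ J * (nm J : ℂ) ^ b * (nm J : ℂ) ^ (-s)) =
          fun J : Ideal R => t χ J * (nm J : ℂ) ^ (-(s - b)) := by
        funext J
        by_cases hI : J = ⊥
        · rw [hI, (h2.zero ⊥).2 (Or.inl rfl), zero_mul, zero_mul, zero_mul]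
        · have h7 := nm_ne hb hR hI
          have h8 : (nm J : ℂ) ^ (-(s - b)) = (nm J : ℂ) ^ (-s) * (nm J : ℂ) ^ b := by
            rw [show -(s - (b : ℂ)) = -s + b by ring, Complex.cpow_add _ _ h7,
              Complex.cpow_natCast]
          rw [h8]
          ring
      change HasSum (fun J : Ideal R => t χ J * (nm J : ℂ) ^ b * (nm J : ℂ) ^ (-s)) _
      rw [h6]
      exact hF.sum (s - b) hz'
    · rw [order_shift]
      have h7 : (m : ℂ) - b = ((e + 1 : ℕ) : ℂ) := by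
        rw [hme]
        push_cast
        ring
      rw [h7]
      exact hF.ord
  · have h7 : (m : ℂ) - b = ((e + 1 : ℕ) : ℂ) := by
      rw [hme]
      push_cast
      ring
    have h8 : ∀ χ : Ideal R → ℂ, analyticOrderNatAt (fun s => L0 (e + 1) (t χ) (s - b)) (m : ℂ) =
        analyticOrderNatAt (L0 (e + 1) (t χ)) ((e + 1 : ℕ) : ℂ) := by
      intro χ
      unfold analyticOrderNatAt
      rw [order_shift, h7]
    simp only [h8]
    have h9 : ((∑ᶠ χ ∈ Dv 0 q, analyticOrderNatAt (L0 (e + 1) (t χ)) ((e + 1 : ℕ) : ℂ) : ℕ) : ℝ) ≤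
        ((∑ᶠ θ ∈ Dv (e + 1) (q * f0),
          analyticOrderNatAt (L0 (e + 1) θ) ((e + 1 : ℕ) : ℂ) : ℕ) : ℝ) := by exact_mod_cast hsum
    refine h9.trans ((hgood (e + 1) (by omega)).trans (mul_le_mul_of_nonneg_left ?_ hC1))
    refine bnd_mono hε ?_ ?_
    · rw [nm_eq]
      exact Nat.cast_nonneg _
    · push_cast
      have : (0 : ℝ) ≤ e := Nat.cast_nonneg e
      linarith

/-- the same for all types `(a, b)` -/
lemma fam (hb : H_BASIC) (hcls : H_CLS) (hfp : H_FP) (hR : QR R ω) {C0 : ℝ}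
    (hC : IdCount R C0) {L0 : ℕ → (Ideal R → ℂ) → ℂ → ℂ}
    (hL0 : ∀ (m : ℕ) (q : Ideal R) (θ : Ideal R → ℂ), 1 ≤ m → HC (2 * m - 1) q θ →
        LF m θ (L0 m θ)) {q f0 : Ideal R} (hq : q ≠ ⊥) (hf0 : f0 ≠ ⊥) {C ε : ℝ} (hC1 : 0 ≤ C)
    (hε : 0 < ε)
    (hgood : ∀ m : ℕ, 1 ≤ m → ((∑ᶠ θ ∈ Dv m (q * f0),
      analyticOrderNatAt (L0 m θ) (m : ℂ) : ℕ) : ℝ) ≤ C * bnd ε m (nm (q * f0)))
    {m a b : ℕ} {f : Ideal R} {ψ : Ideal R → ℂ} (hψ : HT a b f ψ)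
    (hf : f0 ≤ f) (hab : a + b = 2 * m - 1) (hm : 1 ≤ m) :
    ∃ (θ : (Ideal R → ℂ) → Ideal R → ℂ) (L : (Ideal R → ℂ) → ℂ → ℂ),
      (∀ χ ∈ Dv 0 q, (∃ g, HT a b g (θ χ)) ∧
        (∀ I : Ideal R, ψ I * χ I ≠ 0 → θ χ I = ψ I * χ I) ∧ LF m (θ χ) (L χ)) ∧
      ((∑ᶠ χ ∈ Dv 0 q, analyticOrderNatAt (L χ) (m : ℂ) : ℕ) : ℝ) ≤
        C * ((|(a : ℝ) - b| * nm (q * f0)) ^ ε *
          ((nm (q * f0)) ^ (2 / 3 : ℝ) + (|(a : ℝ) - b| * nm (q * f0)) ^ (1 / 2 : ℝ))) := by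
  rcases lt_or_ge b a with h | h
  · obtain ⟨n, rfl⟩ := Nat.exists_eq_add_of_le' h.le
    have h4 : |((n + b : ℕ) : ℝ) - b| = n := by
      rw [Nat.cast_add, add_sub_cancel_right, Nat.abs_cast]
    rw [h4]
    exact fam_gt hb hcls hfp hR hC hL0 hq hf0 hC1 hε hgood (RingHom.id ℂ) hψ hf hab hm
  · obtain ⟨n, rfl⟩ := Nat.exists_eq_add_of_le' h
    have h4 : |(a : ℝ) - ((n + a : ℕ) : ℝ)| = n := by
      rw [Nat.cast_add, abs_sub_comm, add_sub_cancel_right, Nat.abs_cast]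
    rw [h4]
    obtain ⟨θ, L, h1, h2⟩ := fam_gt hb hcls hfp hR hC hL0 hq hf0 hC1 hε hgood (starRingEnd ℂ)
      hψ.conj hf (by rw [← hab]; ring) hm
    refine ⟨fun χ I => (starRingEnd ℂ) (θ χ I), fun χ => cj (L χ), fun χ hχ => ?_, ?_⟩
    · obtain ⟨⟨g, k1⟩, k2, k3⟩ := h1 χ hχ
      refine ⟨⟨g, k1.conj⟩, fun I hI => ?_, diff_cj k3.diff, fun s hs => ?_, ?_⟩
      · change (starRingEnd ℂ) (θ χ I) = _
        rw [k2 I (mul_ne_zero (by rw [Ne, map_eq_zero]; exact left_ne_zero_of_mul hI)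
          (right_ne_zero_of_mul hI)), map_mul, Complex.conj_conj, Complex.conj_conj]
      · have h6 := (k3.sum ((starRingEnd ℂ) s) (by rw [Complex.conj_re]; exact hs)).map
          (starRingEnd ℂ) Complex.continuous_conj
        have h7 : (fun J : Ideal R => (starRingEnd ℂ) (θ χ J) * (nm J : ℂ) ^ (-s)) =
            (starRingEnd ℂ) ∘ (fun J : Ideal R => θ χ J * (nm J : ℂ) ^ (-(starRingEnd ℂ) s)) := by
          funext J
          simp only [Function.comp]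
          rw [map_mul]
          rw [← map_neg, Complex.cpow_conj _ _ (by
            rw [Complex.arg_ofReal_of_nonneg (by rw [nm]; positivity)]
            exact Real.pi_pos.ne), Complex.conj_conj, Complex.conj_ofReal]
        rw [h7]
        exact h6
      · rw [order_cj (k3.diff.analyticAt _), Complex.conj_natCast]
        exact k3.ord
    · have hfin : (Dv 0 q).Finite :=
        (hk_finite hb hcls hfp hR hC 0 _).subset (dv_subset hb hR 0 hq le_rfl)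
      have h8 : ∑ᶠ χ ∈ Dv 0 q, analyticOrderNatAt (cj (L χ)) (m : ℂ) =
          ∑ᶠ χ ∈ Dv 0 q, analyticOrderNatAt (L χ) (m : ℂ) := by
        refine finsum_mem_congr rfl fun χ hχ => ?_
        unfold analyticOrderNatAt
        rw [order_cj ((h1 χ hχ).2.2.diff.analyticAt _), Complex.conj_natCast]
      rw [h8]
      exact h2

end Pool.Agent.X309
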