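import Pool.Agent.X309.BB2
import Pool.Agent.X309.Alg

/-!
Characters whose conductor has a large component at a prime of degree one.
-/

set_option autoImplicit false

open Complex IsDedekindDomain Filter

namespace Pool.Agent.X309

open Pool.Agent.W192.HK
open Pool.Agent.Y683.AA
open Pool.Agent.Y690 (cop_iff cop_congr cop_mono sp_mul sp_pow hc_pow ne_zero_of_cop lift_cop sp_ne)

variable {R : Subring ℂ} {ω : ℂ}

/-- nonvanishing of the twists by a character of large order -/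
theorem crit (hb : H_BASIC) (hfp : H_FP) (hR : QR R ω) {K : ℝ}
    {o : ℕ → (Ideal R → ℂ) → ℕ} (ho : GHk R K o) {ε : ℝ} (hε : 0 < ε) :
    ∃ N0 : ℝ, ∀ (c : Ideal R) (χ : Ideal R → ℂ), HC 0 c χ → ∀ D : ℕ,
      (∀ F, IsFin 0 c χ F → ∀ e, 0 < e → F ^ e = 1 → D ≤ e) →
      ∀ (σ : ℂ →+* ℂ) (m : ℕ) (f q : Ideal R) (ψ θ : Ideal R → ℂ), 1 ≤ m →
        HC (2 * m - 1) f ψ → HC (2 * m - 1) q θ → Agr σ θ ψ χ → ∀ d : ℕ, d * nn f ≤ D →
        N0 ≤ d → (nm f * nm c) ^ (2 / 3 + ε) ≤ d →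
        (m : ℝ) * (nm f * nm c) ^ (1 + ε) ≤ (d : ℝ) ^ 2 → o m θ = 0 := by
  obtain ⟨N0, hN0⟩ := ho.nv ε hε
  refine ⟨N0, fun c χ hχ D hD σ m f q ψ θ hm hψ hθ hag d hdD hdN h1 h2 => ?_⟩
  have := hR.ded
  obtain ⟨b1, -⟩ := hb R ω hR
  have hfinq : Finite (R ⧸ q) := b1 q hθ.ne
  have hfinf : Finite (R ⧸ f) := b1 f hψ.ne
  have hG : Finite (R ⧸ f)ˣ := inferInstance
  have hqt : q ≠ ⊤ := odd_ne_top hm hθ
  have hft : f ≠ ⊤ := odd_ne_top hm hψ
  obtain ⟨F, hFin⟩ := exists_fin hfp hR hχ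
  have hgt : f * c ≠ ⊤ := fun h => hft (top_le_iff.1 (h ▸ Ideal.mul_le_left))
  have hgq : f * c ≤ q := by
    refine cond_dvd hfp hR hθ (fun α hα hαg => ?_) hgt
    have hαf : α - 1 ∈ f := Ideal.mul_le_left hαg
    have hαc : α - 1 ∈ c := Ideal.mul_le_right hαg
    have h1 := hψ.princ α hα hαf
    have h2 := hχ.princ α hα hαc
    rw [pow_zero] at h2
    have h3 : (α : ℂ) ≠ 0 := fun h => hα (by exact_mod_cast h)
    have h4 := hag (sp α) (by rw [h1, h2, mul_one]; exact pow_ne_zero _ h3)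
    rw [h4, h1, h2, map_one, mul_one]
  have hnq : (nm q : ℝ) ≤ nm f * nm c := by
    have h1 := nn_le_of_le hb hR (mul_ne_zero hψ.ne hχ.ne) hgq
    rw [nn_mul hb hR] at h1
    rw [nm_eq, nm_eq, nm_eq]
    exact_mod_cast h1
  have hnq0 : (0 : ℝ) ≤ nm q := Nat.cast_nonneg _
  set e0 : ℕ := Nat.card (R ⧸ f)ˣ with he0
  have he0' : 0 < e0 := Nat.card_pos
  have he0X : e0 ≤ nn f := Nat.card_le_card_of_injective (fun u : (R ⧸ f)ˣ => (u : R ⧸ f))
      Units.val_injective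
  have hnf : 0 < nn f := nn_pos hb hR hψ.ne
  have hd : ∀ e : ℕ, (∀ α : R, IsCoprime (sp α) q → fp (2 * m - 1) θ α ^ e = 1) → 0 < e →
      d ≤ e := by
    intro e he hepos
    have h1 := ord_transfer hb hfp hR σ hθ hψ hχ hag he hFin
    have h2 := hD F hFin _ (Nat.mul_pos hepos he0') h1
    have h3 : d * nn f ≤ e * nn f := hdD.trans (h2.trans (Nat.mul_le_mul_left _ he0X))
    exact Nat.le_of_mul_le_mul_right h3 hnf
  have hqd : (d : ℝ) ≤ nm q := by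
    obtain ⟨Fθ, hFθ⟩ := exists_fin hfp hR hθ
    have h1 := ord_le_nn hfinq Fθ
    have hGq : Finite (R ⧸ q)ˣ := inferInstance
    have hpos : 0 < orderOf Fθ := by
      refine orderOf_pos_iff.2 (isOfFinOrder_iff_pow_eq_one.2 ⟨Nat.card (R ⧸ q)ˣ, Nat.card_pos, ?_⟩)
      ext u
      rw [MonoidHom.pow_apply, ← map_pow, pow_card_eq_one', map_one]
      rfl
    have h2 := hd (orderOf Fθ) (fun α hα => by
      obtain ⟨u, hu⟩ := isUnit_iff_cop.2 hα
      have h3 := hFθ u α hu.symm (ne_zero_of_cop hqt hα)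
      unfold fp
      rw [← h3, ← Units.val_pow_eq_pow_val, ← MonoidHom.pow_apply, pow_orderOf_eq_one]
      rfl) hpos
    rw [nm_eq]
    exact_mod_cast h2.trans h1
  refine hN0 m q θ hm hθ (by linarith) d (fun e he h => hd e h he) ?_ ?_
  · exact (Real.rpow_le_rpow hnq0 hnq (by positivity)).trans h1
  · refine le_trans ?_ h2
    have h3 : (0 : ℝ) ≤ m := Nat.cast_nonneg m
    exact mul_le_mul_of_nonneg_left (Real.rpow_le_rpow hnq0 hnq (by positivity)) h3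

/-- `P` is a prime ideal of degree one, unramified over the odd prime number `p` -/
structure Sp (P : Ideal R) (p : ℕ) : Prop where
  prime : p.Prime
  odd : p ≠ 2
  ideal : P.IsPrime
  norm : nm P = p
  unr : (p : R) ∉ P ^ 2

lemma Sp.ne {P : Ideal R} {p : ℕ} (hb : H_BASIC) (hR : QR R ω) (h : Sp P p) : P ≠ ⊥ := by
  intro h0
  obtain ⟨b1, b2, -⟩ := hb R ω hR
  have h1 := h.norm
  rw [h0, b2] at h1
  have := h.prime.pos
  have h2 : (0 : ℝ) < p := by exact_mod_cast this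
  linarith

lemma Sp.mem {P : Ideal R} {p : ℕ} (h : Sp P p) : (p : R) ∈ P := by
  have h1 : Nat.card (R ⧸ P) = p := by
    have := h.norm
    unfold nm at this
    exact_mod_cast this
  have h2 : Nat.card (R ⧸ P) • (1 : R ⧸ P) = 0 := card_nsmul_eq_zero'
  rw [h1, nsmul_eq_mul, mul_one] at h2
  rw [← Ideal.Quotient.eq_zero_iff_mem]
  simpa using h2

lemma nn_pow (hb : H_BASIC) (hR : QR R ω) (I : Ideal R) (k : ℕ) : nn (I ^ k) = nn I ^ k := by
  induction k with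
  | zero =>
    obtain ⟨b1, b2, b3, b4, b5, b6, b7, -⟩ := hb R ω hR
    rw [pow_zero, pow_zero, Ideal.one_eq_top]
    have h1 := (b7 ⊤).2 rfl
    rw [nm_eq] at h1
    exact_mod_cast h1
  | succ k ih => rw [pow_succ, pow_succ, nn_mul hb hR, ih]

lemma Sp.card {P : Ideal R} {p : ℕ} (hb : H_BASIC) (hR : QR R ω) (h : Sp P p) (k : ℕ) :
    Nat.card (R ⧸ P ^ k) = p ^ k := by
  have h1 : nn P = p := by
    have := h.norm
    rw [nm_eq] at this
    exact_mod_cast this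
  have h2 := nn_pow hb hR P k
  rw [h1] at h2
  exact h2

/-- the order of a character whose conductor is `P ^ a C` -/
lemma ord_prim (hb : H_BASIC) (hR : QR R ω) {P C : Ideal R} {p a : ℕ} (hP : Sp P p)
    (hcop : IsCoprime P C) {χ : Ideal R → ℂ} (hχ : HC 0 (P ^ a * C) χ)
    {F : (R ⧸ P ^ a * C)ˣ →* ℂˣ} (hF : IsFin 0 (P ^ a * C) χ F) {e : ℕ} (he0 : 0 < e)
    (he : F ^ e = 1) : p ^ (a - 1) ≤ e := by
  have := hR.ded
  have hP0 := hP.ne hb hR
  rcases Nat.lt_or_ge a 2 with ha | ha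
  · have h1 : a - 1 = 0 := by omega
    rw [h1, pow_zero]
    exact he0
  obtain ⟨k, rfl⟩ : ∃ k, a = k + 2 := ⟨a - 2, by omega⟩
  have hne := hχ.ne
  have hC0 : C ≠ ⊥ := fun h => hne (by rw [h, Ideal.mul_bot])
  have hlt : P ^ (k + 2) * C < P ^ (k + 1) * C := by
    refine lt_of_le_of_ne (Ideal.mul_mono_left (Ideal.pow_le_pow_right (by omega))) fun h => ?_
    have h1 : P ^ (k + 2) = P ^ (k + 1) := mul_right_cancel₀ (show C ≠ 0 from hC0) h
    have h2 : P ^ (k + 1) * P = P ^ (k + 1) * 1 := by rw [mul_one, ← pow_succ, h1]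
    have h3 := mul_left_cancel₀ (pow_ne_zero (k + 1) hP0) h2
    exact hP.ideal.ne_top (by rw [h3, Ideal.one_eq_top])
  obtain ⟨α, h1, h2, h3, h4⟩ := hχ.prim _ hlt
  obtain ⟨u, hu⟩ := isUnit_iff_cop.2 h3
  have h5 := hF u α hu.symm h1
  have h6 : F u ≠ 1 := by
    intro h7
    rw [h7, Units.val_one, pow_zero, div_one] at h5
    apply h4
    rw [← h5, pow_zero]
  exact Nat.le_of_dvd he0 (order_dvd hP.prime hP.odd hP.ideal hP0 hP.mem hP.unr
    (hP.card hb hR (k + 2)) hcop F hu.symm h2 h6 he)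

/-- large `Q` -/
lemma big_q {κ N0 : ℝ} (hκ : 0 < κ) (hκ1 : κ ≤ 1 / 2) : ∃ Q0 : ℝ, 1 ≤ Q0 ∧ ∀ Q : ℝ, Q0 ≤ Q →
    2 ≤ Q ^ (7 * κ / 36) ∧ 4 ≤ Q ^ (κ / 3) ∧ 2 ≤ Q ^ (1 - κ / 6) ∧
      2 * N0 ≤ Q ^ (1 - κ / 6) := by
  have h1 := (tendsto_rpow_atTop (y := 7 * κ / 36) (by positivity)).eventually_ge_atTop 2
  have h2 := (tendsto_rpow_atTop (y := κ / 3) (by positivity)).eventually_ge_atTop 4
  have h3 := (tendsto_rpow_atTop (y := 1 - κ / 6) (by linarith)).eventually_ge_atTop 2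
  have h4 := (tendsto_rpow_atTop (y := 1 - κ / 6) (by linarith)).eventually_ge_atTop (2 * N0)
  obtain ⟨X1, hX1⟩ := Filter.eventually_atTop.1 (h1.and (h2.and (h3.and h4)))
  exact ⟨max X1 1, le_max_right _ _, fun x hx => hX1 x ((le_max_left _ _).trans hx)⟩

/-- all characters with conductor `P ^ a C`, `N(C) ≤ Q ^ (1 / 2 - κ)`, `Q = p ^ a` -/
theorem tower_ok (hb : H_BASIC) (hfp : H_FP) (hR : QR R ω) {K : ℝ}
    {o : ℕ → (Ideal R → ℂ) → ℕ} (ho : GHk R K o) {κ : ℝ} (hκ : 0 < κ) (hκ1 : κ ≤ 1 / 2) :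
    ∃ Q0 : ℝ, 1 ≤ Q0 ∧ ∀ (P C : Ideal R) (p a : ℕ), Sp P p → IsCoprime P C →
      Q0 ≤ (p : ℝ) ^ a → 12 / κ ≤ a → nm C ≤ ((p : ℝ) ^ a) ^ (1 / 2 - κ) →
      ∀ χ : Ideal R → ℂ, HC 0 (P ^ a * C) χ →
        Ok R o (((p : ℝ) ^ a) ^ (1 / 2 : ℝ)) (((p : ℝ) ^ a) ^ (κ / 12)) χ := by
  obtain ⟨N0, hN0⟩ := crit hb hfp hR ho (ε := κ / 6) (by positivity)
  obtain ⟨Q0, hQ0, hQ⟩ := big_q (N0 := N0) hκ hκ1
  refine ⟨Q0, hQ0, fun P C p a hP hcop hQa ha hC χ hχ => ?_⟩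
  intro σ m f q ψ θ hm hmA hψ hfB hθ hag
  set Q : ℝ := (p : ℝ) ^ a with hQdef
  obtain ⟨g1, g2, g3, g4⟩ := hQ Q hQa
  have hQ1 : 1 ≤ Q := hQ0.trans hQa
  have hQpos : 0 < Q := by linarith
  have hp1 : (1 : ℝ) ≤ p := by exact_mod_cast hP.prime.one_lt.le
  have hp0 : (0 : ℝ) < p := by linarith
  have ha0 : (0 : ℝ) < a := lt_of_lt_of_le (by positivity) ha
  have ha1 : 1 ≤ a := by exact_mod_cast Nat.pos_of_ne_zero (by rintro rfl; simp at ha0)
  -- p ≤ Q ^ (κ / 12)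
  have hpQ : (p : ℝ) ≤ Q ^ (κ / 12) := by
    have h1 : 1 ≤ a * (κ / 12) := by
      rw [div_le_iff₀ hκ] at ha
      linarith
    calc (p : ℝ) = (p : ℝ) ^ (1 : ℝ) := (Real.rpow_one _).symm
      _ ≤ (p : ℝ) ^ ((a : ℝ) * (κ / 12)) := Real.rpow_le_rpow_of_exponent_le hp1 h1
      _ = Q ^ (κ / 12) := by
          rw [hQdef, Real.rpow_mul hp0.le, Real.rpow_natCast]
  have hnf1 : 1 ≤ nn f := nn_pos hb hR hψ.ne
  have hnf1' : (1 : ℝ) ≤ nn f := by exact_mod_cast hnf1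
  have hfB' : (nn f : ℝ) ≤ Q ^ (κ / 12) := hfB
  set D : ℕ := p ^ (a - 1) with hD
  have hDQ : Q ^ (1 - κ / 12) ≤ D := by
    have h1 : (D : ℝ) * p = Q := by
      rw [hD, hQdef]
      push_cast
      rw [← pow_succ]
      congr 1
      omega
    have h2 : Q ^ (1 - κ / 12) * Q ^ (κ / 12) = Q := by
      rw [← Real.rpow_add hQpos, sub_add_cancel, Real.rpow_one]
    have h3 : Q ^ (1 - κ / 12) * p ≤ D * p := by
      rw [h1]
      calc Q ^ (1 - κ / 12) * p ≤ Q ^ (1 - κ / 12) * Q ^ (κ / 12) :=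
            mul_le_mul_of_nonneg_left hpQ (by positivity)
        _ = Q := h2
    exact le_of_mul_le_mul_right h3 hp0
  set d : ℕ := D / nn f with hd
  have hdX : Q ^ (1 - κ / 6) ≤ 2 * (d : ℝ) := by
    have h0 : D < (d + 1) * nn f := by
      have h1 := Nat.div_add_mod D (nn f)
      have h2 := Nat.mod_lt D hnf1
      nlinarith
    have h1 : (D : ℝ) < ((d : ℝ) + 1) * nn f := by exact_mod_cast h0
    have h2 : Q ^ (1 - κ / 6) * Q ^ (κ / 12) = Q ^ (1 - κ / 12) := by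
      rw [← Real.rpow_add hQpos]
      congr 1
      ring
    have h3 : ((d : ℝ) + 1) * nn f ≤ ((d : ℝ) + 1) * Q ^ (κ / 12) :=
      mul_le_mul_of_nonneg_left hfB' (by positivity)
    have h4 : Q ^ (1 - κ / 6) * Q ^ (κ / 12) < ((d : ℝ) + 1) * Q ^ (κ / 12) := by
      rw [h2]
      linarith
    have h5 := lt_of_mul_lt_mul_right h4 (by positivity)
    linarith
  have hnc : nm f * nm (P ^ a * C) ≤ Q ^ (3 / 2 - 11 * κ / 12) := by
    have h1 : nm (P ^ a * C) = Q * nm C := by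
      obtain ⟨b1, b2, b3, b4, -⟩ := hb R ω hR
      rw [b4]
      congr 1
      have := hP.card hb hR a
      unfold nm
      rw [this, hQdef]
      push_cast
      rfl
    rw [h1]
    have h2 : (0 : ℝ) ≤ nm C := Nat.cast_nonneg _
    calc nm f * (Q * nm C) ≤ Q ^ (κ / 12) * (Q * Q ^ (1 / 2 - κ)) := by
          refine mul_le_mul hfB (mul_le_mul_of_nonneg_left hC hQpos.le) (by positivity)
            (by positivity)
      _ = Q ^ (κ / 12) * (Q ^ (1 : ℝ) * Q ^ (1 / 2 - κ)) := by rw [Real.rpow_one]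
      _ = Q ^ (3 / 2 - 11 * κ / 12) := by
          rw [← Real.rpow_add hQpos, ← Real.rpow_add hQpos]
          congr 1
          ring
  have hnc0 : 0 ≤ nm f * nm (P ^ a * C) := by
    have h2 : (0 : ℝ) ≤ nm f := Nat.cast_nonneg _
    have h3 : (0 : ℝ) ≤ nm (P ^ a * C) := Nat.cast_nonneg _
    positivity
  refine hN0 (P ^ a * C) χ hχ D (fun F hF e he0 he => ord_prim hb hR hP hcop hχ hF he0 he)
    σ m f q ψ θ hm hψ hθ hag d (Nat.div_mul_le_self D (nn f)) ?_ ?_ ?_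
  · linarith
  · calc (nm f * nm (P ^ a * C)) ^ (2 / 3 + κ / 6) ≤
          (Q ^ (3 / 2 - 11 * κ / 12)) ^ (2 / 3 + κ / 6) :=
          Real.rpow_le_rpow hnc0 hnc (by positivity)
      _ = Q ^ ((3 / 2 - 11 * κ / 12) * (2 / 3 + κ / 6)) := (Real.rpow_mul hQpos.le _ _).symm
      _ ≤ Q ^ (1 - 13 * κ / 36) := Real.rpow_le_rpow_of_exponent_le hQ1 (by nlinarith)
      _ ≤ d := by
          have h1 : Q ^ (1 - 13 * κ / 36) * 2 ≤ Q ^ (1 - κ / 6) := by
            calc Q ^ (1 - 13 * κ / 36) * 2 ≤ Q ^ (1 - 13 * κ / 36) * Q ^ (7 * κ / 36) :=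
                  mul_le_mul_of_nonneg_left g1 (by positivity)
              _ = Q ^ (1 - κ / 6) := by
                  rw [← Real.rpow_add hQpos]
                  congr 1
                  ring
          linarith
  · have hm0 : (0 : ℝ) ≤ m := Nat.cast_nonneg m
    have h1 : (m : ℝ) * (nm f * nm (P ^ a * C)) ^ (1 + κ / 6) ≤ Q ^ (2 - 2 * κ / 3) := by
      calc (m : ℝ) * (nm f * nm (P ^ a * C)) ^ (1 + κ / 6) ≤
            Q ^ (1 / 2 : ℝ) * (Q ^ (3 / 2 - 11 * κ / 12)) ^ (1 + κ / 6) :=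
            mul_le_mul hmA (Real.rpow_le_rpow hnc0 hnc (by positivity)) (by positivity)
              (by positivity)
        _ = Q ^ (1 / 2 + (3 / 2 - 11 * κ / 12) * (1 + κ / 6)) := by
            rw [← Real.rpow_mul hQpos.le, ← Real.rpow_add hQpos]
        _ ≤ Q ^ (2 - 2 * κ / 3) := Real.rpow_le_rpow_of_exponent_le hQ1 (by nlinarith)
    have h2 : Q ^ (2 - 2 * κ / 3) * 4 ≤ (Q ^ (1 - κ / 6)) ^ 2 := by
      calc Q ^ (2 - 2 * κ / 3) * 4 ≤ Q ^ (2 - 2 * κ / 3) * Q ^ (κ / 3) :=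
            mul_le_mul_of_nonneg_left g2 (by positivity)
        _ = (Q ^ (1 - κ / 6)) ^ 2 := by
            rw [← Real.rpow_add hQpos, ← Real.rpow_natCast, ← Real.rpow_mul hQpos.le]
            congr 1
            push_cast
            ring
    have h3 : (Q ^ (1 - κ / 6)) ^ 2 ≤ (2 * (d : ℝ)) ^ 2 :=
      pow_le_pow_left₀ (by positivity) hdX 2
    nlinarith

end Pool.Agent.X309
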