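import Pool.Agent.X309.BB3

/-!
The twists of a Hecke character of type `(a, b)` by all characters; towers of ray class fields.
-/

set_option autoImplicit false

open Complex IsDedekindDomain Filter

namespace Pool.Agent.X309

open Pool.Agent.W192.HK
open Pool.Agent.Y683.AA

variable {R : Subring ℂ} {ω : ℂ}

/-- the twists of one character of type `(a, b)`, `b < a` -/
lemma twL_gt (hb : H_BASIC) (hcls : H_CLS) (hR : QR R ω)
    {L0 : ℕ → (Ideal R → ℂ) → ℂ → ℂ}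
    (hL0 : ∀ (m : ℕ) (q : Ideal R) (θ : Ideal R → ℂ), 1 ≤ m → HC (2 * m - 1) q θ →
        LF m θ (L0 m θ)) (σ : ℂ →+* ℂ) {m n b : ℕ} {f : Ideal R} {ψ : Ideal R → ℂ}
    (hψ : HT (n + b) b f ψ) (hab : n + b + b = 2 * m - 1) (hm : 1 ≤ m) (χ : Ideal R → ℂ)
    (hχ : ∃ c, HC 0 c χ) :
    ∃ (θ : Ideal R → ℂ) (L : ℂ → ℂ), (∃ g, HT (n + b) b g θ) ∧
      (∀ I : Ideal R, ψ I * χ I ≠ 0 → θ I = ψ I * σ (χ I)) ∧ LF m θ L ∧
      ∀ A B : ℝ, (n : ℝ) ≤ A → nm f ≤ B →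
        Ok R (fun m θ => analyticOrderNatAt (L0 m θ) (m : ℂ)) A B χ →
          analyticOrderNatAt L (m : ℂ) = 0 := by
  obtain ⟨e, rfl⟩ : ∃ e, n = 2 * e + 1 := ⟨(n - 1) / 2, by omega⟩
  have hn : 2 * (e + 1) - 1 = 2 * e + 1 := by omega
  have hme : m = e + 1 + b := by omega
  have hψ' := down hb hR hψ
  obtain ⟨c, hχ⟩ := hχ
  obtain ⟨q, θ', hθ', hag⟩ := exists_twist hb hcls hR σ hψ' hχ
  rw [← hn] at hψ' hθ'
  have hF := hL0 (e + 1) q θ' (by omega) hθ'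
  rw [hn] at hθ'
  have h7 : (m : ℂ) - b = ((e + 1 : ℕ) : ℂ) := by
    rw [hme]
    push_cast
    ring
  refine ⟨fun I => θ' I * (nm I : ℂ) ^ b, fun s => L0 (e + 1) θ' (s - b), ⟨q, up hb hR hθ'⟩,
    fun I hI => ?_, ⟨hF.diff.comp (differentiable_id.sub_const _), fun s hs => ?_, ?_⟩,
    fun A B hA hB hok => ?_⟩
  · have hI0 : I ≠ ⊥ := by
      rintro rfl
      exact hI (by rw [(hψ.zero ⊥).2 (Or.inl rfl), zero_mul])
    have hN := pow_ne_zero b (nm_ne hb hR hI0)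
    have h1 := hag I (mul_ne_zero (div_ne_zero (left_ne_zero_of_mul hI) hN)
      (right_ne_zero_of_mul hI))
    change θ' I * (nm I : ℂ) ^ b = _
    rw [h1]
    field_simp
  · have hz' : ((e + 1 : ℕ) : ℝ) + 1 / 2 < (s - b).re := by
      rw [Complex.sub_re, Complex.natCast_re]
      rw [hme] at hs
      push_cast at hs ⊢
      linarith
    have h6 : (fun J : Ideal R => θ' J * (nm J : ℂ) ^ b * (nm J : ℂ) ^ (-s)) =
        fun J : Ideal R => θ' J * (nm J : ℂ) ^ (-(s - b)) := by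
      funext J
      by_cases hI : J = ⊥
      · rw [hI, (hθ'.zero ⊥).2 (Or.inl rfl), zero_mul, zero_mul, zero_mul]
      · have h7 := nm_ne hb hR hI
        have h8 : (nm J : ℂ) ^ (-(s - b)) = (nm J : ℂ) ^ (-s) * (nm J : ℂ) ^ b := by
          rw [show -(s - (b : ℂ)) = -s + b by ring, Complex.cpow_add _ _ h7,
            Complex.cpow_natCast]
        rw [h8]
        ring
    change HasSum (fun J : Ideal R => θ' J * (nm J : ℂ) ^ b * (nm J : ℂ) ^ (-s)) _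
    rw [h6]
    exact hF.sum (s - b) hz'
  · rw [order_shift, h7]
    exact hF.ord
  · unfold analyticOrderNatAt
    rw [order_shift, h7]
    rw [← hn] at hθ'
    refine hok σ (e + 1) f q _ θ' (by omega) (le_trans ?_ hA) hψ' hB hθ' hag
    push_cast
    have : (0 : ℝ) ≤ e := Nat.cast_nonneg e
    linarith

lemma LF.conj {m : ℕ} {θ : Ideal R → ℂ} {L : ℂ → ℂ} (h : LF m θ L) :
    LF m (fun I => (starRingEnd ℂ) (θ I)) (cj L) := by
  refine ⟨diff_cj h.diff, fun s hs => ?_, ?_⟩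
  · have h6 := (h.sum ((starRingEnd ℂ) s) (by rw [Complex.conj_re]; exact hs)).map
      (starRingEnd ℂ) Complex.continuous_conj
    have h7 : (fun J : Ideal R => (starRingEnd ℂ) (θ J) * (nm J : ℂ) ^ (-s)) =
        (starRingEnd ℂ) ∘ (fun J : Ideal R => θ J * (nm J : ℂ) ^ (-(starRingEnd ℂ) s)) := by
      funext J
      simp only [Function.comp]
      rw [map_mul]
      rw [← map_neg, Complex.cpow_conj _ _ (by
        rw [Complex.arg_ofReal_of_nonneg (by rw [nm]; positivity)]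
        exact Real.pi_pos.ne), Complex.conj_conj, Complex.conj_ofReal]
    rw [h7]
    exact h6
  · rw [order_cj (h.diff.analyticAt _), Complex.conj_natCast]
    exact h.ord

/-- the twists of one character of type `(a, b)` -/
lemma twL (hb : H_BASIC) (hcls : H_CLS) (hR : QR R ω)
    {L0 : ℕ → (Ideal R → ℂ) → ℂ → ℂ}
    (hL0 : ∀ (m : ℕ) (q : Ideal R) (θ : Ideal R → ℂ), 1 ≤ m → HC (2 * m - 1) q θ →
        LF m θ (L0 m θ)) {m a b : ℕ} {f : Ideal R} {ψ : Ideal R → ℂ} (hψ : HT a b f ψ)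
    (hab : a + b = 2 * m - 1) (hm : 1 ≤ m) :
    ∃ (θ : (Ideal R → ℂ) → Ideal R → ℂ) (L : (Ideal R → ℂ) → ℂ → ℂ),
      ∀ (c : Ideal R) (χ : Ideal R → ℂ), HC 0 c χ → (∃ g, HT a b g (θ χ)) ∧
        (∀ I : Ideal R, ψ I * χ I ≠ 0 → θ χ I = ψ I * χ I) ∧ LF m (θ χ) (L χ) ∧
        ∀ A B : ℝ, |(a : ℝ) - b| ≤ A → nm f ≤ B →
          Ok R (fun m θ => analyticOrderNatAt (L0 m θ) (m : ℂ)) A B χ →
            analyticOrderNatAt (L χ) (m : ℂ) = 0 := by
  have key : ∀ χ : Ideal R → ℂ, ∃ (θ : Ideal R → ℂ) (L : ℂ → ℂ), ∀ c : Ideal R, HC 0 c χ →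
      (∃ g, HT a b g θ) ∧ (∀ I : Ideal R, ψ I * χ I ≠ 0 → θ I = ψ I * χ I) ∧ LF m θ L ∧
        ∀ A B : ℝ, |(a : ℝ) - b| ≤ A → nm f ≤ B →
          Ok R (fun m θ => analyticOrderNatAt (L0 m θ) (m : ℂ)) A B χ →
            analyticOrderNatAt L (m : ℂ) = 0 := by
    intro χ
    by_cases hex : ∃ c, HC 0 c χ
    · rcases lt_or_ge b a with h | h
      · obtain ⟨n, rfl⟩ := Nat.exists_eq_add_of_le' h.le
        obtain ⟨θ, L, h1, h2, h3, h4⟩ :=
          twL_gt hb hcls hR hL0 (RingHom.id ℂ) hψ hab hm χ hex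
        refine ⟨θ, L, fun c hc => ⟨h1, h2, h3, fun A B hA hB hok => h4 A B ?_ hB hok⟩⟩
        rw [Nat.cast_add, add_sub_cancel_right] at hA
        exact (le_abs_self _).trans hA
      · obtain ⟨n, rfl⟩ := Nat.exists_eq_add_of_le' h
        obtain ⟨θ, L, ⟨g, h1⟩, h2, h3, h4⟩ :=
          twL_gt hb hcls hR hL0 (starRingEnd ℂ) hψ.conj (by rw [← hab]; ring) hm χ hex
        refine ⟨fun I => (starRingEnd ℂ) (θ I), cj L, fun c hc => ⟨⟨g, h1.conj⟩, fun I hI => ?_,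
          LF.conj h3, fun A B hA hB hok => ?_⟩⟩
        · change (starRingEnd ℂ) (θ I) = _
          rw [h2 I (mul_ne_zero (by rw [Ne, map_eq_zero]; exact left_ne_zero_of_mul hI)
            (right_ne_zero_of_mul hI)), map_mul, Complex.conj_conj, Complex.conj_conj]
        · have h5 := h4 A B (by
            rw [Nat.cast_add] at hA
            have h6 : (n : ℝ) = -((a : ℝ) - (n + a)) := by ring
            rw [h6]
            exact (neg_le_abs _).trans hA) hB hok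
          unfold analyticOrderNatAt at h5 ⊢
          rwa [order_cj (h3.diff.analyticAt _), Complex.conj_natCast]
    · exact ⟨0, 0, fun c hc => absurd ⟨c, hc⟩ hex⟩
  choose θ L h using key
  exact ⟨θ, L, fun c χ hχ => h χ c hχ⟩

lemma cop_mono' {I J : Ideal R} {P : Ideal R} (h : IsCoprime P I) (hIJ : I ≤ J) :
    IsCoprime P J := by
  rw [Ideal.isCoprime_iff_exists] at h ⊢
  obtain ⟨i, hi, j, hj, e⟩ := h
  exact ⟨i, hi, j, hIJ hj, e⟩

/-- the divisors of `C P ^ k` -/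
lemma cond_fac (hb : H_BASIC) (hR : QR R ω) {P C c : Ideal R} {p k : ℕ} (hP : Sp P p)
    (h : C * P ^ k ≤ c) :
    ∃ (j : ℕ) (C' : Ideal R), j ≤ k ∧ C ≤ C' ∧ c = P ^ j * C' := by
  have := hR.ded
  have hP0 := hP.ne hb hR
  obtain ⟨C', c2, h1, h2, h3⟩ := exists_dvd_and_dvd_of_dvd_mul (Ideal.dvd_iff_le.2 h)
  have hpr : Prime P := Ideal.prime_of_isPrime hP0 hP.ideal
  obtain ⟨j, hj, h4⟩ := (dvd_prime_pow hpr k).1 h2
  refine ⟨j, C', hj, Ideal.dvd_iff_le.1 h1, ?_⟩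
  rw [h3, associated_iff_eq.1 h4, mul_comm]

/-- for large `k` all characters of conductor `P ^ k C'`, `C' ∣ C`, are good -/
lemma tower_large (hb : H_BASIC) (hfp : H_FP) (hR : QR R ω) {K : ℝ}
    {o : ℕ → (Ideal R → ℂ) → ℕ} (ho : GHk R K o) {P C : Ideal R} {p : ℕ} (hP : Sp P p)
    (hcop : IsCoprime P C) (hC : C ≠ ⊥) (A B : ℝ) :
    ∃ k0 : ℕ, ∀ (k : ℕ) (C' : Ideal R), k0 ≤ k → C ≤ C' → ∀ χ : Ideal R → ℂ,
      HC 0 (P ^ k * C') χ → Ok R o A B χ := by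
  have := hR.ded
  obtain ⟨Q0, hQ0, hQ⟩ := tower_ok hb hfp hR ho (κ := 1 / 4) (by norm_num) (by norm_num)
  have hp1 : (1 : ℝ) < p := by exact_mod_cast hP.prime.one_lt
  have ht : Tendsto (fun k : ℕ => (p : ℝ) ^ k) atTop atTop := tendsto_pow_atTop_atTop_of_one_lt hp1
  have e1 := ht.eventually_ge_atTop Q0
  have e2 := ((tendsto_rpow_atTop (y := 1 / 2 - 1 / 4) (by norm_num)).comp ht).eventually_ge_atTop
    (nm C)
  have e3 := ((tendsto_rpow_atTop (y := 1 / 2) (by norm_num)).comp ht).eventually_ge_atTop A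
  have e4 := ((tendsto_rpow_atTop (y := 1 / 4 / 12) (by norm_num)).comp ht).eventually_ge_atTop B
  have e5 := Filter.eventually_ge_atTop 48
  obtain ⟨k0, hk0⟩ := Filter.eventually_atTop.1 (e1.and (e2.and (e3.and (e4.and e5))))
  refine ⟨k0, fun k C' hk hC' χ hχ => ?_⟩
  obtain ⟨g1, g2, g3, g4, g5⟩ := hk0 k hk
  have h5 : (48 : ℝ) ≤ k := by exact_mod_cast g5
  have h6 : nm C' ≤ nm C := by
    rw [nm_eq, nm_eq]
    exact_mod_cast nn_le_of_le hb hR hC hC'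
  have h7 := hQ P C' p k hP (cop_mono' hcop hC') g1 (by norm_num; linarith) (h6.trans g2) χ hχ
  intro σ m f q ψ θ k1 k2 k3 k4 k5 k6
  exact h7 σ m f q ψ θ k1 (k2.trans g3) k3 (k4.trans g4) k5 k6

end Pool.Agent.X309
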