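import Pool.Agent.X309.DC

/-!
The sum of the ranks and the sum of the dimensions.
-/

set_option autoImplicit false

namespace Pool.Agent.X309.DC

open Finset
open Pool.Agent.TH940 (tot GH order_dvd)
open Pool.Agent.Y683.AA (Prim cr average moduli ncard_ge prim_eq pc md mem_pc card_small card_char
  exponent_char finsum_prim finite_char cr_nonneg)

lemma primes_ge (N : ℕ) (hN : 1 ≤ N) : ∃ X0 : ℕ, 1 < X0 ∧ ∀ X : ℕ, X0 ≤ X →
    (X : ℝ) / (8 * Real.log X) + 7 ≤
      (((Nat.primesLE X).filter (fun p => Nat.Coprime p N)).card : ℝ) := by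
  classical
  obtain ⟨X0, hX0⟩ : ∃ X0 : ℕ, X0 = 256 * (N + 7) ^ 2 := ⟨_, rfl⟩
  have hX1 : 1 < X0 := by
    rw [hX0]
    have h10 : 1 ≤ (N + 7) ^ 2 := Nat.one_le_pow _ _ (by omega)
    omega
  refine ⟨X0, hX1, fun X hge => ?_⟩
  have hX : 1 ≤ X := by omega
  have hXr : (1 : ℝ) ≤ X := by exact_mod_cast hX
  have hX0' : (0 : ℝ) < X := by linarith
  have hlog : 0 ≤ Real.log X := Real.log_natCast_nonneg X
  set T := (Nat.primesLE X).filter (fun p => Nat.Coprime p N) with hT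
  have hpi : ((Nat.primeCounting X : ℕ) : ℝ) * Real.log X ≥ X / 4 := by
    have h2 := Chebyshev.psi_le_primeCounting_mul_log X
    have h3 := Chebyshev.psi_ge X
    have h4 : Real.log ((X : ℝ) + 1) ≤ ((X : ℝ) + 1) / 4 + 2 * Real.log 2 - 1 := by
      have h5 := Real.log_le_sub_one_of_pos (x := ((X : ℝ) + 1) / 4) (by positivity)
      rw [Real.log_div (by positivity) (by norm_num)] at h5
      have h6 : Real.log 4 = 2 * Real.log 2 := by
        rw [show (4 : ℝ) = 2 ^ 2 by norm_num, Real.log_pow]; norm_num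
      linarith
    have h7 := Real.log_two_gt_d9
    have h8 := Real.log_two_lt_d9
    have h9 : (4 : ℝ) ≤ X := by
      have : 4 ≤ X := by
        refine le_trans ?_ hge
        rw [hX0]
        have h10 : 1 ≤ (N + 7) ^ 2 := Nat.one_le_pow _ _ (by omega)
        omega
      exact_mod_cast this
    nlinarith
  have hcard : (Nat.primeCounting X : ℝ) - N ≤ T.card := by
    have h2 : (Nat.primesLE X).card = Nat.primeCounting X := by
      exact Nat.primesLE_card_eq_primeCounting X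
    have h3 : (Nat.primesLE X).filter (fun p => ¬ Nat.Coprime p N) ⊆ Icc 1 N := by
      intro p hp
      rw [mem_filter, Nat.mem_primesLE] at hp
      have h4 : p ∣ N := by
        by_contra h
        exact hp.2 ((Nat.Prime.coprime_iff_not_dvd hp.1.2).2 h)
      rw [mem_Icc]
      exact ⟨hp.1.2.one_lt.le, Nat.le_of_dvd (by omega) h4⟩
    have h4 := card_le_card h3
    rw [Nat.card_Icc] at h4
    have h5 : T.card + ((Nat.primesLE X).filter (fun p => ¬ Nat.Coprime p N)).card =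
        (Nat.primesLE X).card :=
      card_filter_add_card_filter_not (s := Nat.primesLE X) (fun p => Nat.Coprime p N)
    have h6 : Nat.primeCounting X ≤ T.card + N := by
      rw [← h2]
      omega
    have h7 : (Nat.primeCounting X : ℝ) ≤ T.card + N := by exact_mod_cast h6
    linarith
  set k := T.card with hk
  have hsq : (16 * ((N : ℝ) + 7)) ^ 2 ≤ X := by
    have h8 : ((256 * (N + 7) ^ 2 : ℕ) : ℝ) ≤ X := by
      rw [← hX0]
      exact_mod_cast hge
    push_cast at h8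
    nlinarith
  have hN7 : (0 : ℝ) ≤ N := Nat.cast_nonneg _
  have hlog2 : Real.log X ≤ 2 * Real.sqrt X := by
    have h2 := Real.log_le_sub_one_of_pos (x := Real.sqrt X) (by positivity)
    have h3 : Real.log X = 2 * Real.log (Real.sqrt X) := by
      rw [Real.log_sqrt hX0'.le]; ring
    linarith
  have hsX : 16 * ((N : ℝ) + 7) ≤ Real.sqrt X := Real.le_sqrt_of_sq_le hsq
  have hlogpos : 0 < Real.log X := by
    refine Real.log_pos ?_
    nlinarith
  have h2 : (X : ℝ) / (4 * Real.log X) ≤ Nat.primeCounting X := by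
    rw [div_le_iff₀ (by positivity)]
    nlinarith
  have h3 : (N : ℝ) + 7 ≤ X / (8 * Real.log X) := by
    rw [le_div_iff₀ (by positivity)]
    have h4 : Real.sqrt X * Real.sqrt X = X := Real.mul_self_sqrt hX0'.le
    calc ((N : ℝ) + 7) * (8 * Real.log X) ≤ ((N : ℝ) + 7) * (8 * (2 * Real.sqrt X)) := by
          gcongr
      _ = 16 * ((N : ℝ) + 7) * Real.sqrt X := by ring
      _ ≤ Real.sqrt X * Real.sqrt X := by gcongr
      _ = X := h4
  have h5 : (X : ℝ) / (4 * Real.log X) = X / (8 * Real.log X) + X / (8 * Real.log X) := by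
    field_simp
    ring
  linarith

/-- the characters of order `p - 1` -/
lemma sum_phi_prime {p : ℕ} (hp : p.Prime) (hp2 : 2 < p) :
    (p - 1).totient ^ 2 ≤ ∑ χ ∈ pc p, (orderOf χ).totient := by
  classical
  have : NeZero p := ⟨hp.ne_zero⟩
  have : Fact p.Prime := ⟨hp⟩
  have hcyc : IsCyclic (DirichletCharacter ℂ p) := by
    obtain ⟨e⟩ := DirichletCharacter.mulEquiv_units ℂ p
    exact isCyclic_of_surjective e.symm.toMonoidHom e.symm.surjective
  have hcard : Fintype.card (DirichletCharacter ℂ p) = p - 1 := by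
    rw [card_char, Nat.totient_prime hp]
  have h1 : ((univ : Finset (DirichletCharacter ℂ p)).filter
      (fun χ => orderOf χ = p - 1)).card = (p - 1).totient := by
    refine IsCyclic.card_orderOf_eq_totient ?_
    rw [hcard]
  have h2 : (univ : Finset (DirichletCharacter ℂ p)).filter (fun χ => orderOf χ = p - 1) ⊆ pc p := by
    intro χ hχ
    rw [mem_filter] at hχ
    rw [mem_pc]
    have h2 := χ.conductor_dvd_level
    rcases (Nat.dvd_prime hp).1 h2 with h | h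
    · exfalso
      have h3 := DirichletCharacter.eq_one_iff_conductor_eq_one.2 h
      have h4 := hχ.2
      rw [h3, orderOf_one] at h4
      omega
    · exact h
  calc (p - 1).totient ^ 2 = ∑ χ ∈ (univ : Finset (DirichletCharacter ℂ p)).filter
        (fun χ => orderOf χ = p - 1), (p - 1).totient := by
        rw [sum_const, h1, smul_eq_mul, sq]
    _ = ∑ χ ∈ (univ : Finset (DirichletCharacter ℂ p)).filter
        (fun χ => orderOf χ = p - 1), (orderOf χ).totient :=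
        sum_congr rfl fun χ hχ => by rw [(mem_filter.1 hχ).2]
    _ ≤ _ := sum_le_sum_of_subset h2

/-- the sum of the dimensions, lower bound -/
theorem dim_ge (N : ℕ) (hN : 1 ≤ N) {ε : ℝ} (hε : 0 < ε) : ∃ c : ℝ, 0 < c ∧ ∀ X : ℕ, 1 ≤ X →
    c * (X : ℝ) ^ (3 - ε) ≤ ((∑ᶠ x ∈ Prim N X, (orderOf x.2).totient : ℕ) : ℝ) := by
  classical
  set δ : ℝ := min ε 1 / 5 with hδ
  have hm : 0 < min ε 1 := lt_min hε one_pos
  have hδ0 : 0 < δ := by positivity
  have hδ1 : δ ≤ 1 / 5 := by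
    have : min ε 1 ≤ 1 := min_le_right _ _
    rw [hδ]; linarith
  have hδε : 5 * δ ≤ ε := by
    have : min ε 1 ≤ ε := min_le_left _ _
    rw [hδ]; linarith
  obtain ⟨C, hC, -, hC2⟩ := Pool.Agent.W216.CY.t_div δ hδ0
  obtain ⟨X0, hX1, hX0⟩ := primes_ge N hN
  have hX0r : (1 : ℝ) < X0 := by exact_mod_cast hX1
  set c1 : ℝ := (C⁻¹) ^ 2 * (δ / 32) ^ (3 - 2 * δ) with hc1
  have hc1pos : 0 < c1 := by positivity
  set c2 : ℝ := 1 / (X0 : ℝ) ^ (3 : ℝ) with hc2
  have hc2pos : 0 < c2 := by positivity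
  refine ⟨min c1 c2, lt_min hc1pos hc2pos, fun X hX => ?_⟩
  have hXr : (1 : ℝ) ≤ X := by exact_mod_cast hX
  have hXp : (0 : ℝ) < X := by linarith
  have hsum : (∑ᶠ x ∈ Prim N X, (orderOf x.2).totient : ℕ) =
      ∑ q ∈ md N X, ∑ χ ∈ pc q, (orderOf χ).totient :=
    finsum_prim N X (fun q χ => (orderOf χ).totient)
  rw [hsum]
  rcases lt_or_ge X X0 with hlt | hge
  · have h1 : 1 ≤ ∑ q ∈ md N X, ∑ χ ∈ pc q, (orderOf χ).totient := by
      have h2 : 1 ∈ md N X := by
        rw [md, mem_filter, mem_Icc]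
        exact ⟨⟨le_rfl, hX⟩, Nat.coprime_one_left N⟩
      have h3 : (1 : DirichletCharacter ℂ 1) ∈ pc 1 :=
        mem_pc.2 DirichletCharacter.isPrimitive_one_level_one
      have h4 : 1 ≤ ∑ χ ∈ pc 1, (orderOf χ).totient := by
        refine le_trans ?_ (single_le_sum (f := fun χ : DirichletCharacter ℂ 1 =>
          (orderOf χ).totient) (fun _ _ => Nat.zero_le _) h3)
        simp
      exact h4.trans (single_le_sum (f := fun q => ∑ χ ∈ pc q, (orderOf χ).totient)
        (fun _ _ => Nat.zero_le _) h2)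
    have h4 : (1 : ℝ) ≤ ((∑ q ∈ md N X, ∑ χ ∈ pc q, (orderOf χ).totient : ℕ) : ℝ) := by
      exact_mod_cast h1
    refine le_trans ?_ h4
    have h5 : (X : ℝ) ≤ X0 := by exact_mod_cast hlt.le
    calc min c1 c2 * (X : ℝ) ^ (3 - ε) ≤ c2 * (X0 : ℝ) ^ (3 : ℝ) := by
          refine mul_le_mul (min_le_right _ _) ?_ (by positivity) hc2pos.le
          calc (X : ℝ) ^ (3 - ε) ≤ (X : ℝ) ^ (3 : ℝ) :=
                Real.rpow_le_rpow_of_exponent_le hXr (by linarith)
            _ ≤ _ := Real.rpow_le_rpow hXp.le h5 (by norm_num)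
      _ = 1 := by
          rw [hc2, one_div, inv_mul_cancel₀ (by positivity)]
  · have hk := hX0 X hge
    set T := (Nat.primesLE X).filter (fun p => Nat.Coprime p N) with hT
    have hTp : ∀ p ∈ T, p.Prime ∧ p ≤ X ∧ Nat.Coprime p N := by
      intro p hp
      rw [hT, mem_filter, Nat.mem_primesLE] at hp
      exact ⟨hp.1.2, hp.1.1, hp.2⟩
    set k := T.card with hkd
    have hX2 : (1 : ℝ) < X := lt_of_lt_of_le hX0r (by exact_mod_cast hge)
    have hlogpos : 0 < Real.log X := Real.log_pos hX2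
    have hk7 : (7 : ℝ) ≤ k := by
      have : 0 ≤ (X : ℝ) / (8 * Real.log X) := by positivity
      linarith
    have hk7' : 7 ≤ k := by exact_mod_cast hk7
    set T' := T.filter (fun p => k / 2 < p) with hT'
    have h1 : k - k / 2 ≤ T'.card := by
      have h2 : T.filter (fun p => ¬ k / 2 < p) ⊆ Icc 1 (k / 2) := by
        intro p hp
        rw [mem_filter] at hp
        rw [mem_Icc]
        exact ⟨(hTp p hp.1).1.one_lt.le, not_lt.1 hp.2⟩
      have h3 := card_le_card h2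
      rw [Nat.card_Icc] at h3
      have h4 : T'.card + (T.filter (fun p => ¬ k / 2 < p)).card = k :=
        card_filter_add_card_filter_not (s := T) (fun p => k / 2 < p)
      omega
    have h5 : T' ⊆ md N X := by
      intro p hp
      rw [hT', mem_filter] at hp
      obtain ⟨k1, k2, k3⟩ := hTp p hp.1
      rw [md, mem_filter, mem_Icc]
      exact ⟨⟨k1.one_lt.le, k2⟩, k3⟩
    have h6 : ((∑ p ∈ T', (p - 1).totient ^ 2 : ℕ) : ℝ) ≤
        ((∑ q ∈ md N X, ∑ χ ∈ pc q, (orderOf χ).totient : ℕ) : ℝ) := by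
      have : ∑ p ∈ T', (p - 1).totient ^ 2 ≤ ∑ q ∈ md N X, ∑ χ ∈ pc q, (orderOf χ).totient := by
        refine le_trans (sum_le_sum fun p hp => ?_) (sum_le_sum_of_subset h5)
        rw [hT', mem_filter] at hp
        have hp2 := hp.2
        exact sum_phi_prime (hTp p hp.1).1 (by omega)
      exact_mod_cast this
    have hk4 : (k : ℝ) / 4 ≤ ((k / 2 : ℕ) : ℝ) := by
      have : k ≤ 4 * (k / 2) := by omega
      have : (k : ℝ) ≤ 4 * ((k / 2 : ℕ) : ℝ) := by exact_mod_cast this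
      linarith
    have hkpos : (0 : ℝ) < (k : ℝ) / 4 := by linarith
    have h7 : ∀ p ∈ T', (C⁻¹) ^ 2 * ((k : ℝ) / 4) ^ (2 - 2 * δ) ≤ (((p - 1).totient : ℕ) : ℝ) ^ 2 := by
      intro p hp
      rw [hT', mem_filter] at hp
      have hp2 := hp.2
      have hp3 : k / 2 ≤ p - 1 := by omega
      have h8 : (k : ℝ) / 4 ≤ ((p - 1 : ℕ) : ℝ) := hk4.trans (by exact_mod_cast hp3)
      have h9 := hC2 (p - 1) (by omega)
      have h10 : ((k : ℝ) / 4) ^ (1 - δ) ≤ C * ((p - 1).totient : ℕ) :=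
        (Real.rpow_le_rpow hkpos.le h8 (by linarith)).trans h9
      have h11 : C⁻¹ * ((k : ℝ) / 4) ^ (1 - δ) ≤ ((p - 1).totient : ℕ) := by
        rw [inv_mul_le_iff₀ hC]
        exact h10
      have h12 : ((k : ℝ) / 4) ^ (2 - 2 * δ) = (((k : ℝ) / 4) ^ (1 - δ)) ^ 2 := by
        rw [← Real.rpow_natCast, ← Real.rpow_mul hkpos.le]
        congr 1
        push_cast
        ring
      rw [h12, ← mul_pow]
      exact pow_le_pow_left₀ (by positivity) h11 2
    have h8 : ((k : ℝ) / 4) * ((C⁻¹) ^ 2 * ((k : ℝ) / 4) ^ (2 - 2 * δ)) ≤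
        ((∑ p ∈ T', (p - 1).totient ^ 2 : ℕ) : ℝ) := by
      push_cast
      refine le_trans ?_ (sum_le_sum h7)
      rw [sum_const, nsmul_eq_mul]
      refine mul_le_mul_of_nonneg_right ?_ (by positivity)
      have : k ≤ 4 * T'.card := by omega
      have : (k : ℝ) ≤ 4 * (T'.card : ℝ) := by exact_mod_cast this
      linarith
    have h9 : ((k : ℝ) / 4) * ((C⁻¹) ^ 2 * ((k : ℝ) / 4) ^ (2 - 2 * δ)) =
        (C⁻¹) ^ 2 * ((k : ℝ) / 4) ^ (3 - 2 * δ) := by
      have : ((k : ℝ) / 4) ^ (3 - 2 * δ) = ((k : ℝ) / 4) ^ (2 - 2 * δ) * ((k : ℝ) / 4) := by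
        nth_rewrite 3 [← Real.rpow_one ((k : ℝ) / 4)]
        rw [← Real.rpow_add hkpos]
        congr 1
        ring
      rw [this]
      ring
    have h10 : (δ / 32) * (X : ℝ) ^ (1 - δ) ≤ (k : ℝ) / 4 := by
      have h11 : Real.log X ≤ (X : ℝ) ^ δ / δ := Real.log_le_rpow_div hXp.le hδ0
      have h12 : (δ / 8) * (X : ℝ) ^ (1 - δ) ≤ (X : ℝ) / (8 * Real.log X) := by
        rw [le_div_iff₀ (by positivity)]
        have h13 : (X : ℝ) ^ (1 - δ) * (X : ℝ) ^ δ = X := by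
          rw [← Real.rpow_add hXp]
          norm_num
        calc δ / 8 * (X : ℝ) ^ (1 - δ) * (8 * Real.log X) ≤
            δ / 8 * (X : ℝ) ^ (1 - δ) * (8 * ((X : ℝ) ^ δ / δ)) := by gcongr
          _ = (X : ℝ) ^ (1 - δ) * (X : ℝ) ^ δ := by field_simp
          _ = X := h13
      linarith
    have h11 : ((δ / 32) * (X : ℝ) ^ (1 - δ)) ^ (3 - 2 * δ) ≤ ((k : ℝ) / 4) ^ (3 - 2 * δ) :=
      Real.rpow_le_rpow (by positivity) h10 (by linarith)
    rw [Real.mul_rpow (by positivity) (by positivity), ← Real.rpow_mul hXp.le] at h11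
    have h12 : (X : ℝ) ^ (3 - ε) ≤ (X : ℝ) ^ ((1 - δ) * (3 - 2 * δ)) := by
      refine Real.rpow_le_rpow_of_exponent_le hXr ?_
      nlinarith
    calc min c1 c2 * (X : ℝ) ^ (3 - ε) ≤ c1 * (X : ℝ) ^ ((1 - δ) * (3 - 2 * δ)) := by
          refine mul_le_mul (min_le_left _ _) h12 (by positivity) hc1pos.le
      _ = (C⁻¹) ^ 2 * ((δ / 32) ^ (3 - 2 * δ) * (X : ℝ) ^ ((1 - δ) * (3 - 2 * δ))) := by
          rw [hc1]; ring
      _ ≤ (C⁻¹) ^ 2 * ((k : ℝ) / 4) ^ (3 - 2 * δ) :=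
          mul_le_mul_of_nonneg_left h11 (by positivity)
      _ = _ := h9.symm
      _ ≤ _ := h8
      _ ≤ _ := h6

/-- the sum of the ranks, upper bound -/
theorem rank_le {N : ℕ} {K : ℝ} {G : (q : ℕ) → DirichletCharacter ℂ q → ℕ} (hG : GH N K G)
    {ε : ℝ} (hε : 0 < ε) : ∃ C : ℝ, 0 < C ∧ ∀ X : ℕ, 1 ≤ X →
    ((∑ᶠ x ∈ Prim N X, ∑ j ∈ ex (orderOf x.2), G x.1 (x.2 ^ j) : ℕ) : ℝ) ≤
      C * (X : ℝ) ^ (11 / 4 + ε) := by
  classical
  have hK := hG.pos
  set δ : ℝ := ε / 2 with hδ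
  have hδ0 : 0 < δ := by positivity
  obtain ⟨q1, hq1⟩ := hG.nv δ hδ0
  set q0 : ℝ := max q1 2 with hq0
  have hq02 : (2 : ℝ) ≤ q0 := le_max_right _ _
  refine ⟨q0 * (K * (1 + 1 / δ)), by positivity, fun X hX => ?_⟩
  have hXr : (1 : ℝ) ≤ X := by exact_mod_cast hX
  have hXp : (0 : ℝ) < X := by linarith
  have hsum : (∑ᶠ x ∈ Prim N X, ∑ j ∈ ex (orderOf x.2), G x.1 (x.2 ^ j) : ℕ) =
      ∑ q ∈ md N X, ∑ χ ∈ pc q, ∑ j ∈ ex (orderOf χ), G q (χ ^ j) :=
    finsum_prim N X (fun q χ => ∑ j ∈ ex (orderOf χ), G q (χ ^ j))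
  rw [hsum]
  have hterm : ∀ q ∈ md N X, ∀ χ ∈ pc q, ((∑ j ∈ ex (orderOf χ), G q (χ ^ j) : ℕ) : ℝ) ≤
      q0 * (X : ℝ) ^ (3 / 4 + δ) * (K * (1 + 1 / δ) * (X : ℝ) ^ δ) := by
    intro q hq χ hχ
    rw [md, mem_filter, mem_Icc] at hq
    obtain ⟨⟨hq1', hqX⟩, hqN⟩ := hq
    rw [mem_pc] at hχ
    have : NeZero q := ⟨by omega⟩
    have hqXr : (q : ℝ) ≤ X := by exact_mod_cast hqX
    have hqp : (0 : ℝ) < q := by exact_mod_cast hq1'
    by_cases h0 : ∑ j ∈ ex (orderOf χ), G q (χ ^ j) = 0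
    · rw [h0]
      push_cast
      positivity
    · obtain ⟨j, hj, hne⟩ := exists_ne_zero_of_sum_ne_zero h0
      obtain ⟨-, hj2⟩ := mem_ex.1 hj
      have hord : (orderOf χ : ℝ) ≤ q0 * (X : ℝ) ^ (3 / 4 + δ) := by
        have hX34 : 1 ≤ (X : ℝ) ^ (3 / 4 + δ) := Real.one_le_rpow hXr (by positivity)
        by_cases hm : q0 ≤ q
        · by_contra hlt
          apply hne
          push Not at hlt
          refine hq1 q ((le_max_left _ _).trans hm) ?_ hqN _ (prim_pow hχ hj2) ?_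
          · have : (2 : ℝ) ≤ q := hq02.trans hm
            have h5 : 2 ≤ q := by exact_mod_cast this
            omega
          · rw [Nat.Coprime.orderOf_pow hj2]
            refine le_trans ?_ hlt.le
            calc (q : ℝ) ^ (3 / 4 + δ) ≤ (X : ℝ) ^ (3 / 4 + δ) :=
                  Real.rpow_le_rpow hqp.le hqXr (by positivity)
              _ = 1 * (X : ℝ) ^ (3 / 4 + δ) := (one_mul _).symm
              _ ≤ _ := by gcongr; linarith
        · push Not at hm
          have h5 : orderOf χ ≤ q :=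
            (Nat.le_of_dvd (Nat.totient_pos.2 hq1') (order_dvd χ)).trans (Nat.totient_le _)
          have h6 : (orderOf χ : ℝ) ≤ q := by exact_mod_cast h5
          calc (orderOf χ : ℝ) ≤ q := h6
            _ ≤ q0 := hm.le
            _ = q0 * 1 := (mul_one _).symm
            _ ≤ _ := by gcongr
      have hb : ∀ j ∈ ex (orderOf χ), (G q (χ ^ j) : ℝ) ≤ K * (1 + 1 / δ) * (X : ℝ) ^ δ := by
        intro j hj
        obtain ⟨-, hj2⟩ := mem_ex.1 hj
        refine (hG.bd _ _ hq1' hqN (prim_pow hχ hj2)).trans ?_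
        have h5 : Real.log q ≤ Real.log X := Real.log_le_log hqp hqXr
        have h6 : Real.log X ≤ (X : ℝ) ^ δ / δ := Real.log_le_rpow_div hXp.le hδ0
        have h7 : 1 ≤ (X : ℝ) ^ δ := Real.one_le_rpow hXr hδ0.le
        have h8 : 1 + Real.log q ≤ (1 + 1 / δ) * (X : ℝ) ^ δ := by
          have : (1 + 1 / δ) * (X : ℝ) ^ δ = (X : ℝ) ^ δ + (X : ℝ) ^ δ / δ := by ring
          rw [this]; linarith
        calc K * (1 + Real.log q) ≤ K * ((1 + 1 / δ) * (X : ℝ) ^ δ) :=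
              mul_le_mul_of_nonneg_left h8 hK.le
          _ = _ := by ring
      push_cast
      calc ∑ j ∈ ex (orderOf χ), (G q (χ ^ j) : ℝ) ≤
            ∑ j ∈ ex (orderOf χ), K * (1 + 1 / δ) * (X : ℝ) ^ δ := sum_le_sum hb
        _ = (orderOf χ).totient * (K * (1 + 1 / δ) * (X : ℝ) ^ δ) := by
            rw [sum_const, nsmul_eq_mul, card_ex]
        _ ≤ _ := by
            refine mul_le_mul_of_nonneg_right ?_ (by positivity)
            refine le_trans ?_ hord
            exact_mod_cast Nat.totient_le _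
  have hpc : ∀ q ∈ md N X, ((pc q).card : ℝ) ≤ X := by
    intro q hq
    rw [md, mem_filter, mem_Icc] at hq
    obtain ⟨⟨hq1', hqX⟩, hqN⟩ := hq
    have : NeZero q := ⟨by omega⟩
    have h1 : (pc q).card ≤ q := by
      refine (card_le_univ _).trans ?_
      rw [card_char]
      exact Nat.totient_le q
    exact_mod_cast h1.trans hqX
  have hmd : ((md N X).card : ℝ) ≤ X := by
    have h5 : (md N X).card ≤ X := by
      refine (card_filter_le _ _).trans ?_
      rw [Nat.card_Icc]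
      omega
    exact_mod_cast h5
  push_cast
  set B : ℝ := q0 * (X : ℝ) ^ (3 / 4 + δ) * (K * (1 + 1 / δ) * (X : ℝ) ^ δ) with hB
  have hB0 : 0 ≤ B := by positivity
  calc ∑ q ∈ md N X, ∑ χ ∈ pc q, ∑ j ∈ ex (orderOf χ), (G q (χ ^ j) : ℝ) ≤
        ∑ q ∈ md N X, ∑ χ ∈ pc q, B := by
        refine sum_le_sum fun q hq => sum_le_sum fun χ hχ => ?_
        have := hterm q hq χ hχ
        push_cast at this
        exact this
    _ ≤ ∑ q ∈ md N X, X * B := by
        refine sum_le_sum fun q hq => ?_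
        rw [sum_const, nsmul_eq_mul]
        exact mul_le_mul_of_nonneg_right (hpc q hq) hB0
    _ ≤ X * (X * B) := by
        rw [sum_const, nsmul_eq_mul]
        exact mul_le_mul_of_nonneg_right hmd (by positivity)
    _ = q0 * (K * (1 + 1 / δ)) * ((X : ℝ) * X * (X : ℝ) ^ (3 / 4 + δ) * (X : ℝ) ^ δ) := by
        rw [hB]; ring
    _ = _ := by
        congr 1
        nth_rewrite 1 [← Real.rpow_one (X : ℝ)]
        nth_rewrite 2 [← Real.rpow_one (X : ℝ)]
        rw [← Real.rpow_add hXp, ← Real.rpow_add hXp, ← Real.rpow_add hXp]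
        congr 1
        rw [hδ]
        ring

/-- the sum of the ranks against the sum of the dimensions -/
theorem power {N : ℕ} (hN : 1 ≤ N) {K : ℝ} {G : (q : ℕ) → DirichletCharacter ℂ q → ℕ}
    (hG : GH N K G) {ε : ℝ} (hε : 0 < ε) : ∃ C : ℝ, 0 < C ∧ ∀ X : ℕ, 1 ≤ X →
    ((∑ᶠ x ∈ Prim N X, ∑ j ∈ ex (orderOf x.2), G x.1 (x.2 ^ j) : ℕ) : ℝ) ≤
      C * (X : ℝ) ^ (-(1 / 4) + ε) *
        ((∑ᶠ x ∈ Prim N X, (orderOf x.2).totient : ℕ) : ℝ) := by
  obtain ⟨C1, hC1, h1⟩ := rank_le hG (ε := ε / 2) (by positivity)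
  obtain ⟨c2, hc2, h2⟩ := dim_ge N hN (ε := ε / 2) (by positivity)
  refine ⟨C1 / c2, by positivity, fun X hX => ?_⟩
  have hXr : (1 : ℝ) ≤ X := by exact_mod_cast hX
  have hXp : (0 : ℝ) < X := by linarith
  refine (h1 X hX).trans ?_
  have h3 : (X : ℝ) ^ (11 / 4 + ε / 2) = (X : ℝ) ^ (-(1 / 4) + ε) * (X : ℝ) ^ (3 - ε / 2) := by
    rw [← Real.rpow_add hXp]
    congr 1
    ring
  rw [h3]
  calc C1 * ((X : ℝ) ^ (-(1 / 4) + ε) * (X : ℝ) ^ (3 - ε / 2)) =
      C1 / c2 * (X : ℝ) ^ (-(1 / 4) + ε) * (c2 * (X : ℝ) ^ (3 - ε / 2)) := by field_simp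
    _ ≤ _ := mul_le_mul_of_nonneg_left (h2 X hX) (by positivity)

end Pool.Agent.X309.DC
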