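import Pool.Agent.Y683.AA.HPw
import Pool.Agent.X309.BB4

/-!
The total order over the characters modulo `q`, in terms of the exponent of the group modulo `q`
(adapted from `Pool.Agent.Y683.AA.HPw`).
-/

set_option autoImplicit false

open Complex Finset

namespace Pool.Agent.X309

open Pool.Agent.W192.HK
open Pool.Agent.Y683.AA

variable {R : Subring ℂ} {ω : ℂ}

/-- the total order over the characters modulo `q` -/
theorem total_exp (hb : H_BASIC) (hcls : H_CLS) (hfp : H_FP) (hdivr : H_DIVR) (hR : QR R ω)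
    {C0 : ℝ} (hC : IdCount R C0) {K : ℝ} {o : ℕ → (Ideal R → ℂ) → ℕ} (ho : GHk R K o) {ε : ℝ}
    (hε : 0 < ε) :
    ∃ C : ℝ, 0 < C ∧ ∀ (m : ℕ) (q : Ideal R), 1 ≤ m → q ≠ ⊥ → ∀ Y : ℝ, 0 ≤ Y →
      (nn q : ℝ) ≤ Y * (Monoid.exponent (R ⧸ q)ˣ : ℕ) →
      ((∑ᶠ θ ∈ Dv m q, o m θ : ℕ) : ℝ) ≤ C * Y * bnd ε m (nm q) := by
  classical
  have hK := ho.pos
  obtain ⟨H, hH1, hH⟩ := card_all hb hcls hfp hR
  obtain ⟨N0, hN0⟩ := ho.nv (ε / 4) (by positivity)
  obtain ⟨C1, hC1, ht, -⟩ := Pool.Agent.W216.CY.t_div (ε / 4) (by positivity)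
  obtain ⟨C2, hC2, hdv⟩ := hdivr R ω hR (ε / 4) (by positivity)
  have hH0 : (0 : ℝ) < H := by exact_mod_cast hH1
  refine ⟨C2 * H * ((|N0| + 1) * C1) * (K * (1 + 1 / (ε / 4))), by positivity,
    fun m q hm hq Y hY hnice => ?_⟩
  have hq1 := nn_pos hb hR hq
  have hn1 : 1 ≤ nm q := by rw [nm_eq]; exact_mod_cast hq1
  have hn0 : 0 < nm q := by linarith
  have hm1 : (1 : ℝ) ≤ m := by exact_mod_cast hm
  have hm0 : (0 : ℝ) < m := by linarith
  have hmn1 : 1 ≤ m * nm q := by nlinarith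
  have hmn0 : 0 < m * nm q := by linarith
  have hnmn : nm q ≤ m * nm q := by nlinarith
  obtain ⟨b1, -⟩ := hb R ω hR
  have hfinq : Finite (R ⧸ q) := b1 q hq
  have hG : Finite (R ⧸ q)ˣ := inferInstance
  -- the bound for the orders
  set B : ℝ := bnd (ε / 4) m (nm q) with hB
  have hB1 : 1 ≤ B := by
    rw [hB, bnd]
    have h1 : (1 : ℝ) ≤ (m * nm q) ^ (ε / 4) := Real.one_le_rpow hmn1 (by positivity)
    have h2 : (1 : ℝ) ≤ (nm q) ^ (2 / 3 : ℝ) := Real.one_le_rpow hn1 (by norm_num)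
    have h3 : (0 : ℝ) ≤ (m * nm q) ^ (1 / 2 : ℝ) := by positivity
    nlinarith
  set D : ℝ := (|N0| + 1) * B with hD
  have hD0 : 0 ≤ D := by positivity
  have hDB : B ≤ D := by
    rw [hD]
    nlinarith [abs_nonneg N0]
  have hD1 : N0 ≤ D := by
    rw [hD]
    have h1 := le_abs_self N0
    have h2 := abs_nonneg N0
    nlinarith
  obtain ⟨T, hT1, hT2, hT3⟩ := card_dual_small hb hR hq hD0
  -- divisors
  set Q : Finset (Ideal R) := (Id hC (nn q)).filter (fun f => f ∣ q) with hQ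
  have hded := hR.ded
  have hQc : (Q.card : ℝ) ≤ C2 * (nm q) ^ (ε / 4) := by
    obtain ⟨h1, h2⟩ := hdv q hq
    refine le_trans ?_ h2
    rw [← Set.ncard_coe_finset]
    refine (Nat.cast_le (α := ℝ)).2 (Set.ncard_le_ncard (fun f hf => ?_) h1)
    rw [mem_coe, hQ, mem_filter] at hf
    exact hf.2
  -- the small characters of conductor `f`
  have hS : ∀ f : Ideal R, ∃ S : Finset (Ideal R → ℂ), f ∣ q →
      (∀ θ, HC (2 * m - 1) f θ → o m θ ≠ 0 → θ ∈ S) ∧ S.card ≤ T.card * H := by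
    intro f
    by_cases hf : f ∣ q
    · have hf0 : f ≠ ⊥ := by
        rintro rfl
        exact hq (by obtain ⟨J, hJ⟩ := hf; rw [hJ, Ideal.bot_mul])
      obtain ⟨Tf, hTf1, -⟩ := card_dual_small hb hR hf0 hD0
      obtain ⟨hsm, -⟩ := hH (2 * m - 1) f hf0
      obtain ⟨k1, k2⟩ := hsm D hD0 Tf hTf1
      refine ⟨k1.toFinset, fun _ => ⟨fun θ hθ hne => ?_, ?_⟩⟩
      · rw [Set.Finite.mem_toFinset]
        have hff : nm f ≤ nm q := by
          rw [nm_eq, nm_eq]
          exact_mod_cast nn_le_of_le hb hR hq (Ideal.dvd_iff_le.1 hf)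
        have hf1 : 1 ≤ nm f := by rw [nm_eq]; exact_mod_cast nn_pos hb hR hf0
        obtain ⟨F, hF1, hF2⟩ := small_of_ne hb hfp hR hN0 hm hθ hne hD0 hD1 (by
          refine le_trans ?_ hDB
          calc (nm f) ^ (2 / 3 + ε / 4) ≤ (nm q) ^ (2 / 3 + ε / 4) :=
                Real.rpow_le_rpow (by linarith) hff (by positivity)
            _ = (nm q) ^ (ε / 4) * (nm q) ^ (2 / 3 : ℝ) := by
                rw [← Real.rpow_add hn0]; congr 1; ring
            _ ≤ (m * nm q) ^ (ε / 4) * ((nm q) ^ (2 / 3 : ℝ) + (m * nm q) ^ (1 / 2 : ℝ)) := by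
                refine mul_le_mul (Real.rpow_le_rpow hn0.le hnmn (by positivity)) ?_
                  (by positivity) (by positivity)
                have : (0 : ℝ) ≤ (m * nm q) ^ (1 / 2 : ℝ) := by positivity
                linarith) (by
          calc (m : ℝ) * (nm f) ^ (1 + ε / 4) ≤ m * (nm q) ^ (1 + ε / 4) :=
                mul_le_mul_of_nonneg_left
                  (Real.rpow_le_rpow (by linarith) hff (by positivity)) hm0.le
            _ = (nm q) ^ (ε / 4) * (m * nm q) := by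
                rw [Real.rpow_add hn0, Real.rpow_one]; ring
            _ ≤ (m * nm q) ^ (ε / 2) * (m * nm q) := by
                refine mul_le_mul_of_nonneg_right ?_ hmn0.le
                refine (Real.rpow_le_rpow hn0.le hnmn (by positivity)).trans ?_
                exact Real.rpow_le_rpow_of_exponent_le hmn1 (by linarith)
            _ = ((m * nm q) ^ (ε / 4) * (m * nm q) ^ (1 / 2 : ℝ)) ^ 2 := by
                rw [mul_pow, ← Real.rpow_natCast, ← Real.rpow_mul hmn0.le, ← Real.rpow_natCast,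
                  ← Real.rpow_mul hmn0.le]
                have e1 : ε / 4 * ((2 : ℕ) : ℝ) = ε / 2 := by push_cast; ring
                have e2 : (1 / 2 : ℝ) * ((2 : ℕ) : ℝ) = 1 := by push_cast; norm_num
                rw [e1, e2, Real.rpow_one]
            _ ≤ B ^ 2 := by
                refine pow_le_pow_left₀ (by positivity) ?_ 2
                rw [hB, bnd]
                refine mul_le_mul_of_nonneg_left ?_ (by positivity)
                have : (0 : ℝ) ≤ (nm q) ^ (2 / 3 : ℝ) := by positivity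
                linarith
            _ ≤ D ^ 2 := pow_le_pow_left₀ (by linarith) hDB 2)
        exact ⟨hθ, F, (hTf1 F).2 hF2, hF1⟩
      · rw [← Set.ncard_eq_toFinset_card _ k1]
        exact k2.trans (Nat.mul_le_mul_right _
          (card_pull hb hR hq (Ideal.dvd_iff_le.1 hf) hT1 hTf1))
    · exact ⟨∅, fun h => absurd h hf⟩
  choose S hS using hS
  have hfin : (Dv m q).Finite :=
    (hk_finite hb hcls hfp hR hC m (nn q)).subset (dv_subset hb hR m hq le_rfl)
  have hterm : ∀ θ ∈ Dv m q, (o m θ : ℝ) ≤ K * (1 + Real.log (m * nm q)) := by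
    rintro θ ⟨f, hθ, hqf⟩
    refine (ho.bd m f θ hm hθ).trans (mul_le_mul_of_nonneg_left ?_ hK.le)
    have hf1 : 1 ≤ nm f := by rw [nm_eq]; exact_mod_cast nn_pos hb hR hθ.ne
    have hff : nm f ≤ nm q := by
      rw [nm_eq, nm_eq]
      exact_mod_cast nn_le_of_le hb hR hq hqf
    have h1 : Real.log (nm f) ≤ Real.log (nm q) := Real.log_le_log (by linarith) hff
    rw [Real.log_mul hm0.ne' hn0.ne']
    linarith
  -- the sum
  have hsum : ((∑ᶠ θ ∈ Dv m q, o m θ : ℕ) : ℝ) ≤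
      ((Q.biUnion S).card : ℝ) * (K * (1 + Real.log (m * nm q))) := by
    rw [finsum_mem_eq_finite_toFinset_sum _ hfin, ← sum_filter_ne_zero]
    push_cast
    have hlog : 0 ≤ Real.log (m * nm q) := Real.log_nonneg hmn1
    calc ∑ θ ∈ hfin.toFinset.filter (fun θ => o m θ ≠ 0), (o m θ : ℝ) ≤
        ∑ θ ∈ hfin.toFinset.filter (fun θ => o m θ ≠ 0), K * (1 + Real.log (m * nm q)) := by
          refine sum_le_sum fun θ hθ => ?_
          rw [mem_filter, Set.Finite.mem_toFinset] at hθ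
          exact hterm θ hθ.1
      _ = ((hfin.toFinset.filter (fun θ => o m θ ≠ 0)).card : ℝ) *
          (K * (1 + Real.log (m * nm q))) := by rw [sum_const, nsmul_eq_mul]
      _ ≤ _ := by
          refine mul_le_mul_of_nonneg_right ?_ (by positivity)
          refine (Nat.cast_le (α := ℝ)).2 (card_le_card fun θ hθ => ?_)
          rw [mem_filter, Set.Finite.mem_toFinset] at hθ
          obtain ⟨⟨f, h1, h2⟩, h3⟩ := hθ
          rw [mem_biUnion]
          have hfq : f ∣ q := Ideal.dvd_iff_le.2 h2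
          refine ⟨f, ?_, (hS f hfq).1 θ h1 h3⟩
          rw [hQ, mem_filter, mem_Id]
          exact ⟨⟨h1.ne, nn_le_of_le hb hR hq h2⟩, hfq⟩
  have hcard : ((Q.biUnion S).card : ℝ) ≤ C2 * (nm q) ^ (ε / 4) * (T.card * H) := by
    calc ((Q.biUnion S).card : ℝ) ≤ ((∑ f ∈ Q, (S f).card : ℕ) : ℝ) := by
          exact_mod_cast card_biUnion_le
      _ ≤ ((∑ f ∈ Q, T.card * H : ℕ) : ℝ) := by
          refine (Nat.cast_le (α := ℝ)).2 (sum_le_sum fun f hf => ?_)
          rw [hQ, mem_filter] at hf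
          exact (hS f hf.2).2
      _ = Q.card * (T.card * H) := by
          rw [sum_const, smul_eq_mul]
          push_cast
          ring
      _ ≤ _ := mul_le_mul_of_nonneg_right hQc (by positivity)
  -- the size of `T`
  have hlam0 : 0 < Monoid.exponent (R ⧸ q)ˣ :=
    Nat.pos_of_ne_zero Monoid.exponent_ne_zero_of_finite
  have hlam0' : (0 : ℝ) < (Monoid.exponent (R ⧸ q)ˣ : ℕ) := by exact_mod_cast hlam0
  have hlamX : ((Monoid.exponent (R ⧸ q)ˣ : ℕ) : ℝ) ≤ nm q := by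
    have h4 : Monoid.exponent (R ⧸ q)ˣ ≤ Nat.card (R ⧸ q)ˣ :=
      Nat.le_of_dvd Nat.card_pos Group.exponent_dvd_nat_card
    rw [nm_eq]
    refine (Nat.cast_le (α := ℝ)).2 (h4.trans ?_)
    unfold nn
    exact Nat.card_le_card_of_injective (fun u : (R ⧸ q)ˣ => (u : R ⧸ q)) Units.val_injective
  have hτ : (((Monoid.exponent (R ⧸ q)ˣ).divisors.card : ℕ) : ℝ) ≤ C1 * (nm q) ^ (ε / 4) := by
    refine (ht _ hlam0).trans ?_
    gcongr
  have hTc : (T.card : ℝ) ≤ D * (C1 * (nm q) ^ (ε / 4)) * Y := by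
    have h1 : (T.card : ℝ) * (Monoid.exponent (R ⧸ q)ˣ : ℕ) ≤
        (D * (C1 * (nm q) ^ (ε / 4)) * Y) * (Monoid.exponent (R ⧸ q)ˣ : ℕ) := by
      calc (T.card : ℝ) * (Monoid.exponent (R ⧸ q)ˣ : ℕ) ≤
          D * (((Monoid.exponent (R ⧸ q)ˣ).divisors.card : ℕ) : ℝ) * nn q := hT3
        _ ≤ D * (C1 * (nm q) ^ (ε / 4)) * (Y * (Monoid.exponent (R ⧸ q)ˣ : ℕ)) := by
            refine mul_le_mul (mul_le_mul_of_nonneg_left hτ hD0)
              hnice (Nat.cast_nonneg _)
              (by positivity)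
        _ = _ := by ring
    exact le_of_mul_le_mul_right h1 hlam0'
  have hlog1 := log_le_pow hmn1 (δ := ε / 4) (by positivity)
  have hlog0 : 0 ≤ Real.log (m * nm q) := Real.log_nonneg hmn1
  have hnpow : (nm q) ^ (ε / 4) ≤ (m * nm q) ^ (ε / 4) :=
    Real.rpow_le_rpow hn0.le hnmn (by positivity)
  have hmnp : (0 : ℝ) ≤ (m * nm q) ^ (ε / 4) := by positivity
  set P : ℝ := (m * nm q) ^ (ε / 4) with hP
  have e1 : bnd ε m (nm q) = P ^ 3 * B := by
    rw [hB, bnd, bnd, ← hP, ← mul_assoc]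
    congr 1
    rw [hP, ← Real.rpow_natCast, ← Real.rpow_mul hmn0.le, ← Real.rpow_add hmn0]
    congr 1
    push_cast
    ring
  rw [e1]
  calc ((∑ᶠ θ ∈ Dv m q, o m θ : ℕ) : ℝ) ≤
      ((Q.biUnion S).card : ℝ) * (K * (1 + Real.log (m * nm q))) := hsum
    _ ≤ (C2 * (nm q) ^ (ε / 4) * (T.card * H)) * (K * ((1 + 1 / (ε / 4)) * P)) := by
        refine mul_le_mul hcard (mul_le_mul_of_nonneg_left hlog1 hK.le) (by positivity)
          (by positivity)
    _ ≤ (C2 * P * ((D * (C1 * P) * Y) * H)) * (K * ((1 + 1 / (ε / 4)) * P)) := by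
        refine mul_le_mul_of_nonneg_right ?_ (by positivity)
        refine mul_le_mul (mul_le_mul_of_nonneg_left hnpow hC2.le)
          (mul_le_mul_of_nonneg_right (hTc.trans ?_) hH0.le) (by positivity) (by positivity)
        refine mul_le_mul_of_nonneg_right (mul_le_mul_of_nonneg_left ?_ hD0) hY
        exact mul_le_mul_of_nonneg_left hnpow hC1.le
    _ = _ := by rw [hD]; ring


end Pool.Agent.X309
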