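import Pool.Agent.X309.KB

/-!
The total order over the characters modulo `P ^ k f₀`, `P` a prime of degree one.
-/

set_option autoImplicit false

open Complex IsDedekindDomain Filter

namespace Pool.Agent.X309

open Pool.Agent.W192.HK
open Pool.Agent.Y683.AA

variable {R : Subring ℂ} {ω : ℂ}

/-- the exponent of the group modulo `P ^ k f₀` -/
lemma exp_ge (hb : H_BASIC) (hR : QR R ω) {P f0 : Ideal R} {p : ℕ} (k : ℕ) (hP : Sp P p)
    (hf0 : f0 ≠ ⊥) : (nn (P ^ k * f0) : ℝ) ≤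
      (2 * nn f0) * (Monoid.exponent (R ⧸ P ^ k * f0)ˣ : ℕ) := by
  obtain ⟨b1, -⟩ := hb R ω hR
  have := hR.ded
  have hP0 := hP.ne hb hR
  have hq : P ^ k * f0 ≠ ⊥ := mul_ne_zero (pow_ne_zero k hP0) hf0
  have hfin : Finite (R ⧸ P ^ k * f0) := b1 _ hq
  have hle : P ^ k * f0 ≤ P ^ k := Ideal.mul_le_left
  have hsurj := pi_surj hb hR hq hle
  have h1 : Monoid.exponent (R ⧸ P ^ k)ˣ ∣ Monoid.exponent (R ⧸ P ^ k * f0)ˣ :=
    MonoidHom.exponent_dvd hsurj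
  obtain ⟨e1⟩ := exists_zmod hP.prime hP.ideal hP0 hP.mem hP.unr (hP.card hb hR k)
  have hNZ : NeZero (p ^ k) := ⟨pow_ne_zero k hP.prime.ne_zero⟩
  have hcyc : IsCyclic (ZMod (p ^ k))ˣ := ZMod.isCyclic_units_of_prime_pow p hP.prime hP.odd k
  have h2 : Monoid.exponent (R ⧸ P ^ k)ˣ = Nat.totient (p ^ k) := by
    rw [← Monoid.exponent_eq_of_mulEquiv (Units.mapEquiv e1.toMulEquiv),
      IsCyclic.exponent_eq_card, Nat.card_eq_fintype_card, ZMod.card_units_eq_totient]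
  have h3 : p ^ k ≤ 2 * Nat.totient (p ^ k) := by
    rcases Nat.eq_zero_or_pos k with h | h
    · rw [h, pow_zero]
      simp
    · rw [Nat.totient_prime_pow hP.prime h]
      obtain ⟨j, rfl⟩ : ∃ j, k = j + 1 := ⟨k - 1, by omega⟩
      have h4 := hP.prime.two_le
      rw [Nat.add_sub_cancel, pow_succ]
      have h5 : p ≤ 2 * (p - 1) := by omega
      calc p ^ j * p ≤ p ^ j * (2 * (p - 1)) := Nat.mul_le_mul_left _ h5
        _ = 2 * (p ^ j * (p - 1)) := by ring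
  have h4 : Nat.totient (p ^ k) ≤ Monoid.exponent (R ⧸ P ^ k * f0)ˣ := by
    rw [← h2]
    exact Nat.le_of_dvd (Nat.pos_of_ne_zero Monoid.exponent_ne_zero_of_finite) h1
  have h5 : nn (P ^ k * f0) ≤ 2 * nn f0 * Monoid.exponent (R ⧸ P ^ k * f0)ˣ := by
    rw [nn_mul hb hR]
    have h6 : nn (P ^ k) = p ^ k := hP.card hb hR k
    rw [h6]
    calc p ^ k * nn f0 ≤ (2 * Nat.totient (p ^ k)) * nn f0 := Nat.mul_le_mul_right _ h3
      _ ≤ (2 * Monoid.exponent (R ⧸ P ^ k * f0)ˣ) * nn f0 :=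
          Nat.mul_le_mul_right _ (Nat.mul_le_mul_left _ h4)
      _ = _ := by ring
  exact_mod_cast h5

/-- the order of a character whose conductor is `P ^ a C` -/
lemma ord_primn (hb : H_BASIC) (hR : QR R ω) {P C : Ideal R} {p a n : ℕ} (hP : Sp P p)
    (hcop : IsCoprime P C) {χ : Ideal R → ℂ} (hχ : HC n (P ^ a * C) χ)
    {F : (R ⧸ P ^ a * C)ˣ →* ℂˣ} (hF : IsFin n (P ^ a * C) χ F) {e : ℕ} (he0 : 0 < e)
    (he : F ^ e = 1) : p ^ (a - 1) ≤ e := by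
  have := hR.ded
  have hP0 := hP.ne hb hR
  rcases Nat.lt_or_ge a 2 with ha | ha
  · have h1 : a - 1 = 0 := by omega
    rw [h1, pow_zero]
    exact he0
  obtain ⟨k, rfl⟩ : ∃ k, a = k + 2 := ⟨a - 2, by omega⟩
  have hne := hχ.ne
  have hC0 : C ≠ ⊥ := fun h => hne (by rw [h, Ideal.mul_bot])
  have hlt : P ^ (k + 2) * C < P ^ (k + 1) * C := by
    refine lt_of_le_of_ne (Ideal.mul_mono_left (Ideal.pow_le_pow_right (by omega))) fun h => ?_
    have h1 : P ^ (k + 2) = P ^ (k + 1) := mul_right_cancel₀ (show C ≠ 0 from hC0) h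
    have h2 : P ^ (k + 1) * P = P ^ (k + 1) * 1 := by rw [mul_one, ← pow_succ, h1]
    have h3 := mul_left_cancel₀ (pow_ne_zero (k + 1) hP0) h2
    exact hP.ideal.ne_top (by rw [h3, Ideal.one_eq_top])
  obtain ⟨α, h1, h2, h3, h4⟩ := hχ.prim _ hlt
  obtain ⟨u, hu⟩ := isUnit_iff_cop.2 h3
  have h5 := hF u α hu.symm h1
  have h6 : F u ≠ 1 := by
    intro h7
    rw [h7, Units.val_one] at h5
    apply h4
    have h8 : (α : ℂ) ^ n ≠ 0 := pow_ne_zero _ (coe_ne h1)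
    rw [eq_div_iff h8, one_mul] at h5
    exact h5.symm
  exact Nat.le_of_dvd he0 (order_dvd hP.prime hP.odd hP.ideal hP0 hP.mem hP.unr
    (hP.card hb hR (k + 2)) hcop F hu.symm h2 h6 he)

/-- the divisors of `P ^ k f₀` -/
lemma fac_any (hb : H_BASIC) (hR : QR R ω) {P f0 g : Ideal R} {p k : ℕ} (hP : Sp P p)
    (hf0 : f0 ≠ ⊥) (h : P ^ k * f0 ≤ g) :
    ∃ (j : ℕ) (g' : Ideal R), g = P ^ j * g' ∧ IsCoprime P g' ∧ f0 ≤ g' := by
  have := hR.ded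
  have hP0 := hP.ne hb hR
  have hpr : Prime P := Ideal.prime_of_isPrime hP0 hP.ideal
  have hmax : P.IsMaximal := hP.ideal.isMaximal hP0
  have hg0 : g ≠ 0 := by
    rintro rfl
    have h1 : P ^ k * f0 = ⊥ := le_bot_iff.1 h
    exact mul_ne_zero (pow_ne_zero k hP0) hf0 h1
  obtain ⟨j, g', h1, h2⟩ := WfDvdMonoid.max_power_factor hg0 hpr.irreducible
  have hcop : IsCoprime P g' := by
    rw [Ideal.isCoprime_iff_sup_eq]
    by_contra hne
    have h3 : P ⊔ g' = P := (hmax.eq_of_le hne le_sup_left).symm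
    exact h1 (Ideal.dvd_iff_le.2 (sup_eq_left.1 h3))
  refine ⟨j, g', h2, hcop, ?_⟩
  have h3 : g' ∣ P ^ k * f0 := by
    refine dvd_trans ?_ (Ideal.dvd_iff_le.2 h)
    rw [h2]
    exact dvd_mul_left _ _
  exact Ideal.dvd_iff_le.1 ((hcop.symm.pow_right (n := k)).dvd_of_dvd_mul_left h3)

/-- nonvanishing for conductors `P ^ j g'`, `j ≥ 4` -/
lemma vanish (hb : H_BASIC) (hfp : H_FP) (hR : QR R ω) {K : ℝ}
    {o : ℕ → (Ideal R → ℂ) → ℕ} (ho : GHk R K o) {f0 : Ideal R} (hf0 : f0 ≠ ⊥) (A : ℝ) :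
    ∃ M : ℝ, 1 ≤ M ∧ ∀ (P g' : Ideal R) (p j m : ℕ) (θ : Ideal R → ℂ), Sp P p →
      IsCoprime P g' → f0 ≤ g' → 1 ≤ m → (m : ℝ) ≤ A → M ≤ (p : ℝ) ^ (7 / 24 * (j : ℝ) - 1) →
      4 ≤ j → HC (2 * m - 1) (P ^ j * g') θ → o m θ = 0 := by
  obtain ⟨b1, -⟩ := hb R ω hR
  obtain ⟨N0, hN0⟩ := ho.nv (1 / 24) (by norm_num)
  have hB1 := nn_pos hb hR hf0
  set B : ℝ := (nn f0 : ℝ) with hB
  have hB1' : (1 : ℝ) ≤ B := by rw [hB]; exact_mod_cast hB1
  refine ⟨max A 1 * B ^ 2 + |N0| + 1, ?_, ?_⟩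
  · have h1 : (1 : ℝ) ≤ max A 1 := le_max_right _ _
    have h2 : 0 ≤ |N0| := abs_nonneg _
    have h3 : 0 ≤ max A 1 * B ^ 2 := by positivity
    linarith
  intro P g' p j m θ hP hcop hfg hm hmA hM hj hθ
  set M : ℝ := max A 1 * B ^ 2 + |N0| + 1 with hMdef
  have hA1 : (1 : ℝ) ≤ max A 1 := le_max_right _ _
  have hBM : B ≤ M := by
    have h2 : 0 ≤ |N0| := abs_nonneg _
    have h3 : B ≤ B ^ 2 := by nlinarith
    have h4 : B ^ 2 ≤ max A 1 * B ^ 2 := by nlinarith [sq_nonneg B]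
    linarith
  have hABM : max A 1 * B ^ 2 ≤ M := by
    have h2 : 0 ≤ |N0| := abs_nonneg _
    linarith
  have hNM : N0 ≤ M := by
    have h2 := le_abs_self N0
    have h3 : 0 ≤ max A 1 * B ^ 2 := by positivity
    linarith
  have hM0 : 0 < M := by
    have h2 : 0 ≤ |N0| := abs_nonneg _
    have h3 : 0 ≤ max A 1 * B ^ 2 := by positivity
    linarith
  have hp1 : (1 : ℝ) ≤ p := by exact_mod_cast hP.prime.one_lt.le
  have hp0 : (0 : ℝ) < p := by linarith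
  have hj4 : (4 : ℝ) ≤ j := by exact_mod_cast hj
  have hg0 : g' ≠ ⊥ := fun h => hθ.ne (by rw [h, Ideal.mul_bot])
  have hg1 : (1 : ℝ) ≤ nn g' := by exact_mod_cast nn_pos hb hR hg0
  have hgB : (nn g' : ℝ) ≤ B := by rw [hB]; exact_mod_cast nn_le_of_le hb hR hf0 hfg
  have hfinq : Finite (R ⧸ P ^ j * g') := b1 _ hθ.ne
  have hq : nm (P ^ j * g') = (p : ℝ) ^ (j : ℝ) * nn g' := by
    rw [nm_eq, nn_mul hb hR]
    have h6 : nn (P ^ j) = p ^ j := hP.card hb hR j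
    rw [h6, Real.rpow_natCast]
    push_cast
    rfl
  have hpj : 0 < (p : ℝ) ^ (j : ℝ) := by positivity
  obtain ⟨F, hF⟩ := exists_fin hfp hR hθ
  refine hN0 m (P ^ j * g') θ hm hθ ?_ (p ^ (j - 1)) ?_ ?_ ?_
  · rw [hq]
    have h1 : (p : ℝ) ^ (7 / 24 * (j : ℝ) - 1) ≤ (p : ℝ) ^ (j : ℝ) :=
      Real.rpow_le_rpow_of_exponent_le hp1 (by linarith)
    nlinarith
  · intro e he h1
    refine ord_primn hb hR hP hcop hθ hF he ?_
    ext u
    rw [MonoidHom.pow_apply, MonoidHom.one_apply, Units.val_pow_eq_pow_val, Units.val_one]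
    obtain ⟨α, hα⟩ := Ideal.Quotient.mk_surjective (u : R ⧸ P ^ j * g')
    have hcop' : IsCoprime (sp α) (P ^ j * g') := by
      rw [← isUnit_iff_cop, hα]
      exact u.isUnit
    have hqt : P ^ j * g' ≠ ⊤ := odd_ne_top hm hθ
    have h0 : α ≠ 0 := Pool.Agent.Y690.ne_zero_of_cop hqt hcop'
    rw [hF u α hα h0]
    exact h1 α hcop'
  · rw [hq]
    push_cast
    have e1 : ((p : ℝ) ^ (j - 1)) = (p : ℝ) ^ ((j : ℝ) - 1) := by
      rw [← Real.rpow_natCast]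
      congr 1
      rw [Nat.cast_sub (by omega)]
      simp
    rw [e1, Real.mul_rpow hpj.le (by linarith), ← Real.rpow_mul hp0.le]
    have h2 : (nn g' : ℝ) ^ (2 / 3 + 1 / 24 : ℝ) ≤ (p : ℝ) ^ (7 / 24 * (j : ℝ) - 1) := by
      calc (nn g' : ℝ) ^ (2 / 3 + 1 / 24 : ℝ) ≤ (nn g' : ℝ) ^ (1 : ℝ) :=
            Real.rpow_le_rpow_of_exponent_le hg1 (by norm_num)
        _ = nn g' := Real.rpow_one _
        _ ≤ M := hgB.trans hBM
        _ ≤ _ := hM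
    calc (p : ℝ) ^ ((j : ℝ) * (2 / 3 + 1 / 24)) * (nn g' : ℝ) ^ (2 / 3 + 1 / 24 : ℝ) ≤
        (p : ℝ) ^ ((j : ℝ) * (2 / 3 + 1 / 24)) * (p : ℝ) ^ (7 / 24 * (j : ℝ) - 1) := by gcongr
      _ = (p : ℝ) ^ ((j : ℝ) - 1) := by
          rw [← Real.rpow_add hp0]
          congr 1
          ring
  · rw [hq]
    push_cast
    have e1 : ((p : ℝ) ^ (j - 1)) ^ 2 = (p : ℝ) ^ (2 * (j : ℝ) - 2) := by
      rw [← Real.rpow_natCast, ← Real.rpow_natCast, ← Real.rpow_mul hp0.le]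
      congr 1
      rw [Nat.cast_sub (by omega)]
      push_cast
      ring
    rw [e1, Real.mul_rpow hpj.le (by linarith), ← Real.rpow_mul hp0.le]
    have h2 : (nn g' : ℝ) ^ (1 + 1 / 24 : ℝ) ≤ B ^ 2 := by
      calc (nn g' : ℝ) ^ (1 + 1 / 24 : ℝ) ≤ (nn g' : ℝ) ^ (2 : ℝ) :=
            Real.rpow_le_rpow_of_exponent_le hg1 (by norm_num)
        _ ≤ B ^ (2 : ℝ) := Real.rpow_le_rpow (by linarith) hgB (by norm_num)
        _ = B ^ 2 := by norm_num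
    have hm0 : (0 : ℝ) ≤ m := Nat.cast_nonneg m
    calc (m : ℝ) * ((p : ℝ) ^ ((j : ℝ) * (1 + 1 / 24)) * (nn g' : ℝ) ^ (1 + 1 / 24 : ℝ)) ≤
        max A 1 * ((p : ℝ) ^ ((j : ℝ) * (1 + 1 / 24)) * B ^ 2) := by
          refine mul_le_mul (hmA.trans (le_max_left _ _)) ?_ (by positivity) (by positivity)
          exact mul_le_mul_of_nonneg_left h2 (by positivity)
      _ = (p : ℝ) ^ ((j : ℝ) * (1 + 1 / 24)) * (max A 1 * B ^ 2) := by ring
      _ ≤ (p : ℝ) ^ ((j : ℝ) * (1 + 1 / 24)) * (p : ℝ) ^ (7 / 24 * (j : ℝ) - 1) := by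
          refine mul_le_mul_of_nonneg_left (hABM.trans hM) (by positivity)
      _ = (p : ℝ) ^ ((j : ℝ) * (1 + 1 / 24) + (7 / 24 * (j : ℝ) - 1)) := by
          rw [← Real.rpow_add hp0]
      _ ≤ _ := Real.rpow_le_rpow_of_exponent_le hp1 (by linarith)

end Pool.Agent.X309
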