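import Pool.Agent.X309.KC

/-!
Bounds for the total order over the characters modulo `P ^ k f₀`, uniform in `P` and `k`.
-/

set_option autoImplicit false

open Complex IsDedekindDomain Filter

namespace Pool.Agent.X309

open Pool.Agent.W192.HK
open Pool.Agent.Y683.AA

variable {R : Subring ℂ} {ω : ℂ}

/-- the bound for one modulus -/
theorem pp_one (hb : H_BASIC) (hcls : H_CLS) (hfp : H_FP) (hdivr : H_DIVR) (hR : QR R ω)
    {C0 : ℝ} (hC : IdCount R C0) {K : ℝ} {o : ℕ → (Ideal R → ℂ) → ℕ} (ho : GHk R K o) {ε : ℝ}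
    (hε : 0 < ε) : ∃ C : ℝ, 0 < C ∧ ∀ (P f0 : Ideal R) (p k m : ℕ), Sp P p → f0 ≠ ⊥ → 1 ≤ m →
      ((∑ᶠ θ ∈ Dv m (P ^ k * f0), o m θ : ℕ) : ℝ) ≤
        C * nn f0 * bnd ε m (nm (P ^ k * f0)) := by
  obtain ⟨C, hC0, h⟩ := total_exp hb hcls hfp hdivr hR hC ho hε
  refine ⟨C * 2, by positivity, fun P f0 p k m hP hf0 hm => ?_⟩
  have hq : P ^ k * f0 ≠ ⊥ := mul_ne_zero (pow_ne_zero k (hP.ne hb hR)) hf0
  refine (h m (P ^ k * f0) hm hq (2 * nn f0) (by positivity) (exp_ge hb hR k hP hf0)).trans ?_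
  exact le_of_eq (by ring)

lemma bnd_le {ε : ℝ} (hε : 0 < ε) {m : ℕ} {A n n' : ℝ} (hmA : (m : ℝ) ≤ A) (hn : 0 ≤ n)
    (hnn : n ≤ n') :
    bnd ε m n ≤ (A * n') ^ ε * (n' ^ (2 / 3 : ℝ) + (A * n') ^ (1 / 2 : ℝ)) := by
  have hm0 : (0 : ℝ) ≤ m := Nat.cast_nonneg m
  have hA0 : 0 ≤ A := hm0.trans hmA
  refine (bnd_mono hε hn hmA).trans ?_
  have h1 : A * n ≤ A * n' := mul_le_mul_of_nonneg_left hnn hA0
  have h2 : 0 ≤ A * n := mul_nonneg hA0 hn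
  have h3 := Real.rpow_le_rpow h2 h1 hε.le
  have h4 := Real.rpow_le_rpow h2 h1 (show (0 : ℝ) ≤ 1 / 2 by norm_num)
  have h5 := Real.rpow_le_rpow hn hnn (show (0 : ℝ) ≤ 2 / 3 by norm_num)
  have h6 : 0 ≤ (A * n) ^ ε := Real.rpow_nonneg h2 _
  have h7 : 0 ≤ n ^ (2 / 3 : ℝ) := Real.rpow_nonneg hn _
  have h8 : 0 ≤ (A * n) ^ (1 / 2 : ℝ) := Real.rpow_nonneg h2 _
  exact mul_le_mul h3 (add_le_add h5 h4) (by positivity) (h6.trans h3)

/-- only the conductors with `j ≤ J` count -/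
lemma cut (hb : H_BASIC) (hcls : H_CLS) (hfp : H_FP) (hR : QR R ω) {C0 : ℝ}
    (hC : IdCount R C0) {o : ℕ → (Ideal R → ℂ) → ℕ} {P f0 : Ideal R} {p : ℕ} (hP : Sp P p)
    (hf0 : f0 ≠ ⊥) {m J : ℕ}
    (hJ : ∀ (g' : Ideal R) (j : ℕ) (θ : Ideal R → ℂ), IsCoprime P g' → f0 ≤ g' → J < j →
      HC (2 * m - 1) (P ^ j * g') θ → o m θ = 0) (k : ℕ) :
    ∑ᶠ θ ∈ Dv m (P ^ k * f0), o m θ ≤ ∑ᶠ θ ∈ Dv m (P ^ J * f0), o m θ := by
  classical
  have hP0 := hP.ne hb hR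
  have hq : ∀ k, P ^ k * f0 ≠ ⊥ := fun k => mul_ne_zero (pow_ne_zero k hP0) hf0
  have hfin : ∀ k, (Dv m (P ^ k * f0)).Finite := fun k =>
    (hk_finite hb hcls hfp hR hC m _).subset (dv_subset hb hR m (hq k) le_rfl)
  rw [finsum_mem_eq_finite_toFinset_sum _ (hfin k), finsum_mem_eq_finite_toFinset_sum _ (hfin J),
    ← Finset.sum_filter_ne_zero]
  refine Finset.sum_le_sum_of_subset fun θ hθ => ?_
  rw [Finset.mem_filter, Set.Finite.mem_toFinset] at hθ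
  rw [Set.Finite.mem_toFinset]
  obtain ⟨⟨g, h1, h2⟩, h3⟩ := hθ
  obtain ⟨j, g', h4, h5, h6⟩ := fac_any hb hR hP hf0 h2
  rw [h4] at h1
  have hjJ : j ≤ J := by
    by_contra hlt
    exact h3 (hJ g' j θ h5 h6 (not_le.1 hlt) h1)
  refine ⟨P ^ j * g', h1, ?_⟩
  exact Ideal.mul_mono (Ideal.pow_le_pow_right hjJ) h6

/-- the bound for the whole tower -/
theorem pp_all (hb : H_BASIC) (hcls : H_CLS) (hfp : H_FP) (hdivr : H_DIVR) (hR : QR R ω)
    {C0 : ℝ} (hC : IdCount R C0) {K : ℝ} {o : ℕ → (Ideal R → ℂ) → ℕ} (ho : GHk R K o) {ε : ℝ}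
    (hε : 0 < ε) {f0 : Ideal R} (hf0 : f0 ≠ ⊥) (A : ℝ) : ∃ C : ℝ, 0 < C ∧
      ∀ (P : Ideal R) (p k m : ℕ), Sp P p → 1 ≤ m → (m : ℝ) ≤ A →
      ((∑ᶠ θ ∈ Dv m (P ^ k * f0), o m θ : ℕ) : ℝ) ≤ C * (p : ℝ) ^ (2 + ε) := by
  obtain ⟨C1, hC1, h1⟩ := pp_one hb hcls hfp hdivr hR hC ho (ε := ε / 3) (by positivity)
  obtain ⟨M, hM1, hM⟩ := vanish hb hfp hR ho hf0 A
  have hB1 := nn_pos hb hR hf0
  set B : ℝ := (nn f0 : ℝ) with hB
  have hB1' : (1 : ℝ) ≤ B := by rw [hB]; exact_mod_cast hB1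
  set A' : ℝ := max A 1 with hA'
  have hA1 : (1 : ℝ) ≤ A' := le_max_right _ _
  -- `j₀`
  obtain ⟨j0, hj0, hj1⟩ : ∃ j0 : ℕ, 3 ≤ j0 ∧ ∀ j : ℕ, j0 < j →
      M ≤ (3 : ℝ) ^ (7 / 24 * (j : ℝ) - 1) := by
    have ht : Tendsto (fun j : ℕ => (3 : ℝ) ^ (7 / 24 * (j : ℝ) - 1)) atTop atTop := by
      have h2 : Tendsto (fun j : ℕ => 7 / 24 * (j : ℝ) - 1) atTop atTop := by
        refine tendsto_atTop_add_const_right _ _ ?_
        exact Tendsto.const_mul_atTop (by norm_num) tendsto_natCast_atTop_atTop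
      exact (tendsto_rpow_atTop_of_base_gt_one 3 (by norm_num)).comp h2
    obtain ⟨j1, hj1⟩ := Filter.eventually_atTop.1 (ht.eventually_ge_atTop M)
    exact ⟨max j1 3, le_max_right _ _, fun j hj => hj1 j (by
      have := le_max_left j1 3
      omega)⟩
  set p0 : ℝ := M ^ 6 with hp0
  have hp01 : 1 ≤ p0 := one_le_pow₀ hM1
  set T : ℝ := A' * (p0 ^ j0 * B) with hT
  have hT1 : 0 < T := by positivity
  set D1 : ℝ := (A' * B) ^ (ε / 3) * (B + A' * B) with hD1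
  set D2 : ℝ := T ^ (ε / 3) * ((p0 ^ j0 * B) ^ (2 / 3 : ℝ) + T ^ (1 / 2 : ℝ)) with hD2
  refine ⟨C1 * B * (D1 + D2), by positivity, fun P p k m hP hm hmA => ?_⟩
  have hp3 : 3 ≤ p := by
    have h2 := hP.prime.two_le
    have h3 := hP.odd
    omega
  have hp3' : (3 : ℝ) ≤ p := by exact_mod_cast hp3
  have hp1 : (1 : ℝ) ≤ p := by linarith
  have hpp : (0 : ℝ) < p := by linarith
  have hmA' : (m : ℝ) ≤ A' := hmA.trans (le_max_left _ _)
  have hpow1 : 1 ≤ (p : ℝ) ^ (2 + ε) := Real.one_le_rpow hp1 (by positivity)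
  have hnm : ∀ J : ℕ, nm (P ^ J * f0) = (p : ℝ) ^ J * B := by
    intro J
    rw [nm_eq, nn_mul hb hR]
    have h6 : nn (P ^ J) = p ^ J := hP.card hb hR J
    rw [h6]
    push_cast
    rfl
  have hD1n : 0 ≤ D1 := by positivity
  have hD2n : 0 ≤ D2 := by positivity
  rcases le_or_gt p0 p with hlarge | hsmall
  · -- large `p`
    have hcut := cut hb hcls hfp hR hC (o := o) hP hf0 (m := m) (J := 3) (by
      intro g' j θ h2 h3 h4 h5
      refine hM P g' p j m θ hP h2 h3 hm hmA ?_ (by omega) h5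
      have h6 : (M ^ 6 : ℝ) ≤ p := hlarge
      have h7 : M ≤ (p : ℝ) ^ (1 / 6 : ℝ) := by
        have h8 := Real.rpow_le_rpow (by positivity) h6 (show (0 : ℝ) ≤ 1 / 6 by norm_num)
        rw [← Real.rpow_natCast M 6, ← Real.rpow_mul (by linarith)] at h8
        norm_num at h8
        convert h8 using 2
      refine h7.trans (Real.rpow_le_rpow_of_exponent_le hp1 ?_)
      have h9 : (4 : ℝ) ≤ j := by exact_mod_cast h4
      linarith) k
    have h2 : ((∑ᶠ θ ∈ Dv m (P ^ k * f0), o m θ : ℕ) : ℝ) ≤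
        ((∑ᶠ θ ∈ Dv m (P ^ 3 * f0), o m θ : ℕ) : ℝ) := by exact_mod_cast hcut
    refine h2.trans ((h1 P f0 p 3 m hP hf0 hm).trans ?_)
    have h3 := bnd_le (ε := ε / 3) (by positivity) hmA' (n := nm (P ^ 3 * f0))
      (n' := (p : ℝ) ^ 3 * B) (by rw [hnm]; positivity) (hnm 3).le
    have h4 : (A' * ((p : ℝ) ^ 3 * B)) ^ (ε / 3) = (A' * B) ^ (ε / 3) * (p : ℝ) ^ ε := by
      rw [show A' * ((p : ℝ) ^ 3 * B) = (A' * B) * (p : ℝ) ^ 3 by ring,
        Real.mul_rpow (by positivity) (by positivity), ← Real.rpow_natCast,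
        ← Real.rpow_mul hpp.le]
      congr 2
      push_cast
      ring
    have h5 : ((p : ℝ) ^ 3 * B) ^ (2 / 3 : ℝ) ≤ (p : ℝ) ^ (2 : ℝ) * B := by
      rw [Real.mul_rpow (by positivity) (by positivity), ← Real.rpow_natCast,
        ← Real.rpow_mul hpp.le]
      refine mul_le_mul (le_of_eq (by norm_num)) ?_ (by positivity) (by positivity)
      calc B ^ (2 / 3 : ℝ) ≤ B ^ (1 : ℝ) := Real.rpow_le_rpow_of_exponent_le hB1' (by norm_num)
        _ = B := Real.rpow_one _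
    have h6 : (A' * ((p : ℝ) ^ 3 * B)) ^ (1 / 2 : ℝ) ≤ (p : ℝ) ^ (2 : ℝ) * (A' * B) := by
      rw [show A' * ((p : ℝ) ^ 3 * B) = (p : ℝ) ^ 3 * (A' * B) by ring,
        Real.mul_rpow (by positivity) (by positivity), ← Real.rpow_natCast,
        ← Real.rpow_mul hpp.le]
      refine mul_le_mul (Real.rpow_le_rpow_of_exponent_le hp1 (by norm_num)) ?_ (by positivity)
        (by positivity)
      have h7 : 1 ≤ A' * B := by nlinarith
      calc (A' * B) ^ (1 / 2 : ℝ) ≤ (A' * B) ^ (1 : ℝ) :=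
            Real.rpow_le_rpow_of_exponent_le h7 (by norm_num)
        _ = A' * B := Real.rpow_one _
    have h7 : bnd (ε / 3) m (nm (P ^ 3 * f0)) ≤ D1 * (p : ℝ) ^ (2 + ε) := by
      refine h3.trans ?_
      rw [h4]
      calc (A' * B) ^ (ε / 3) * (p : ℝ) ^ ε * (((p : ℝ) ^ 3 * B) ^ (2 / 3 : ℝ) +
            (A' * ((p : ℝ) ^ 3 * B)) ^ (1 / 2 : ℝ)) ≤
          (A' * B) ^ (ε / 3) * (p : ℝ) ^ ε * ((p : ℝ) ^ (2 : ℝ) * B +
            (p : ℝ) ^ (2 : ℝ) * (A' * B)) :=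
            mul_le_mul_of_nonneg_left (add_le_add h5 h6) (by positivity)
        _ = D1 * ((p : ℝ) ^ (2 : ℝ) * (p : ℝ) ^ ε) := by rw [hD1]; ring
        _ = _ := by rw [← Real.rpow_add hpp]
    calc C1 * (nn f0 : ℝ) * bnd (ε / 3) m (nm (P ^ 3 * f0)) ≤
        C1 * B * (D1 * (p : ℝ) ^ (2 + ε)) := mul_le_mul_of_nonneg_left h7 (by positivity)
      _ ≤ C1 * B * ((D1 + D2) * (p : ℝ) ^ (2 + ε)) := by
          refine mul_le_mul_of_nonneg_left ?_ (by positivity)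
          exact mul_le_mul_of_nonneg_right (by linarith) (by positivity)
      _ = _ := by ring
  · -- small `p`
    have hcut := cut hb hcls hfp hR hC (o := o) hP hf0 (m := m) (J := j0) (by
      intro g' j θ h2 h3 h4 h5
      refine hM P g' p j m θ hP h2 h3 hm hmA ?_ (by omega) h5
      refine (hj1 j h4).trans ?_
      refine Real.rpow_le_rpow (by norm_num) hp3' ?_
      have h9 : (4 : ℝ) ≤ j := by exact_mod_cast (by omega : 4 ≤ j)
      linarith) k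
    have h2 : ((∑ᶠ θ ∈ Dv m (P ^ k * f0), o m θ : ℕ) : ℝ) ≤
        ((∑ᶠ θ ∈ Dv m (P ^ j0 * f0), o m θ : ℕ) : ℝ) := by exact_mod_cast hcut
    refine h2.trans ((h1 P f0 p j0 m hP hf0 hm).trans ?_)
    have h3 := bnd_le (ε := ε / 3) (by positivity) hmA' (n := nm (P ^ j0 * f0))
      (n' := p0 ^ j0 * B) (by rw [hnm]; positivity) (by
        rw [hnm]
        exact mul_le_mul_of_nonneg_right (pow_le_pow_left₀ hpp.le hsmall.le _) (by positivity))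
    calc C1 * (nn f0 : ℝ) * bnd (ε / 3) m (nm (P ^ j0 * f0)) ≤ C1 * B * D2 :=
          mul_le_mul_of_nonneg_left h3 (by positivity)
      _ ≤ C1 * B * (D1 + D2) := mul_le_mul_of_nonneg_left (by linarith) (by positivity)
      _ = C1 * B * (D1 + D2) * 1 := (mul_one _).symm
      _ ≤ _ := mul_le_mul_of_nonneg_left hpow1 (by positivity)

end Pool.Agent.X309
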