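import Mathlib

/-! # Convex and concave sequences near a sequence with large fluctuations: one window -/

set_option autoImplicit false

open Finset

namespace Pool.Agent.X309.TP

/-- among the points of `G` outside `E` there is one with a partner in `G` at distance `j t`,
`1 ≤ j < m` -/
lemma partner {G E : Finset ℕ} {a b m t : ℕ} (hG : G ⊆ Ico a b)
    (h : m * E.card + (b - a) + m * t < m * G.card) :
    ∃ p ∈ G, p ∉ E ∧ ∃ j, 1 ≤ j ∧ j < m ∧ p + j * t ∈ G := by
  classical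
  by_contra hcon
  push Not at hcon
  obtain ⟨H, hH⟩ : ∃ H : Finset ℕ, H = G \ E := ⟨_, rfl⟩
  have h1 : (H ×ˢ range m).card ≤ (Ico a (b + m * t)).card := by
    apply Finset.card_le_card_of_injOn (fun x : ℕ × ℕ => x.1 + x.2 * t)
    · rintro ⟨p, j⟩ hx
      simp only [Finset.coe_product, Set.mem_prod, Finset.mem_coe, hH, Finset.mem_sdiff,
        Finset.mem_range] at hx
      obtain ⟨⟨h2, -⟩, h3⟩ := hx
      have h4 := hG h2
      simp only [Finset.coe_Ico, Set.mem_Ico, Finset.mem_Ico] at h4 ⊢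
      have h5 : j * t ≤ m * t := Nat.mul_le_mul_right t h3.le
      constructor
      · omega
      · omega
    · rintro ⟨p, j⟩ hx ⟨q, k⟩ hy hxy
      simp only [Finset.coe_product, Set.mem_prod, Finset.mem_coe, hH, Finset.mem_sdiff,
        Finset.mem_range] at hx hy hxy
      obtain ⟨⟨h2, h2'⟩, h3⟩ := hx
      obtain ⟨⟨h4, h4'⟩, h5⟩ := hy
      rcases lt_trichotomy j k with h6 | h6 | h6
      · exfalso
        refine hcon q h4 h4' (k - j) (by omega) (by omega) ?_
        have : q + (k - j) * t = p := by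
          have h7 : k * t = (k - j) * t + j * t := by rw [← Nat.add_mul]; congr 1; omega
          omega
        rw [this]
        exact h2
      · subst h6
        have : p = q := by omega
        rw [this]
      · exfalso
        refine hcon p h2 h2' (j - k) (by omega) (by omega) ?_
        have : p + (j - k) * t = q := by
          have h7 : j * t = (j - k) * t + k * t := by rw [← Nat.add_mul]; congr 1; omega
          omega
        rw [this]
        exact h4
  rw [Finset.card_product, Finset.card_range, Nat.card_Ico] at h1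
  have h2 : G.card ≤ H.card + E.card := by
    rw [hH]
    exact Finset.card_le_card_sdiff_add_card (s := G) (t := E)
  have h3 : m * G.card ≤ m * H.card + m * E.card := by
    rw [← Nat.mul_add]
    exact Nat.mul_le_mul_left m h2
  have h4 : H.card * m = m * H.card := Nat.mul_comm _ _
  omega

/-- the count of a set takes all intermediate values -/
lemma ivt (G : Finset ℕ) {L q : ℕ} (h : q ≤ (G.filter (fun i => i < L)).card) :
    ∃ b ≤ L, (G.filter (fun i => i < b)).card = q := by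
  induction L with
  | zero =>
    refine ⟨0, le_rfl, ?_⟩
    simp at h ⊢
    omega
  | succ L ih =>
    by_cases h1 : q ≤ (G.filter (fun i => i < L)).card
    · obtain ⟨b, hb, hb'⟩ := ih h1
      exact ⟨b, by omega, hb'⟩
    · refine ⟨L + 1, le_rfl, ?_⟩
      have h2 : G.filter (fun i => i < L + 1) ⊆ insert L (G.filter (fun i => i < L)) := by
        intro i hi
        rw [Finset.mem_insert, Finset.mem_filter]
        rw [Finset.mem_filter] at hi
        by_cases h3 : i = L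
        · exact Or.inl h3
        · exact Or.inr ⟨hi.1, by omega⟩
      have h3 := (Finset.card_le_card h2).trans (Finset.card_insert_le _ _)
      omega

/-- convexity on `[0, L)` -/
def Cvx (Z : ℕ → ℝ) (L : ℕ) : Prop := ∀ i, i + 2 < L → 0 ≤ Z (i + 2) - 2 * Z (i + 1) + Z i

lemma Cvx.mono {Z : ℕ → ℝ} {L : ℕ} (h : Cvx Z L) {i j : ℕ} (hij : i ≤ j) (hj : j + 1 < L) :
    Z (i + 1) - Z i ≤ Z (j + 1) - Z j := by
  induction j, hij using Nat.le_induction with
  | base => exact le_rfl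
  | succ j hj' ih =>
    have h1 := ih (by omega)
    have h2 := h j (by omega)
    linarith

lemma Cvx.left {Z : ℕ → ℝ} {L : ℕ} (h : Cvx Z L) {a b c : ℕ} (hab : a ≤ b) (hbc : b ≤ c)
    (hc : c + 1 < L) : Z b - Z a ≤ ((b : ℝ) - a) * (Z (c + 1) - Z c) := by
  induction b, hab using Nat.le_induction with
  | base => simp
  | succ b hb ih =>
    have h1 := ih (by omega)
    have h2 := h.mono (i := b) (j := c) (by omega) hc
    push_cast
    linarith

lemma Cvx.right {Z : ℕ → ℝ} {L : ℕ} (h : Cvx Z L) {c d : ℕ} (hcd : c ≤ d) (hd : d < L) :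
    ((d : ℝ) - c) * (Z (c + 1) - Z c) ≤ Z d - Z c := by
  induction d, hcd using Nat.le_induction with
  | base => simp
  | succ d hd' ih =>
    have h1 := ih (by omega)
    have h2 := h.mono (i := c) (j := d) hd' hd
    push_cast
    linarith

/-- the slopes of the chords of a convex sequence increase -/
lemma Cvx.chord {Z : ℕ → ℝ} {L : ℕ} (h : Cvx Z L) {a b c d : ℕ} (hab : a ≤ b) (hbc : b ≤ c)
    (hcd : c < d) (hd : d < L) :
    (Z b - Z a) * ((d : ℝ) - c) ≤ (Z d - Z c) * ((b : ℝ) - a) := by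
  have h1 := h.left hab hbc (by omega)
  have h2 := h.right hcd.le hd
  have h3 : (0 : ℝ) ≤ (d : ℝ) - c := by
    have : (c : ℝ) ≤ d := by exact_mod_cast hcd.le
    linarith
  have h4 : (0 : ℝ) ≤ (b : ℝ) - a := by
    have : (a : ℝ) ≤ b := by exact_mod_cast hab
    linarith
  have h5 := mul_le_mul_of_nonneg_right h1 h3
  have h6 := mul_le_mul_of_nonneg_right h2 h4
  linarith

lemma slope_lo {S1 S2 d1 d2 s κ : ℝ} (h : S1 * d2 ≤ S2 * d1) (h1 : d1 - κ ≤ S1) (h2 : s ≤ d1)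
    (h3 : d2 * κ ≤ s) (h4 : 0 < d2) (h5 : 0 < s) : d2 - 1 ≤ S2 := by
  have h6 : (d1 - κ) * d2 ≤ S1 * d2 := mul_le_mul_of_nonneg_right h1 h4.le
  have h7 : (d2 - 1) * d1 ≤ S2 * d1 := by linarith
  exact le_of_mul_le_mul_right h7 (by linarith)

lemma slope_hi {S2 S3 d2 d3 s κ : ℝ} (h : S2 * d3 ≤ S3 * d2) (h1 : S3 ≤ d3 + κ) (h2 : s ≤ d3)
    (h3 : d2 * κ ≤ s) (h4 : 0 < d2) (h5 : 0 < s) : S2 ≤ d2 + 1 := by
  have h6 : S3 * d2 ≤ (d3 + κ) * d2 := mul_le_mul_of_nonneg_right h1 h4.le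
  have h7 : S2 * d3 ≤ (d2 + 1) * d3 := by linarith
  exact le_of_mul_le_mul_right h7 (by linarith)

/-- one window: a sequence that is convex or concave on `[0, L)` is close to `Y` at few places -/
theorem window {Y Z : ℕ → ℝ} {K A : ℝ} {L m r s : ℕ} (hK : 0 ≤ K) (hA : 0 ≤ A) (hr : 1 ≤ r)
    (hrs : r ≤ s) (hs : (m : ℝ) * r * (2 * K + A) ≤ s)
    (hZ : Cvx Z L ∨ Cvx (fun i => - Z i) L) {G E : Finset ℕ} (hGL : G ⊆ range L)
    (hG : ∀ i ∈ G, |Y i - Z i| ≤ K)
    (hE1 : ∀ i ∉ E, ∀ j, 1 ≤ j → j < m → i + j * s < L → |Y (i + j * s) - Y i - (j * s : ℕ)| ≤ A)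
    (hE2 : ∀ i ∉ E, ∀ j, 1 ≤ j → j < m → i + j * r < L →
      2 * K + 1 < |Y (i + j * r) - Y i - (j * r : ℕ)|) :
    m * G.card ≤ 3 * (m * E.card + L + m * s) + 3 * m := by
  classical
  by_contra hcon
  push Not at hcon
  obtain ⟨q, hq⟩ : ∃ q : ℕ, q = G.card / 3 := ⟨_, rfl⟩
  have hq3 : 3 * q ≤ G.card := by omega
  have hq4 : G.card ≤ 3 * q + 2 := by omega
  have hmq : m * E.card + L + m * s < m * q := by
    have h1 : m * G.card ≤ m * (3 * q + 2) := Nat.mul_le_mul_left m hq4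
    have h2 : m * (3 * q + 2) = 3 * (m * q) + 2 * m := by ring
    omega
  have hGfull : (G.filter (fun i => i < L)) = G := by
    apply Finset.filter_true_of_mem
    intro i hi
    exact Finset.mem_range.mp (hGL hi)
  obtain ⟨b2, hb2L, hb2⟩ := ivt G (L := L) (q := 2 * q) (by rw [hGfull]; omega)
  obtain ⟨b1, hb1L, hb1⟩ := ivt G (L := b2) (q := q) (by omega)
  obtain ⟨G1, hG1⟩ : ∃ G1 : Finset ℕ, G1 = G.filter (fun i => i < b1) := ⟨_, rfl⟩
  obtain ⟨G2, hG2⟩ : ∃ G2 : Finset ℕ, G2 = G.filter (fun i => b1 ≤ i ∧ i < b2) := ⟨_, rfl⟩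
  obtain ⟨G3, hG3⟩ : ∃ G3 : Finset ℕ, G3 = G.filter (fun i => b2 ≤ i) := ⟨_, rfl⟩
  have c1 : G1.card = q := by rw [hG1, hb1]
  have c2 : q ≤ G2.card := by
    have h1 : G.filter (fun i => i < b2) ⊆ G1 ∪ G2 := by
      intro i hi
      rw [Finset.mem_filter] at hi
      rw [Finset.mem_union, hG1, hG2, Finset.mem_filter, Finset.mem_filter]
      by_cases h : i < b1
      · exact Or.inl ⟨hi.1, h⟩
      · exact Or.inr ⟨hi.1, by omega, hi.2⟩
    have h2 := (Finset.card_le_card h1).trans (Finset.card_union_le _ _)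
    omega
  have c3 : q ≤ G3.card := by
    have h1 : G ⊆ G.filter (fun i => i < b2) ∪ G3 := by
      intro i hi
      rw [Finset.mem_union, hG3, Finset.mem_filter, Finset.mem_filter]
      by_cases h : i < b2
      · exact Or.inl ⟨hi, h⟩
      · exact Or.inr ⟨hi, by omega⟩
    have h2 := (Finset.card_le_card h1).trans (Finset.card_union_le _ _)
    omega
  have s1 : G1 ⊆ Ico 0 b1 := by
    intro i hi
    rw [hG1, Finset.mem_filter] at hi
    rw [Finset.mem_Ico]
    exact ⟨by omega, hi.2⟩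
  have s2 : G2 ⊆ Ico b1 b2 := by
    intro i hi
    rw [hG2, Finset.mem_filter] at hi
    rw [Finset.mem_Ico]
    exact hi.2
  have s3 : G3 ⊆ Ico b2 L := by
    intro i hi
    rw [hG3, Finset.mem_filter] at hi
    rw [Finset.mem_Ico]
    exact ⟨hi.2, Finset.mem_range.mp (hGL hi.1)⟩
  have t1 : G1 ⊆ G := by rw [hG1]; exact Finset.filter_subset _ _
  have t2 : G2 ⊆ G := by rw [hG2]; exact Finset.filter_subset _ _
  have t3 : G3 ⊆ G := by rw [hG3]; exact Finset.filter_subset _ _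
  have m2 : m * q ≤ m * G2.card := Nat.mul_le_mul_left m c2
  have m3 : m * q ≤ m * G3.card := Nat.mul_le_mul_left m c3
  have mrs : m * r ≤ m * s := Nat.mul_le_mul_left m hrs
  obtain ⟨p1, u1, v1, j1, w1, x1, y1⟩ := partner (E := E) (m := m) (t := s) s1 (by
    rw [c1]
    omega)
  obtain ⟨p2, u2, v2, j2, w2, x2, y2⟩ := partner (E := E) (m := m) (t := r) s2 (by omega)
  obtain ⟨p3, u3, v3, j3, w3, x3, y3⟩ := partner (E := E) (m := m) (t := s) s3 (by omega)
  have hs1 : 1 ≤ s := hr.trans hrs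
  have e1 : 1 ≤ j1 * s := Nat.mul_pos w1 hs1
  have e2 : 1 ≤ j2 * r := Nat.mul_pos w2 hr
  have e3 : 1 ≤ j3 * s := Nat.mul_pos w3 hs1
  have l1 := (Finset.mem_Ico.mp (s1 y1)).2
  have l2 := (Finset.mem_Ico.mp (s2 y2)).2
  have l2' := (Finset.mem_Ico.mp (s2 u2)).1
  have l3 := (Finset.mem_Ico.mp (s3 y3)).2
  have l3' := (Finset.mem_Ico.mp (s3 u3)).1
  -- the three chords
  have a1 := abs_le.mp (hE1 p1 v1 j1 w1 x1 (by omega))
  have a3 := abs_le.mp (hE1 p3 v3 j3 w3 x3 (by omega))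
  have a2 := hE2 p2 v2 j2 w2 x2 (by omega)
  have g1 := abs_le.mp (hG p1 (t1 u1))
  have g1' := abs_le.mp (hG _ (t1 y1))
  have g2 := abs_le.mp (hG p2 (t2 u2))
  have g2' := abs_le.mp (hG _ (t2 y2))
  have g3 := abs_le.mp (hG p3 (t3 u3))
  have g3' := abs_le.mp (hG _ (t3 y3))
  obtain ⟨d1, hd1⟩ : ∃ d1 : ℝ, d1 = ((j1 * s : ℕ) : ℝ) := ⟨_, rfl⟩
  obtain ⟨d2, hd2⟩ : ∃ d2 : ℝ, d2 = ((j2 * r : ℕ) : ℝ) := ⟨_, rfl⟩
  obtain ⟨d3, hd3⟩ : ∃ d3 : ℝ, d3 = ((j3 * s : ℕ) : ℝ) := ⟨_, rfl⟩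
  obtain ⟨S1, hS1⟩ : ∃ S1 : ℝ, S1 = Z (p1 + j1 * s) - Z p1 := ⟨_, rfl⟩
  obtain ⟨S2, hS2⟩ : ∃ S2 : ℝ, S2 = Z (p2 + j2 * r) - Z p2 := ⟨_, rfl⟩
  obtain ⟨S3, hS3⟩ : ∃ S3 : ℝ, S3 = Z (p3 + j3 * s) - Z p3 := ⟨_, rfl⟩
  have hsd1 : (s : ℝ) ≤ d1 := by
    rw [hd1]
    exact_mod_cast Nat.le_mul_of_pos_left s w1
  have hsd3 : (s : ℝ) ≤ d3 := by
    rw [hd3]
    exact_mod_cast Nat.le_mul_of_pos_left s w3
  have hd2m : d2 ≤ m * r := by
    rw [hd2]
    exact_mod_cast Nat.mul_le_mul_right r x2.le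
  have hd20 : 0 < d2 := by rw [hd2]; exact_mod_cast e2
  have hs0 : (0 : ℝ) < s := by exact_mod_cast hs1
  have hd2s : d2 * (2 * K + A) ≤ s := le_trans (mul_le_mul_of_nonneg_right hd2m (by linarith)) hs
  rw [← hd1] at a1
  rw [← hd2] at a2
  rw [← hd3] at a3
  have b1' : |S1 - d1| ≤ 2 * K + A := by
    rw [abs_le, hS1]
    constructor <;> linarith [a1.1, a1.2, g1.1, g1.2, g1'.1, g1'.2]
  have b3' : |S3 - d3| ≤ 2 * K + A := by
    rw [abs_le, hS3]
    constructor <;> linarith [a3.1, a3.2, g3.1, g3.2, g3'.1, g3'.2]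
  have b1'' := abs_le.mp b1'
  have b3'' := abs_le.mp b3'
  -- the slope in the middle
  have key : |S2 - d2| ≤ 1 := by
    rw [abs_le]
    have n1 : ((p1 + j1 * s : ℕ) : ℝ) - p1 = d1 := by rw [hd1]; push_cast; ring
    have n2 : ((p2 + j2 * r : ℕ) : ℝ) - p2 = d2 := by rw [hd2]; push_cast; ring
    have n3 : ((p3 + j3 * s : ℕ) : ℝ) - p3 = d3 := by rw [hd3]; push_cast; ring
    have hd10 : 0 < d1 := by linarith
    have hd30 : 0 < d3 := by linarith
    rcases hZ with hZ | hZ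
    · have ch1 := hZ.chord (a := p1) (b := p1 + j1 * s) (c := p2) (d := p2 + j2 * r) (by omega)
        (by omega) (by omega) (by omega)
      have ch2 := hZ.chord (a := p2) (b := p2 + j2 * r) (c := p3) (d := p3 + j3 * s) (by omega)
        (by omega) (by omega) (by omega)
      rw [n1, n2, ← hS1, ← hS2] at ch1
      rw [n2, n3, ← hS2, ← hS3] at ch2
      constructor
      · linarith [slope_lo ch1 (by linarith [b1''.1]) hsd1 hd2s hd20 hs0]
      · linarith [slope_hi ch2 (by linarith [b3''.2]) hsd3 hd2s hd20 hs0]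
    · have ch1 := hZ.chord (a := p1) (b := p1 + j1 * s) (c := p2) (d := p2 + j2 * r) (by omega)
        (by omega) (by omega) (by omega)
      have ch2 := hZ.chord (a := p2) (b := p2 + j2 * r) (c := p3) (d := p3 + j3 * s) (by omega)
        (by omega) (by omega) (by omega)
      rw [n1, n2] at ch1
      rw [n2, n3] at ch2
      have ch1' : S2 * d1 ≤ S1 * d2 := by rw [hS1, hS2]; linarith
      have ch2' : S3 * d2 ≤ S2 * d3 := by rw [hS2, hS3]; linarith
      constructor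
      · linarith [slope_lo ch2' (by linarith [b3''.1]) hsd3 hd2s hd20 hs0]
      · linarith [slope_hi ch1' (by linarith [b1''.2]) hsd1 hd2s hd20 hs0]
  have key' := abs_le.mp key
  have : |Y (p2 + j2 * r) - Y p2 - d2| ≤ 2 * K + 1 := by
    rw [abs_le]
    constructor <;> linarith [key'.1, key'.2, g2.1, g2.2, g2'.1, g2'.2]
  linarith

end Pool.Agent.X309.TP
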