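import Pool.Agent.X309.TPa

/-! # Sign changes of sequences and difference operators with positive roots -/

set_option autoImplicit false

open Finset Polynomial

namespace Pool.Agent.X309.TP

/-- `u` changes sign at least `m` times on `[0, L)` -/
def SC (u : ℕ → ℝ) (L m : ℕ) : Prop :=
  ∃ i : ℕ → ℕ, StrictMono i ∧ i m < L ∧ ∀ t < m, u (i t) * u (i (t + 1)) < 0

lemma SC.mono {u : ℕ → ℝ} {L L' m m' : ℕ} (h : SC u L m) (hL : L ≤ L') (hm : m' ≤ m) :
    SC u L' m' := by
  obtain ⟨i, h1, h2, h3⟩ := h
  exact ⟨i, h1, lt_of_le_of_lt (h1.monotone hm) (by omega), fun t ht => h3 t (by omega)⟩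

/-- many windows in which both signs occur give many sign changes -/
lemma sc_of_mixed (u : ℕ → ℝ) (w : ℕ) (J : ℕ → Prop) [DecidablePred J]
    (hJ : ∀ j, J j → (∃ p, j * w ≤ p ∧ p + 2 < (j + 1) * w ∧ 0 < u p) ∧
      (∃ p, j * w ≤ p ∧ p + 2 < (j + 1) * w ∧ u p < 0)) (n : ℕ) :
    ∀ M : ℕ, M + 1 ≤ ((range n).filter J).card → ∃ i : ℕ → ℕ, StrictMono i ∧ i M + 2 < n * w ∧
      (∀ t ≤ M, u (i t) ≠ 0) ∧ ∀ t < M, u (i t) * u (i (t + 1)) < 0 := by
  induction n with
  | zero => intro M h; simp at h
  | succ n ih =>
    intro M h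
    have hw : n * w ≤ (n + 1) * w := Nat.mul_le_mul_right w (by omega)
    by_cases h1 : M + 1 ≤ ((range n).filter J).card
    · obtain ⟨i, a1, a2, a3⟩ := ih M h1
      exact ⟨i, a1, by omega, a3⟩
    · have h2 : J n := by
        by_contra hcon
        rw [Finset.range_add_one, Finset.filter_insert, if_neg hcon] at h
        omega
      have h3 : M ≤ ((range n).filter J).card := by
        rw [Finset.range_add_one, Finset.filter_insert, if_pos h2] at h
        have := Finset.card_insert_le n ((range n).filter J)
        omega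
      obtain ⟨⟨p, p1, p2, p3⟩, ⟨q, q1, q2, q3⟩⟩ := hJ n h2
      rcases Nat.eq_zero_or_pos M with hM | hM
      · subst hM
        refine ⟨fun t => p + t, fun a b hab => by simpa using hab, by simpa using p2, ?_, ?_⟩
        · intro t ht
          have : t = 0 := by omega
          subst this
          simpa using p3.ne'
        · intro t ht; omega
      · obtain ⟨M', rfl⟩ : ∃ M', M = M' + 1 := ⟨M - 1, by omega⟩
        obtain ⟨i, a1, a2, a3, a4⟩ := ih M' h3
        obtain ⟨k, k1, k2, k3⟩ : ∃ k, n * w ≤ k ∧ k + 2 < (n + 1) * w ∧ u (i M') * u k < 0 := by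
          rcases lt_or_gt_of_ne (a3 M' le_rfl) with h4 | h4
          · exact ⟨p, p1, p2, mul_neg_of_neg_of_pos h4 p3⟩
          · exact ⟨q, q1, q2, mul_neg_of_pos_of_neg h4 q3⟩
        have hk0 : u k ≠ 0 := by
          intro h5
          rw [h5, mul_zero] at k3
          exact lt_irrefl _ k3
        refine ⟨fun t => if t ≤ M' then i t else k + (t - M' - 1), ?_, ?_, ?_, ?_⟩
        · apply strictMono_nat_of_lt_succ
          intro t
          by_cases h5 : t + 1 ≤ M'
          · rw [if_pos (by omega), if_pos h5]
            exact a1 (by omega)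
          · by_cases h6 : t ≤ M'
            · rw [if_pos h6, if_neg (by omega)]
              have : i t ≤ i M' := a1.monotone h6
              omega
            · rw [if_neg h6, if_neg (by omega)]
              omega
        · beta_reduce
          rw [if_neg (by omega)]
          omega
        · intro t ht
          beta_reduce
          by_cases h5 : t ≤ M'
          · rw [if_pos h5]; exact a3 t h5
          · rw [if_neg h5]
            have : k + (t - M' - 1) = k := by omega
            rw [this]
            exact hk0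
        · intro t ht
          beta_reduce
          by_cases h5 : t + 1 ≤ M'
          · rw [if_pos (by omega), if_pos h5]; exact a4 t (by omega)
          · have h6 : t = M' := by omega
            subst h6
            rw [if_pos le_rfl, if_neg (by omega)]
            have : k + (t + 1 - t - 1) = k := by omega
            rw [this]
            exact k3

/-- one step of the discrete Rolle theorem -/
lemma rolle_step {u : ℕ → ℝ} {ρ : ℝ} (hρ : 0 < ρ) {a b : ℕ} (hab : a < b) (h : u a * u b < 0) :
    ∃ k, a ≤ k ∧ k < b ∧ 0 < (u (k + 1) - ρ * u k) * u b := by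
  by_contra hcon
  push Not at hcon
  have h1 : ∀ k, a ≤ k → k ≤ b → u k * u b < 0 := by
    intro k hk
    induction k, hk using Nat.le_induction with
    | base => intro _; exact h
    | succ k hk ih =>
      intro hkb
      have h2 := ih (by omega)
      have h3 := hcon k hk (by omega)
      have h4 : ρ * (u k * u b) < 0 := mul_neg_of_pos_of_neg hρ h2
      linarith
  have h2 := h1 b hab.le le_rfl
  have h3 := mul_self_nonneg (u b)
  linarith

/-- the discrete Rolle theorem -/
lemma rolle {u : ℕ → ℝ} {ρ : ℝ} (hρ : 0 < ρ) {L m : ℕ} (h : SC u L (m + 1)) :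
    SC (fun n => u (n + 1) - ρ * u n) (L - 1) m := by
  classical
  obtain ⟨i, h1, h2, h3⟩ := h
  have h4 : ∀ t, ∃ k, t < m + 1 → (i t ≤ k ∧ k < i (t + 1) ∧
      0 < (u (k + 1) - ρ * u k) * u (i (t + 1))) := by
    intro t
    by_cases ht : t < m + 1
    · obtain ⟨k, hk⟩ := rolle_step hρ (h1 (Nat.lt_succ_self t)) (h3 t ht)
      exact ⟨k, fun _ => hk⟩
    · exact ⟨0, fun h => absurd h ht⟩
  choose k hk using h4
  refine ⟨fun t => if t ≤ m then k t else k m + (t - m), ?_, ?_, ?_⟩
  · apply strictMono_nat_of_lt_succ
    intro t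
    by_cases h5 : t + 1 ≤ m
    · rw [if_pos (by omega), if_pos h5]
      have a1 := (hk t (by omega)).2.1
      have a2 := (hk (t + 1) (by omega)).1
      omega
    · by_cases h6 : t ≤ m
      · have h7 : t = m := by omega
        subst h7
        rw [if_pos le_rfl, if_neg (by omega)]
        omega
      · rw [if_neg h6, if_neg (by omega)]
        omega
  · beta_reduce
    rw [if_pos le_rfl]
    have a1 := (hk m (by omega)).2.1
    omega
  · intro t ht
    beta_reduce
    rw [if_pos (by omega), if_pos (by omega)]
    have a1 := (hk t (by omega)).2.2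
    have a2 := (hk (t + 1) (by omega)).2.2
    have a3 := h3 (t + 1) (by omega)
    obtain ⟨x, hx⟩ : ∃ x : ℝ, x = u (k t + 1) - ρ * u (k t) := ⟨_, rfl⟩
    obtain ⟨y, hy⟩ : ∃ y : ℝ, y = u (k (t + 1) + 1) - ρ * u (k (t + 1)) := ⟨_, rfl⟩
    rw [← hx] at a1 ⊢
    rw [← hy] at a2 ⊢
    by_contra hcon
    push Not at hcon
    have a4 : 0 < (x * u (i (t + 1))) * (y * u (i (t + 1 + 1))) := mul_pos a1 a2
    have a5 : (x * u (i (t + 1))) * (y * u (i (t + 1 + 1))) =
        (x * y) * (u (i (t + 1)) * u (i (t + 1 + 1))) := by ring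
    rw [a5] at a4
    have a6 := mul_nonpos_of_nonneg_of_nonpos hcon a3.le
    linarith

/-- the shift of sequences -/
def sh : Module.End ℝ (ℕ → ℝ) where
  toFun u := fun n => u (n + 1)
  map_add' _ _ := rfl
  map_smul' _ _ := rfl

/-- the sequence `i ↦ ∑_j c_j z_{i+j}` for the polynomial `P = ∑_j c_j X^j` -/
noncomputable def form (P : ℝ[X]) (z : ℕ → ℝ) (i : ℕ) : ℝ := P.sum fun j c => c * z (i + j)

lemma sh_pow (j : ℕ) (z : ℕ → ℝ) (i : ℕ) : (sh ^ j) z i = z (i + j) := by
  induction j generalizing z i with
  | zero => rfl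
  | succ j ih =>
    rw [pow_succ, Module.End.mul_apply, ih]
    change z (i + j + 1) = z (i + (j + 1))
    rfl

lemma form_eq (P : ℝ[X]) (z : ℕ → ℝ) : form P z = aeval sh P z := by
  funext i
  unfold form
  rw [aeval_eq_sum_range, Polynomial.sum_over_range]
  · rw [LinearMap.sum_apply, Finset.sum_apply]
    refine Finset.sum_congr rfl fun j _ => ?_
    rw [LinearMap.smul_apply, Pi.smul_apply, sh_pow, smul_eq_mul]
  · intro j; simp

lemma form_mul (P Q : ℝ[X]) (z : ℕ → ℝ) : form (P * Q) z = form P (form Q z) := by
  rw [form_eq, form_eq, form_eq, map_mul, Module.End.mul_apply]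

lemma form_one (z : ℕ → ℝ) : form 1 z = z := by
  rw [form_eq, map_one, Module.End.one_apply]

lemma form_lin (ρ : ℝ) (z : ℕ → ℝ) : form (X - C ρ) z = fun n => z (n + 1) - ρ * z n := by
  rw [form_eq, map_sub, aeval_X, aeval_C]
  funext n
  rfl

/-- the polynomial with the roots `R` -/
noncomputable def pol (R : Multiset ℝ) : ℝ[X] := (R.map fun ρ => X - C ρ).prod

/-- difference operators with positive roots lose at most one sign change for each root -/
lemma sc_form (R : Multiset ℝ) : ∀ (z : ℕ → ℝ) (L m : ℕ), (∀ ρ ∈ R, 0 < ρ) →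
    SC z L (m + Multiset.card R) → SC (form (pol R) z) (L - Multiset.card R) m := by
  induction R using Multiset.induction with
  | empty =>
    intro z L m _ h
    unfold pol
    rw [Multiset.map_zero, Multiset.prod_zero, form_one]
    simpa using h
  | cons ρ R ih =>
    intro z L m hR h
    have e : pol (ρ ::ₘ R) = (X - C ρ) * pol R := by
      unfold pol
      rw [Multiset.map_cons, Multiset.prod_cons]
    rw [e, form_mul, form_lin]
    rw [Multiset.card_cons] at h ⊢
    have h1 := ih z L (m + 1) (fun x hx => hR x (Multiset.mem_cons_of_mem hx)) (by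
      have : m + (Multiset.card R + 1) = m + 1 + Multiset.card R := by ring
      rwa [this] at h)
    have h2 := rolle (hR ρ (Multiset.mem_cons_self ρ R)) h1
    have : L - Multiset.card R - 1 = L - (Multiset.card R + 1) := by omega
    rwa [this] at h2

lemma form_sq (z : ℕ → ℝ) : form ((X - 1) ^ 2) z = fun n => z (n + 2) - 2 * z (n + 1) + z n := by
  have e : ((X - 1) ^ 2 : ℝ[X]) = (X - C 1) * (X - C 1) := by rw [C_1]; ring
  rw [e, form_mul, form_lin, form_lin]
  funext n
  rw [show n + 2 = n + 1 + 1 by omega]
  ring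

/-- sign changes of the second differences need many nonzero terms -/
lemma nonzero_of_sc {v : ℕ → ℝ} {L m : ℕ} (hm : 1 ≤ m) (h : SC (form ((X - 1) ^ 2) v) (L - 2) m) :
    m + 1 ≤ 3 * ((range L).filter (fun i => v i ≠ 0)).card := by
  classical
  obtain ⟨i, h1, h2, h3⟩ := h
  rw [form_sq] at h3
  obtain ⟨S, hS⟩ : ∃ S : Finset ℕ, S = (range L).filter (fun i => v i ≠ 0) := ⟨_, rfl⟩
  rw [← hS]
  have h4 : ∀ t ≤ m, v (i t + 2) - 2 * v (i t + 1) + v (i t) ≠ 0 := by
    intro t ht h5
    rcases Nat.lt_or_ge t m with h6 | h6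
    · have := h3 t h6
      beta_reduce at this
      rw [h5, zero_mul] at this
      exact lt_irrefl _ this
    · have h7 : t = (m - 1) + 1 := by omega
      have := h3 (m - 1) (by omega)
      beta_reduce at this
      rw [← h7, h5, mul_zero] at this
      exact lt_irrefl _ this
  have h5 : (range (m + 1)).image i ⊆ (S ∪ S.image (fun x => x - 1)) ∪ S.image (fun x => x - 2) := by
    intro x hx
    rw [Finset.mem_image] at hx
    obtain ⟨t, ht, rfl⟩ := hx
    rw [Finset.mem_range] at ht
    have h6 := h4 t (by omega)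
    have h7 : i t ≤ i m := h1.monotone (by omega)
    have h8 : i t + 2 < L := by omega
    rw [Finset.mem_union, Finset.mem_union, Finset.mem_image, Finset.mem_image]
    by_cases g0 : v (i t) = 0
    · by_cases g1 : v (i t + 1) = 0
      · have g2 : v (i t + 2) ≠ 0 := by
          intro g2
          apply h6
          rw [g0, g1, g2]
          ring
        refine Or.inr ⟨i t + 2, ?_, by omega⟩
        rw [hS, Finset.mem_filter, Finset.mem_range]
        exact ⟨h8, g2⟩
      · refine Or.inl (Or.inr ⟨i t + 1, ?_, by omega⟩)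
        rw [hS, Finset.mem_filter, Finset.mem_range]
        exact ⟨by omega, g1⟩
    · refine Or.inl (Or.inl ?_)
      rw [hS, Finset.mem_filter, Finset.mem_range]
      exact ⟨by omega, g0⟩
  have h6 := Finset.card_le_card h5
  rw [Finset.card_image_of_injective _ h1.injective, Finset.card_range] at h6
  have h7 := Finset.card_union_le (S ∪ S.image (fun x => x - 1)) (S.image (fun x => x - 2))
  have h8 := Finset.card_union_le S (S.image (fun x => x - 1))
  have h9 : (S.image (fun x => x - 1)).card ≤ S.card := Finset.card_image_le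
  have h10 : (S.image (fun x => x - 2)).card ≤ S.card := Finset.card_image_le
  omega

end Pool.Agent.X309.TP
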