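import Pool.Agent.X309.TPb

/-! # Convex and concave sequences near a sequence with large fluctuations: long windows -/

set_option autoImplicit false

open Finset Polynomial

namespace Pool.Agent.X309.TP

/-- both signs occur among the second differences of `z` inside the window `[j w, (j+1) w)` -/
def Mixed (z : ℕ → ℝ) (w j : ℕ) : Prop :=
  (∃ p, j * w ≤ p ∧ p + 2 < (j + 1) * w ∧ 0 < form ((X - 1) ^ 2) z p) ∧
    (∃ p, j * w ≤ p ∧ p + 2 < (j + 1) * w ∧ form ((X - 1) ^ 2) z p < 0)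

lemma cvx_of_not_mixed {z : ℕ → ℝ} {w j : ℕ} (h : ¬ Mixed z w j) {lam : ℝ} (hlam : 0 < lam) :
    Cvx (fun i => lam * z (j * w + i)) w ∨ Cvx (fun i => - (lam * z (j * w + i))) w := by
  unfold Mixed at h
  rw [not_and_or] at h
  have hw : (j + 1) * w = j * w + w := by ring
  rcases h with h | h
  · right
    intro i hi
    push Not at h
    have h1 := h (j * w + i) (by omega) (by omega)
    rw [form_sq] at h1
    beta_reduce at h1 ⊢
    rw [show j * w + (i + 2) = j * w + i + 2 by ring, show j * w + (i + 1) = j * w + i + 1 by ring]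
    have h2 := mul_nonneg hlam.le (neg_nonneg.mpr h1)
    linarith
  · left
    intro i hi
    push Not at h
    have h1 := h (j * w + i) (by omega) (by omega)
    rw [form_sq] at h1
    beta_reduce at h1 ⊢
    rw [show j * w + (i + 2) = j * w + i + 2 by ring, show j * w + (i + 1) = j * w + i + 1 by ring]
    have h2 := mul_nonneg hlam.le h1
    linarith

/-- the number of points of `G` in the window `[j w, (j+1) w)` -/
def loc (G : Finset ℕ) (w j : ℕ) : Finset ℕ := (range w).filter (fun i => j * w + i ∈ G)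

lemma card_le_loc {G : Finset ℕ} {B w J : ℕ} (hG : G ⊆ range B) (hJ : B < (J + 1) * w) :
    G.card ≤ ∑ j ∈ range (J + 1), (loc G w j).card := by
  classical
  have hw : 0 < w := by
    rcases Nat.eq_zero_or_pos w with h | h
    · subst h; simp at hJ
    · exact h
  have h1 : G ⊆ (range (J + 1)).biUnion (fun j => (loc G w j).image (fun i => j * w + i)) := by
    intro x hx
    rw [Finset.mem_biUnion]
    have h2 := Finset.mem_range.mp (hG hx)
    have h3 : x / w * w + x % w = x := Nat.div_add_mod' x w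
    refine ⟨x / w, ?_, ?_⟩
    · rw [Finset.mem_range]
      exact Nat.div_lt_of_lt_mul (by rw [Nat.mul_comm]; omega)
    · rw [Finset.mem_image]
      refine ⟨x % w, ?_, h3⟩
      unfold loc
      rw [Finset.mem_filter, Finset.mem_range]
      exact ⟨Nat.mod_lt _ hw, by rw [h3]; exact hx⟩
  refine (Finset.card_le_card h1).trans (Finset.card_biUnion_le.trans ?_)
  exact Finset.sum_le_sum fun j _ => Finset.card_image_le

lemma loc_le_card (E : Finset ℕ) (w J : ℕ) : ∑ j ∈ range J, (loc E w j).card ≤ E.card := by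
  classical
  rw [← Finset.card_sigma]
  apply Finset.card_le_card_of_injOn (fun x : (_ : ℕ) × ℕ => x.1 * w + x.2)
  · rintro ⟨j, i⟩ hx
    simp only [Finset.coe_sigma, Set.mem_sigma_iff, Finset.mem_coe, loc, Finset.mem_filter] at hx
    exact hx.2.2
  · rintro ⟨j, i⟩ hx ⟨k, l⟩ hy hxy
    simp only [Finset.coe_sigma, Set.mem_sigma_iff, Finset.mem_coe, loc, Finset.mem_filter,
      Finset.mem_range] at hx hy hxy
    obtain ⟨-, h1, -⟩ := hx
    obtain ⟨-, h2, -⟩ := hy
    have hw : 0 < w := by omega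
    have e1 : (j * w + i) / w = j := by
      rw [Nat.add_comm, Nat.add_mul_div_right _ _ hw, Nat.div_eq_of_lt h1]; omega
    have e2 : (k * w + l) / w = k := by
      rw [Nat.add_comm, Nat.add_mul_div_right _ _ hw, Nat.div_eq_of_lt h2]; omega
    have h3 : j = k := by rw [← e1, ← e2, hxy]
    subst h3
    have h4 : i = l := by omega
    rw [h4]

open Classical in
theorem block {z : ℕ → ℝ} {K A : ℝ} {B w m r s M J : ℕ} {Y : ℕ → ℕ → ℝ} {lam : ℕ → ℝ}
    (hK : 0 ≤ K) (hA : 0 ≤ A) (hr : 1 ≤ r) (hrs : r ≤ s) (hs : (m : ℝ) * r * (2 * K + A) ≤ s)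
    (hJ' : B < (J + 1) * w) (hlam : ∀ j < J, 0 < lam j)
    {G E : Finset ℕ} (hG : G ⊆ range B)
    (hGc : ∀ j < J, ∀ i < w, j * w + i ∈ G → |Y j i - lam j * z (j * w + i)| ≤ K)
    (hE1 : ∀ j < J, ∀ i, j * w + i ∉ E → ∀ k, 1 ≤ k → k < m → i + k * s < w →
      |Y j (i + k * s) - Y j i - (k * s : ℕ)| ≤ A)
    (hE2 : ∀ j < J, ∀ i, j * w + i ∉ E → ∀ k, 1 ≤ k → k < m → i + k * r < w →
      2 * K + 1 < |Y j (i + k * r) - Y j i - (k * r : ℕ)|)
    (hmix : ((range J).filter (Mixed z w)).card ≤ M) :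
    m * G.card ≤ 3 * (m * E.card) + J * (3 * (w + m * s) + 3 * m) + M * (m * w) + m * w := by
  have h1 : ∀ j ∈ range J, m * (loc G w j).card ≤ 3 * (m * (loc E w j).card) +
      (3 * (w + m * s) + 3 * m) + (if Mixed z w j then m * w else 0) := by
    intro j hj
    rw [Finset.mem_range] at hj
    split_ifs with h
    · have h2 : (loc G w j).card ≤ w := by
        unfold loc
        exact (Finset.card_filter_le _ _).trans (by rw [Finset.card_range])
      have h3 := Nat.mul_le_mul_left m h2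
      omega
    · have h2 := window (Y := Y j) (Z := fun i => lam j * z (j * w + i)) (L := w) (m := m) (r := r)
        (s := s) (G := loc G w j) (E := loc E w j ∪ (Finset.range 0)) hK hA hr hrs hs
        (cvx_of_not_mixed h (hlam j hj)) (Finset.filter_subset _ _)
        (fun i hi => by
          unfold loc at hi
          rw [Finset.mem_filter, Finset.mem_range] at hi
          exact hGc j hj i hi.1 hi.2)
        (fun i hi k hk1 hk2 hk3 => by
          refine hE1 j hj i ?_ k hk1 hk2 hk3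
          intro h4
          apply hi
          unfold loc
          rw [Finset.mem_union, Finset.mem_filter, Finset.mem_range]
          exact Or.inl ⟨by omega, h4⟩)
        (fun i hi k hk1 hk2 hk3 => by
          refine hE2 j hj i ?_ k hk1 hk2 hk3
          intro h4
          apply hi
          unfold loc
          rw [Finset.mem_union, Finset.mem_filter, Finset.mem_range]
          exact Or.inl ⟨by omega, h4⟩)
      rw [Finset.range_zero, Finset.union_empty] at h2
      omega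
  have h2 := Finset.sum_le_sum h1
  rw [Finset.sum_add_distrib, Finset.sum_add_distrib, Finset.sum_const, Finset.card_range,
    smul_eq_mul, ← Finset.mul_sum, ← Finset.mul_sum, ← Finset.mul_sum, ← Finset.sum_filter,
    Finset.sum_const, smul_eq_mul] at h2
  have h3 := loc_le_card E w J
  have h4 := card_le_loc hG hJ'
  rw [Finset.sum_range_succ] at h4
  have h5 : (loc G w J).card ≤ w := by
    unfold loc
    exact (Finset.card_filter_le _ _).trans (by rw [Finset.card_range])
  have h6 := Nat.mul_le_mul_left m h4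
  have h7 := Nat.mul_le_mul_left m h5
  have h8 := Nat.mul_le_mul_left m h3
  have h9 := Nat.mul_le_mul_right (m * w) hmix
  have h10 : m * ∑ j ∈ range J, (loc G w j).card ≤ 3 * (m * ∑ j ∈ range J, (loc E w j).card) +
      J * (3 * (w + m * s) + 3 * m) + M * (m * w) := h2.trans (Nat.add_le_add_left h9 _)
  rw [Nat.mul_add] at h6
  omega

open Classical in
theorem block_mixed {z : ℕ → ℝ} {K A η : ℝ} {B w m r s M J : ℕ} {Y : ℕ → ℕ → ℝ} {lam : ℕ → ℝ}
    (hK : 0 ≤ K) (hA : 0 ≤ A) (hr : 1 ≤ r) (hrs : r ≤ s) (hs : (m : ℝ) * r * (2 * K + A) ≤ s)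
    (hJ : J * w ≤ B) (hJ' : B < (J + 1) * w) (hlam : ∀ j < J, 0 < lam j)
    {G E : Finset ℕ} (hG : G ⊆ range B)
    (hGc : ∀ j < J, ∀ i < w, j * w + i ∈ G → |Y j i - lam j * z (j * w + i)| ≤ K)
    (hE1 : ∀ j < J, ∀ i, j * w + i ∉ E → ∀ k, 1 ≤ k → k < m → i + k * s < w →
      |Y j (i + k * s) - Y j i - (k * s : ℕ)| ≤ A)
    (hE2 : ∀ j < J, ∀ i, j * w + i ∉ E → ∀ k, 1 ≤ k → k < m → i + k * r < w →
      2 * K + 1 < |Y j (i + k * r) - Y j i - (k * r : ℕ)|)
    (hη : 0 < η) (hm : 24 ≤ η * m) (hw : 24 * ((s : ℝ) + 1) ≤ η * w)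
    (hEc : (E.card : ℝ) ≤ η / 24 * B) (hGB : η * B ≤ G.card) (hB : 8 * (w : ℝ) ≤ η * B)
    (hM : (M : ℝ) * w ≤ η / 4 * B) :
    M + 1 ≤ ((range J).filter (Mixed z w)).card := by
  by_contra hcon
  have hcon' : ((range J).filter (Mixed z w)).card ≤ M := by omega
  have h1 := block hK hA hr hrs hs hJ' hlam hG hGc hE1 hE2 hcon'
  have h2 : (m : ℝ) * G.card ≤ 3 * (m * E.card) + J * (3 * (w + m * s) + 3 * m) + M * (m * w) +
      m * w := by exact_mod_cast h1
  have hm0 : 0 < (m : ℝ) := by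
    by_contra hh
    push Not at hh
    have : η * m ≤ 0 := mul_nonpos_of_nonneg_of_nonpos hη.le hh
    linarith
  have hs0 : (0 : ℝ) ≤ s := Nat.cast_nonneg _
  have hw0 : 0 < (w : ℝ) := by
    by_contra hh
    push Not at hh
    have : η * w ≤ 0 := mul_nonpos_of_nonneg_of_nonpos hη.le hh
    linarith
  have hB0 : 0 < η * B := by linarith
  have hJw : (J : ℝ) * w ≤ B := by exact_mod_cast hJ
  have hB1 : (0 : ℝ) ≤ B := Nat.cast_nonneg _
  have a1 : 3 * ((m : ℝ) * E.card) ≤ 3 * (m * (η / 24 * B)) := by gcongr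
  have a2 : (m : ℝ) * (η * B) ≤ m * G.card := by gcongr
  have a3 : (M : ℝ) * (m * w) ≤ m * (η / 4 * B) := by
    have := mul_le_mul_of_nonneg_left hM hm0.le
    linarith
  have a4 : (m : ℝ) * w ≤ m * (η * B / 8) := by
    apply mul_le_mul_of_nonneg_left _ hm0.le
    linarith
  have a5 : (J : ℝ) * (3 * w) ≤ m * (η * B) / 8 := by
    have b1 : 24 * (B : ℝ) ≤ η * m * B := mul_le_mul_of_nonneg_right hm hB1
    linarith
  have a6 : (J : ℝ) * (3 * (m * (s + 1))) ≤ m * (η * B) / 8 := by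
    have b1 : 24 * ((s : ℝ) + 1) * (m * J) ≤ η * w * (m * J) :=
      mul_le_mul_of_nonneg_right hw (by positivity)
    have b2 : (η * m) * ((J : ℝ) * w) ≤ (η * m) * B :=
      mul_le_mul_of_nonneg_left hJw (by positivity)
    linarith
  have a7 : 0 < (m : ℝ) * (η * B) := by positivity
  linarith

/-- long windows: the conclusion for difference operators with positive roots -/
theorem block_final {z : ℕ → ℝ} {K A η ε : ℝ} {B w m r s : ℕ} {Y : ℕ → ℕ → ℝ} {lam : ℕ → ℝ}
    (hK : 0 ≤ K) (hA : 0 ≤ A) (hr : 1 ≤ r) (hrs : r ≤ s) (hs : (m : ℝ) * r * (2 * K + A) ≤ s)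
    (hlam : ∀ j, (j + 1) * w ≤ B → 0 < lam j)
    {G E : Finset ℕ} (hG : G ⊆ range B)
    (hGc : ∀ j, (j + 1) * w ≤ B → ∀ i < w, j * w + i ∈ G → |Y j i - lam j * z (j * w + i)| ≤ K)
    (hE1 : ∀ j, (j + 1) * w ≤ B → ∀ i, j * w + i ∉ E → ∀ k, 1 ≤ k → k < m → i + k * s < w →
      |Y j (i + k * s) - Y j i - (k * s : ℕ)| ≤ A)
    (hE2 : ∀ j, (j + 1) * w ≤ B → ∀ i, j * w + i ∉ E → ∀ k, 1 ≤ k → k < m → i + k * r < w →
      2 * K + 1 < |Y j (i + k * r) - Y j i - (k * r : ℕ)|)
    (hη : 0 < η) (hm : 24 ≤ η * m) (hw : 24 * ((s : ℝ) + 1) ≤ η * w)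
    (hEc : (E.card : ℝ) ≤ η / 24 * B) (hGB : η * B ≤ G.card)
    (hεw : 24 * w * ε ≤ η) (hεB : 1 ≤ ε * B)
    (R : Multiset ℝ) (hR : ∀ ρ ∈ R, 0 < ρ) (hRc : (Multiset.card R : ℝ) ≤ ε * B) :
    ε * B ≤ ((range (B - Multiset.card R)).filter (fun i => form (pol R) z i ≠ 0)).card ∧
    SC (form ((X - 1) ^ 2 * pol R) z) (B - Multiset.card R - 2) ⌈ε * B⌉₊ := by
  classical
  have hs0 : (0 : ℝ) ≤ s := Nat.cast_nonneg _
  have hw0 : 0 < (w : ℝ) := by
    by_contra hh
    push Not at hh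
    have : η * w ≤ 0 := mul_nonpos_of_nonneg_of_nonpos hη.le hh
    linarith
  have hw0' : 0 < w := by exact_mod_cast hw0
  have hB1 : (0 : ℝ) ≤ B := Nat.cast_nonneg _
  have hwB : 24 * (w : ℝ) ≤ η * B := by
    have h1 : 24 * (w : ℝ) * 1 ≤ 24 * w * (ε * B) := mul_le_mul_of_nonneg_left hεB (by positivity)
    have h2 : 24 * w * ε * B ≤ η * B := mul_le_mul_of_nonneg_right hεw hB1
    linarith
  obtain ⟨J, hJ⟩ : ∃ J : ℕ, J = B / w := ⟨_, rfl⟩
  have hJ1 : J * w ≤ B := by rw [hJ]; exact Nat.div_mul_le_self B w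
  have hJ2 : B < (J + 1) * w := by
    rw [hJ]
    have h1 := Nat.div_add_mod' B w
    have h2 := Nat.mod_lt B hw0'
    rw [Nat.add_mul, Nat.one_mul]
    omega
  have hjB : ∀ j < J, (j + 1) * w ≤ B := fun j hj => (Nat.mul_le_mul_right w hj).trans hJ1
  obtain ⟨M, hM⟩ : ∃ M : ℕ, M = ⌊η * B / (4 * w)⌋₊ := ⟨_, rfl⟩
  have hM1 : (M : ℝ) * w ≤ η / 4 * B := by
    have h1 : (M : ℝ) ≤ η * B / (4 * w) := by rw [hM]; exact Nat.floor_le (by positivity)
    rw [le_div_iff₀ (by positivity)] at h1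
    linarith
  have h1 := block_mixed hK hA hr hrs hs hJ1 hJ2 (fun j hj => hlam j (hjB j hj)) hG
    (fun j hj => hGc j (hjB j hj)) (fun j hj => hE1 j (hjB j hj)) (fun j hj => hE2 j (hjB j hj))
    hη hm hw hEc hGB (by linarith) hM1
  obtain ⟨i, i1, i2, i3, i4⟩ := sc_of_mixed (form ((X - 1) ^ 2) z) w (Mixed z w) (fun j hj => hj) J M h1
  have h2 : SC (form ((X - 1) ^ 2) z) (B - 2) M := ⟨i, i1, by omega, i4⟩
  obtain ⟨m', hm'⟩ : ∃ m' : ℕ, m' = ⌈3 * (ε * B)⌉₊ := ⟨_, rfl⟩
  have hm'1 : (m' : ℝ) < 3 * (ε * B) + 1 := by rw [hm']; exact Nat.ceil_lt_add_one (by positivity)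
  have hm'2 : 3 * (ε * B) ≤ m' := by rw [hm']; exact Nat.le_ceil _
  have hM2 : m' + Multiset.card R ≤ M := by
    rw [hM]
    apply Nat.le_floor
    rw [le_div_iff₀ (by positivity)]
    push_cast
    have h3 : (m' : ℝ) + Multiset.card R ≤ 6 * (ε * B) := by linarith
    have h4 : ((m' : ℝ) + Multiset.card R) * (4 * w) ≤ 6 * (ε * B) * (4 * w) :=
      mul_le_mul_of_nonneg_right h3 (by positivity)
    have h5 : 24 * w * ε * B ≤ η * B := mul_le_mul_of_nonneg_right hεw hB1
    linarith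
  have h3 := sc_form R _ (B - 2) m' hR (h2.mono le_rfl hM2)
  have e1 : form (pol R) (form ((X - 1) ^ 2) z) = form ((X - 1) ^ 2 * pol R) z := by
    rw [← form_mul, mul_comm]
  have e2 : B - 2 - Multiset.card R = B - Multiset.card R - 2 := by omega
  rw [e1, e2] at h3
  have hm'3 : 1 ≤ m' := by
    have : (1 : ℝ) ≤ m' := by linarith
    exact_mod_cast this
  constructor
  · have h4 : SC (form ((X - 1) ^ 2) (form (pol R) z)) (B - Multiset.card R - 2) m' := by
      rw [← form_mul]; exact h3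
    have h5 := nonzero_of_sc hm'3 h4
    have h6 : (m' : ℝ) + 1 ≤ 3 * ((range (B - Multiset.card R)).filter
      (fun i => form (pol R) z i ≠ 0)).card := by exact_mod_cast h5
    linarith
  · apply h3.mono le_rfl
    rw [Nat.ceil_le]
    have : 0 ≤ ε * B := by positivity
    linarith

/-- windows with many exceptional points are rare -/
lemma few_bad (Ex : ℕ → Prop) [DecidablePred Ex] {N B : ℕ} (hB : 0 < B) (hBN : B ≤ N) {β X : ℝ}
    (hβ : 0 < β) (h : (((Icc 1 (2 * N)).filter Ex).card : ℝ) ≤ X) :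
    (((Icc 1 N).filter (fun n => β * B < (((range B).filter (fun i => Ex (n + i))).card : ℝ))).card : ℝ) ≤
      X / β := by
  classical
  rw [le_div_iff₀ hβ]
  have hB0 : (0 : ℝ) < B := by exact_mod_cast hB
  have h1 : ∑ n ∈ Icc 1 N, ((range B).filter (fun i => Ex (n + i))).card =
      ∑ i ∈ range B, ((Icc 1 N).filter (fun n => Ex (n + i))).card := by
    simp_rw [Finset.card_filter]
    exact Finset.sum_comm
  have h2 : ∀ i ∈ range B, ((Icc 1 N).filter (fun n => Ex (n + i))).card ≤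
      ((Icc 1 (2 * N)).filter Ex).card := by
    intro i hi
    rw [Finset.mem_range] at hi
    apply Finset.card_le_card_of_injOn (fun n => n + i)
    · intro n hn
      rw [Finset.mem_coe, Finset.mem_filter, Finset.mem_Icc] at hn
      obtain ⟨hn1, hn2⟩ := hn
      rw [Finset.mem_coe, Finset.mem_filter, Finset.mem_Icc]
      refine ⟨⟨?_, ?_⟩, hn2⟩
      · change 1 ≤ n + i
        omega
      · change n + i ≤ 2 * N
        omega
    · intro a _ b _ hab
      simpa using hab
  have h3 := Finset.sum_le_sum h2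
  rw [← h1, Finset.sum_const, Finset.card_range, smul_eq_mul] at h3
  have h4 : ((∑ n ∈ Icc 1 N, ((range B).filter (fun i => Ex (n + i))).card : ℕ) : ℝ) ≤ B * X := by
    have h5 : ((∑ n ∈ Icc 1 N, ((range B).filter (fun i => Ex (n + i))).card : ℕ) : ℝ) ≤
      B * (((Icc 1 (2 * N)).filter Ex).card : ℝ) := by exact_mod_cast h3
    exact h5.trans (mul_le_mul_of_nonneg_left h hB0.le)
  obtain ⟨S, hS⟩ : ∃ S : Finset ℕ, S = (Icc 1 N).filter
    (fun n => β * B < (((range B).filter (fun i => Ex (n + i))).card : ℝ)) := ⟨_, rfl⟩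
  rw [← hS]
  have h5 : (S.card : ℝ) * (β * B) ≤ B * X := by
    refine le_trans ?_ h4
    push_cast
    calc (S.card : ℝ) * (β * B) = ∑ _n ∈ S, β * B := by rw [Finset.sum_const, nsmul_eq_mul]
      _ ≤ ∑ n ∈ S, (((range B).filter (fun i => Ex (n + i))).card : ℝ) := by
          apply Finset.sum_le_sum
          intro n hn
          rw [hS, Finset.mem_filter] at hn
          exact hn.2.le
      _ ≤ _ := by
          apply Finset.sum_le_sum_of_subset_of_nonneg
          · rw [hS]; exact Finset.filter_subset _ _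
          · intro _ _ _; positivity
  have h6 : B * ((S.card : ℝ) * β) ≤ B * X := by linarith
  exact le_of_mul_le_mul_left h6 hB0

end Pool.Agent.X309.TP
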