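import Pool.Agent.X309.TPc
import Pool.Agent.X112.GS.Quant

/-! # Sequences near a sequence with large fluctuations: the main theorem -/

set_option autoImplicit false

open Finset Polynomial Filter

namespace Pool.Agent.X309.TP

open Pool.Agent.X112.GS (Anti2 Lln2)

/-- `y` is the sequence `g` normalised by the slowly varying factor `ℓ` -/
def Scale (y g ℓ : ℕ → ℝ) : Prop := ∀ w : ℕ, ∃ n1 : ℕ, ∀ n, n1 ≤ n → 0 < ℓ n ∧
  (∀ i, ℓ n ≤ ℓ (n + i)) ∧ ∀ i t, i + t ≤ w → y (n + i + t) - y (n + i) ≤ 2 * w →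
    |(g (n + i + t) - g (n + i)) * ℓ n - (y (n + i + t) - y (n + i))| ≤ 1

/-- the exceptional indices -/
def Exc (y : ℕ → ℝ) (c A : ℝ) (m r s n1 n : ℕ) : Prop :=
  n < n1 ∨ ∃ k ∈ Ico 1 m,
    (A * Real.sqrt (Real.log (k * s : ℕ)) ≤ |y (n + k * s) - y n - (k * s : ℕ)| ∨
     A * Real.sqrt (Real.log (k * r : ℕ)) ≤ |y (n + k * r) - y n - (k * r : ℕ)|) ∨
     |y (n + k * r) - y n - (k * r : ℕ)| ≤ c * Real.sqrt (Real.log (k * r : ℕ))

open Classical in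
lemma exc_card {y : ℕ → ℝ} {c A θ : ℝ} {r0 s0 : ℕ} (hθ : 0 < θ)
    (hr0 : ∀ r : ℕ, r0 ≤ r → ∀ᶠ N : ℕ in atTop, (((Icc 1 N).filter
      (fun n => |y (n + r) - y n - r| ≤ c * Real.sqrt (Real.log r))).card : ℝ) ≤ θ * N)
    (hs0 : ∀ s : ℕ, s0 ≤ s → ∀ᶠ N : ℕ in atTop, (((Icc 1 N).filter
      (fun n => A * Real.sqrt (Real.log s) ≤ |y (n + s) - y n - s|)).card : ℝ) ≤ θ * N)
    (m r s n1 : ℕ) (hr : r0 ≤ r) (hr' : s0 ≤ r) (hs : s0 ≤ s) :
    ∀ᶠ N : ℕ in atTop, (((Icc 1 (2 * N)).filter (Exc y c A m r s n1)).card : ℝ) ≤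
      7 * m * θ * N + n1 := by
  have t2 : Tendsto (fun N : ℕ => 2 * N) atTop atTop :=
    tendsto_atTop_mono (fun n => by omega : ∀ n, n ≤ 2 * n) tendsto_id
  have h1 : ∀ᶠ N : ℕ in atTop, ∀ k ∈ Ico 1 m, (((Icc 1 (2 * N)).filter
      (fun n => A * Real.sqrt (Real.log (k * s : ℕ)) ≤ |y (n + k * s) - y n - (k * s : ℕ)|)).card : ℝ) ≤
      θ * (2 * N : ℕ) := by
    rw [Filter.eventually_all_finset]
    intro k hk
    rw [Finset.mem_Ico] at hk
    exact t2.eventually (hs0 (k * s) (hs.trans (Nat.le_mul_of_pos_left s hk.1)))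
  have h2 : ∀ᶠ N : ℕ in atTop, ∀ k ∈ Ico 1 m, (((Icc 1 (2 * N)).filter
      (fun n => A * Real.sqrt (Real.log (k * r : ℕ)) ≤ |y (n + k * r) - y n - (k * r : ℕ)|)).card : ℝ) ≤
      θ * (2 * N : ℕ) := by
    rw [Filter.eventually_all_finset]
    intro k hk
    rw [Finset.mem_Ico] at hk
    exact t2.eventually (hs0 (k * r) (hr'.trans (Nat.le_mul_of_pos_left r hk.1)))
  have h3 : ∀ᶠ N : ℕ in atTop, ∀ k ∈ Ico 1 m, (((Icc 1 (2 * N)).filter
      (fun n => |y (n + k * r) - y n - (k * r : ℕ)| ≤ c * Real.sqrt (Real.log (k * r : ℕ)))).card : ℝ) ≤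
      θ * (2 * N : ℕ) := by
    rw [Filter.eventually_all_finset]
    intro k hk
    rw [Finset.mem_Ico] at hk
    exact t2.eventually (hr0 (k * r) (hr.trans (Nat.le_mul_of_pos_left r hk.1)))
  filter_upwards [h1, h2, h3] with N a1 a2 a3
  obtain ⟨F1, hF1⟩ : ∃ F1 : ℕ → Finset ℕ, F1 = fun k => (Icc 1 (2 * N)).filter
      (fun n => A * Real.sqrt (Real.log (k * s : ℕ)) ≤ |y (n + k * s) - y n - (k * s : ℕ)|) := ⟨_, rfl⟩
  obtain ⟨F2, hF2⟩ : ∃ F2 : ℕ → Finset ℕ, F2 = fun k => (Icc 1 (2 * N)).filter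
      (fun n => A * Real.sqrt (Real.log (k * r : ℕ)) ≤ |y (n + k * r) - y n - (k * r : ℕ)|) := ⟨_, rfl⟩
  obtain ⟨F3, hF3⟩ : ∃ F3 : ℕ → Finset ℕ, F3 = fun k => (Icc 1 (2 * N)).filter
      (fun n => |y (n + k * r) - y n - (k * r : ℕ)| ≤ c * Real.sqrt (Real.log (k * r : ℕ))) := ⟨_, rfl⟩
  have b1 : ∀ k ∈ Ico 1 m, ((F1 k).card : ℝ) ≤ θ * (2 * N : ℕ) := by rw [hF1]; exact a1
  have b2 : ∀ k ∈ Ico 1 m, ((F2 k).card : ℝ) ≤ θ * (2 * N : ℕ) := by rw [hF2]; exact a2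
  have b3 : ∀ k ∈ Ico 1 m, ((F3 k).card : ℝ) ≤ θ * (2 * N : ℕ) := by rw [hF3]; exact a3
  have hsub : (Icc 1 (2 * N)).filter (Exc y c A m r s n1) ⊆
      range n1 ∪ (Ico 1 m).biUnion (fun k => (F1 k ∪ F2 k) ∪ F3 k) := by
    intro n hn
    rw [Finset.mem_filter] at hn
    obtain ⟨hn1, hn2⟩ := hn
    rw [Finset.mem_union, Finset.mem_range, Finset.mem_biUnion]
    rcases hn2 with hn2 | ⟨k, hk, (hn2 | hn2) | hn2⟩
    · exact Or.inl hn2
    · refine Or.inr ⟨k, hk, ?_⟩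
      rw [Finset.mem_union, Finset.mem_union, hF1, Finset.mem_filter]
      exact Or.inl (Or.inl ⟨hn1, hn2⟩)
    · refine Or.inr ⟨k, hk, ?_⟩
      rw [Finset.mem_union, Finset.mem_union, hF2, Finset.mem_filter]
      exact Or.inl (Or.inr ⟨hn1, hn2⟩)
    · refine Or.inr ⟨k, hk, ?_⟩
      rw [Finset.mem_union, hF3, Finset.mem_filter]
      exact Or.inr ⟨hn1, hn2⟩
  have c1 := Finset.card_le_card hsub
  have c2 := Finset.card_union_le (range n1) ((Ico 1 m).biUnion (fun k => (F1 k ∪ F2 k) ∪ F3 k))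
  rw [Finset.card_range] at c2
  have c3 : (((Ico 1 m).biUnion (fun k => (F1 k ∪ F2 k) ∪ F3 k)).card : ℝ) ≤
      (m : ℝ) * (3 * (θ * (2 * N : ℕ))) := by
    have d1 : ((Ico 1 m).biUnion (fun k => (F1 k ∪ F2 k) ∪ F3 k)).card ≤
        ∑ k ∈ Ico 1 m, ((F1 k ∪ F2 k) ∪ F3 k).card := Finset.card_biUnion_le
    have d2 : ((∑ k ∈ Ico 1 m, ((F1 k ∪ F2 k) ∪ F3 k).card : ℕ) : ℝ) ≤
        ∑ _k ∈ Ico 1 m, (3 * (θ * (2 * N : ℕ))) := by
      push_cast
      apply Finset.sum_le_sum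
      intro k hk
      have e1 := Finset.card_union_le (F1 k ∪ F2 k) (F3 k)
      have e2 := Finset.card_union_le (F1 k) (F2 k)
      have e3 : (((F1 k ∪ F2 k) ∪ F3 k).card : ℝ) ≤ (F1 k).card + (F2 k).card + (F3 k).card := by
        exact_mod_cast (by omega : ((F1 k ∪ F2 k) ∪ F3 k).card ≤ (F1 k).card + (F2 k).card + (F3 k).card)
      have e4 := b1 k hk
      have e5 := b2 k hk
      have e6 := b3 k hk
      push_cast at e4 e5 e6
      linarith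
    rw [Finset.sum_const, Nat.card_Ico, nsmul_eq_mul] at d2
    refine le_trans (by exact_mod_cast d1) (d2.trans ?_)
    apply mul_le_mul_of_nonneg_right _ (by positivity)
    exact_mod_cast (by omega : m - 1 ≤ m)
  have c4 : (((Icc 1 (2 * N)).filter (Exc y c A m r s n1)).card : ℝ) ≤ n1 +
      ((Ico 1 m).biUnion (fun k => (F1 k ∪ F2 k) ∪ F3 k)).card := by
    exact_mod_cast c1.trans c2
  push_cast at c3
  have c5 : 0 ≤ (m : ℝ) * θ * N := by positivity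
  linarith

/-- the choice of the parameters -/
lemma params {η c A : ℝ} (hη : 0 < η) (hc : 0 < c) (hA : 0 < A) (m r0 s0 : ℕ) (hm : 1 ≤ m) :
    ∃ C : ℝ, 0 < C ∧ ∀ K : ℝ, 1 ≤ K → ∃ r s w : ℕ, r0 ≤ r ∧ s0 ≤ r ∧ s0 ≤ s ∧ 1 ≤ r ∧ r ≤ s ∧
      2 * K + 2 ≤ c * Real.sqrt (Real.log r) ∧
      (m : ℝ) * r * (2 * K + (A * Real.sqrt (Real.log (m * s : ℕ)) + 1)) ≤ s ∧
      24 * ((s : ℝ) + 1) ≤ η * w ∧ s ≤ w ∧ 24 * w * Real.exp (-C * K ^ 2) ≤ η := by
  have hm0 : (1 : ℝ) ≤ m := by exact_mod_cast hm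
  have hr00 : (0 : ℝ) ≤ r0 := Nat.cast_nonneg _
  have hs00 : (0 : ℝ) ≤ s0 := Nat.cast_nonneg _
  obtain ⟨D, hD⟩ : ∃ D : ℝ, D = 16 / c ^ 2 + 1 := ⟨_, rfl⟩
  have hD0 : 0 < D := by rw [hD]; positivity
  obtain ⟨R1, hR1⟩ : ∃ R1 : ℝ, R1 = r0 + s0 + 4 := ⟨_, rfl⟩
  have hR10 : 0 < R1 := by rw [hR1]; positivity
  obtain ⟨S1, hS1⟩ : ∃ S1 : ℝ, S1 = 4 * m ^ 3 * R1 ^ 2 * A ^ 2 + 6 * m * R1 + R1 + s0 + 3 := ⟨_, rfl⟩
  have hS10 : 0 < S1 := by rw [hS1]; positivity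
  obtain ⟨W1, hW1⟩ : ∃ W1 : ℝ, W1 = 24 * (S1 + 1) / η + S1 + 3 := ⟨_, rfl⟩
  have hW10 : 0 < W1 := by rw [hW1]; positivity
  refine ⟨2 * D + 24 * W1 / η, by positivity, fun K hK => ?_⟩
  have hK0 : 0 < K := by linarith
  have hK2 : (1 : ℝ) ≤ K ^ 2 := one_le_pow₀ hK
  obtain ⟨H, hH⟩ : ∃ H : ℝ, H = Real.exp (D * K ^ 2) := ⟨_, rfl⟩
  have hH1 : 1 ≤ H := by rw [hH]; exact Real.one_le_exp (by positivity)
  have hKH : K ≤ H := by
    rw [hH]
    have h1 := Real.add_one_le_exp (D * K ^ 2)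
    have h2 : 1 ≤ D := by
      rw [hD]
      have : 0 < 16 / c ^ 2 := by positivity
      linarith
    nlinarith
  have hHH : H ≤ H ^ 2 := by nlinarith
  have hH2 : (1 : ℝ) ≤ H ^ 2 := one_le_pow₀ hH1
  -- the short lag
  obtain ⟨r, hr⟩ : ∃ r : ℕ, r = r0 + s0 + 1 + ⌈Real.exp (16 * K ^ 2 / c ^ 2)⌉₊ := ⟨_, rfl⟩
  have hrE : Real.exp (16 * K ^ 2 / c ^ 2) ≤ r := by
    rw [hr]
    push_cast
    have := Nat.le_ceil (Real.exp (16 * K ^ 2 / c ^ 2))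
    linarith
  have hEH : Real.exp (16 * K ^ 2 / c ^ 2) ≤ H := by
    rw [hH, hD]
    apply Real.exp_le_exp.mpr
    have : (16 / c ^ 2 + 1) * K ^ 2 = 16 * K ^ 2 / c ^ 2 + K ^ 2 := by ring
    rw [this]
    linarith
  have hrH : (r : ℝ) ≤ R1 * H := by
    rw [hr, hR1]
    push_cast
    have h1 := Nat.ceil_lt_add_one (Real.exp_pos (16 * K ^ 2 / c ^ 2)).le
    nlinarith
  have hr1 : 1 ≤ r := by omega
  have hr1' : (1 : ℝ) ≤ r := by exact_mod_cast hr1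
  have hlogr : 2 * K + 2 ≤ c * Real.sqrt (Real.log r) := by
    have h1 : 16 * K ^ 2 / c ^ 2 ≤ Real.log r := by
      rw [Real.le_log_iff_exp_le (by linarith)]
      exact hrE
    have h2 : Real.sqrt (16 * K ^ 2 / c ^ 2) ≤ Real.sqrt (Real.log r) := Real.sqrt_le_sqrt h1
    have h3 : Real.sqrt (16 * K ^ 2 / c ^ 2) = 4 * K / c := by
      rw [show 16 * K ^ 2 / c ^ 2 = (4 * K / c) ^ 2 by ring, Real.sqrt_sq (by positivity)]
    rw [h3] at h2
    have h4 : c * (4 * K / c) ≤ c * Real.sqrt (Real.log r) := mul_le_mul_of_nonneg_left h2 hc.le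
    have h5 : c * (4 * K / c) = 4 * K := by field_simp
    linarith
  -- the long lag
  obtain ⟨s, hs⟩ : ∃ s : ℕ, s = ⌈4 * (m : ℝ) ^ 3 * r ^ 2 * A ^ 2⌉₊ + ⌈2 * (m : ℝ) * r * (2 * K + 1)⌉₊ +
    r + s0 := ⟨_, rfl⟩
  have c1 := Nat.le_ceil (4 * (m : ℝ) ^ 3 * r ^ 2 * A ^ 2)
  have c2 := Nat.le_ceil (2 * (m : ℝ) * r * (2 * K + 1))
  have c3 := Nat.ceil_lt_add_one (show 0 ≤ 4 * (m : ℝ) ^ 3 * r ^ 2 * A ^ 2 by positivity)
  have c4 := Nat.ceil_lt_add_one (show 0 ≤ 2 * (m : ℝ) * r * (2 * K + 1) by positivity)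
  have hse : (s : ℝ) = (⌈4 * (m : ℝ) ^ 3 * r ^ 2 * A ^ 2⌉₊ : ℝ) +
      (⌈2 * (m : ℝ) * r * (2 * K + 1)⌉₊ : ℝ) + r + s0 := by rw [hs]; push_cast; ring
  have hx1 : (0 : ℝ) ≤ (⌈4 * (m : ℝ) ^ 3 * r ^ 2 * A ^ 2⌉₊ : ℝ) := Nat.cast_nonneg _
  have hx2 : (0 : ℝ) ≤ (⌈2 * (m : ℝ) * r * (2 * K + 1)⌉₊ : ℝ) := Nat.cast_nonneg _
  have hsH : (s : ℝ) ≤ S1 * H ^ 2 := by
    have e1 : 4 * (m : ℝ) ^ 3 * r ^ 2 * A ^ 2 ≤ 4 * m ^ 3 * R1 ^ 2 * A ^ 2 * H ^ 2 := by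
      have : (r : ℝ) ^ 2 ≤ (R1 * H) ^ 2 := pow_le_pow_left₀ (by linarith) hrH 2
      calc 4 * (m : ℝ) ^ 3 * r ^ 2 * A ^ 2 ≤ 4 * (m : ℝ) ^ 3 * (R1 * H) ^ 2 * A ^ 2 := by gcongr
        _ = _ := by ring
    have e2 : 2 * (m : ℝ) * r * (2 * K + 1) ≤ 6 * m * R1 * H ^ 2 := by
      calc 2 * (m : ℝ) * r * (2 * K + 1) ≤ 2 * (m : ℝ) * (R1 * H) * (3 * H) := by
            apply mul_le_mul _ (by linarith) (by linarith) (by positivity)
            gcongr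
        _ = _ := by ring
    have e3 : (r : ℝ) ≤ R1 * H ^ 2 := hrH.trans (mul_le_mul_of_nonneg_left hHH hR10.le)
    have e4 : (s0 : ℝ) ≤ s0 * H ^ 2 := by nlinarith
    have e5 : (4 * (m : ℝ) ^ 3 * R1 ^ 2 * A ^ 2 + 6 * m * R1 + R1 + s0 + 3) * H ^ 2 =
        4 * m ^ 3 * R1 ^ 2 * A ^ 2 * H ^ 2 + 6 * m * R1 * H ^ 2 + R1 * H ^ 2 + s0 * H ^ 2 +
          3 * H ^ 2 := by ring
    rw [hse, hS1, e5]
    linarith
  have hs1 : (1 : ℝ) ≤ s := by rw [hse]; linarith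
  have hmain : (m : ℝ) * r * (2 * K + (A * Real.sqrt (Real.log (m * s : ℕ)) + 1)) ≤ s := by
    have h1 : 2 * (m : ℝ) * r * (2 * K + 1) ≤ s := by rw [hse]; linarith
    have h2 : 4 * (m : ℝ) ^ 3 * r ^ 2 * A ^ 2 ≤ s := by rw [hse]; linarith
    have h3 : Real.sqrt (Real.log (m * s : ℕ)) ≤ Real.sqrt (m * s) := by
      apply Real.sqrt_le_sqrt
      push_cast
      have := Real.log_le_sub_one_of_pos (show (0 : ℝ) < m * s by positivity)
      linarith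
    have h4 : 2 * ((m : ℝ) * r * A) * Real.sqrt (m * s) ≤ s := by
      have g1 : (2 * ((m : ℝ) * r * A) * Real.sqrt (m * s)) ^ 2 ≤ (s : ℝ) ^ 2 := by
        rw [mul_pow, Real.sq_sqrt (by positivity)]
        have : (2 * ((m : ℝ) * r * A)) ^ 2 * (m * s) = (4 * (m : ℝ) ^ 3 * r ^ 2 * A ^ 2) * s := by ring
        rw [this]
        have g2 : 4 * (m : ℝ) ^ 3 * r ^ 2 * A ^ 2 * s ≤ s * s :=
          mul_le_mul_of_nonneg_right h2 (by linarith)
        linarith [sq (s : ℝ)]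
      exact le_of_sq_le_sq g1 (by linarith)
    have h5 : (m : ℝ) * r * (A * Real.sqrt (Real.log (m * s : ℕ))) ≤
        (m : ℝ) * r * (A * Real.sqrt (m * s)) := by gcongr
    linarith
  -- the window
  obtain ⟨w, hw⟩ : ∃ w : ℕ, w = ⌈24 * ((s : ℝ) + 1) / η⌉₊ + s := ⟨_, rfl⟩
  have d1 := Nat.le_ceil (24 * ((s : ℝ) + 1) / η)
  have d2 := Nat.ceil_lt_add_one (show 0 ≤ 24 * ((s : ℝ) + 1) / η by positivity)
  have hwe : (w : ℝ) = (⌈24 * ((s : ℝ) + 1) / η⌉₊ : ℝ) + s := by rw [hw]; push_cast; ring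
  have hwH : (w : ℝ) ≤ W1 * H ^ 2 := by
    have e1 : 24 * ((s : ℝ) + 1) / η ≤ 24 * (S1 + 1) / η * H ^ 2 := by
      rw [div_mul_eq_mul_div]
      apply div_le_div_of_nonneg_right _ hη.le
      linarith
    have e2 : (24 * (S1 + 1) / η + S1 + 3) * H ^ 2 =
      24 * (S1 + 1) / η * H ^ 2 + S1 * H ^ 2 + 3 * H ^ 2 := by ring
    rw [hwe, hW1, e2]
    linarith
  refine ⟨r, s, w, by omega, by omega, by omega, hr1, by omega, hlogr, hmain, ?_, by omega, ?_⟩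
  · have h1 : 24 * ((s : ℝ) + 1) / η ≤ w := by
      rw [hwe]
      linarith
    rw [div_le_iff₀ hη] at h1
    linarith
  · have e1 : Real.exp (-(2 * D + 24 * W1 / η) * K ^ 2) =
        Real.exp (-(24 * W1 / η * K ^ 2)) / H ^ 2 := by
      rw [hH, ← Real.exp_nat_mul, ← Real.exp_sub]
      congr 1
      push_cast
      ring
    rw [e1, ← mul_div_assoc, div_le_iff₀ (by positivity)]
    have e2 : Real.exp (-(24 * W1 / η * K ^ 2)) ≤ 1 / (24 * W1 / η) := by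
      rw [Real.exp_neg, ← one_div]
      apply one_div_le_one_div_of_le (by positivity)
      have h1 := Real.add_one_le_exp (24 * W1 / η * K ^ 2)
      have h2 : 24 * W1 / η * 1 ≤ 24 * W1 / η * K ^ 2 := mul_le_mul_of_nonneg_left hK2 (by positivity)
      linarith
    calc 24 * (w : ℝ) * Real.exp (-(24 * W1 / η * K ^ 2)) ≤ 24 * (W1 * H ^ 2) * (1 / (24 * W1 / η)) := by
          apply mul_le_mul _ e2 (Real.exp_pos _).le (by positivity)
          linarith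
      _ = η * H ^ 2 := by field_simp

open Classical in
theorem main_abs {y g ℓ : ℕ → ℝ} (hA : Anti2 y) (hL : Lln2 y) (hS : Scale y g ℓ) (η : ℝ)
    (hη : 0 < η) : ∃ C : ℝ, 0 < C ∧ ∀ K : ℝ, 1 ≤ K → ∀ᶠ N : ℕ in atTop, ∀ B : ℕ,
      Real.exp (C * K ^ 2) ≤ B → B ≤ N → ∃ Bad : Finset ℕ, (Bad.card : ℝ) ≤ η * N ∧
      ∀ n, 1 ≤ n → n ≤ N → n ∉ Bad → ∀ z : ℕ → ℝ,
        η * B ≤ ((range B).filter (fun i => |g (n + i) - z i| * ℓ (n + i) ≤ K)).card →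
        ∀ R : Multiset ℝ, (∀ ρ ∈ R, 0 < ρ) → (Multiset.card R : ℝ) ≤ Real.exp (-C * K ^ 2) * B →
          Real.exp (-C * K ^ 2) * B ≤
            ((range (B - Multiset.card R)).filter (fun i => form (pol R) z i ≠ 0)).card ∧
          SC (form ((X - 1) ^ 2 * pol R) z) (B - Multiset.card R - 2)
            ⌈Real.exp (-C * K ^ 2) * B⌉₊ := by
  obtain ⟨m, hm⟩ : ∃ m : ℕ, m = ⌈24 / η⌉₊ := ⟨_, rfl⟩
  have hm1 : 24 / η ≤ m := by rw [hm]; exact Nat.le_ceil _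
  have hmη : 24 ≤ η * m := by
    rw [div_le_iff₀ hη] at hm1
    linarith
  have hm0 : 0 < (m : ℝ) := lt_of_lt_of_le (by positivity) hm1
  have hm1' : 1 ≤ m := by exact_mod_cast hm0
  obtain ⟨θ, hθ⟩ : ∃ θ : ℝ, θ = η ^ 2 / (7 * 48 * m) := ⟨_, rfl⟩
  have hθ0 : 0 < θ := by rw [hθ]; positivity
  obtain ⟨c, hc, r0, hr0⟩ := hA θ hθ0
  obtain ⟨A, hA0, s0, hs0⟩ := hL θ hθ0
  obtain ⟨C, hC, hpar⟩ := params (η := η) hη hc hA0 m r0 s0 hm1'
  refine ⟨C, hC, fun K hK => ?_⟩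
  obtain ⟨r, s, w, hr0r, hs0r, hs0s, hr1, hrs, hlogr, hmain, hw, hsw, hε⟩ := hpar K hK
  obtain ⟨n1, hn1⟩ := hS w
  have hK0 : 0 ≤ K := by linarith
  have hinit : ∀ᶠ N : ℕ in atTop, ((n1 + w : ℕ) : ℝ) ≤ η ^ 2 / 48 * N :=
    (tendsto_natCast_atTop_atTop.const_mul_atTop (by positivity)).eventually_ge_atTop _
  filter_upwards [exc_card hθ0 hr0 hs0 m r s (n1 + w) hr0r hs0r hs0s, hinit] with N hN1 hN2 B hB1 hBN
  have hB0 : 0 < B := by
    have h1 : (0 : ℝ) < B := lt_of_lt_of_le (Real.exp_pos _) hB1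
    exact_mod_cast h1
  have hX : (((Icc 1 (2 * N)).filter (Exc y c A m r s (n1 + w))).card : ℝ) ≤ η ^ 2 / 24 * N := by
    have h1 : 7 * (m : ℝ) * θ * N = η ^ 2 / 48 * N := by
      rw [hθ]
      field_simp
    rw [h1] at hN1
    linarith
  have hfew := few_bad (Exc y c A m r s (n1 + w)) hB0 hBN (β := η / 24) (by positivity) hX
  refine ⟨(Icc 1 N).filter (fun n => η / 24 * B <
    (((range B).filter (fun i => Exc y c A m r s (n1 + w) (n + i))).card : ℝ)), ?_, ?_⟩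
  · refine hfew.trans (le_of_eq ?_)
    field_simp
  intro n hn hnN hnB z hz R hR hRc
  have hE : (((range B).filter (fun i => Exc y c A m r s (n1 + w) (n + i))).card : ℝ) ≤ η / 24 * B := by
    by_contra hcon
    push Not at hcon
    apply hnB
    rw [Finset.mem_filter, Finset.mem_Icc]
    exact ⟨⟨hn, hnN⟩, hcon⟩
  have hεB : 1 ≤ Real.exp (-C * K ^ 2) * B := by
    have h1 : Real.exp (-C * K ^ 2) * Real.exp (C * K ^ 2) = 1 := by
      rw [← Real.exp_add]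
      have : -C * K ^ 2 + C * K ^ 2 = 0 := by ring
      rw [this, Real.exp_zero]
    rw [← h1]
    exact mul_le_mul_of_nonneg_left hB1 (Real.exp_pos _).le
  have hAm : 0 ≤ A * Real.sqrt (Real.log (m * s : ℕ)) := by positivity
  have hs1 : 1 ≤ s := hr1.trans hrs
  have hws : A * Real.sqrt (Real.log (m * s : ℕ)) ≤ w := by
    have h1 : A * Real.sqrt (Real.log (m * s : ℕ)) ≤
        (m : ℝ) * r * (2 * K + (A * Real.sqrt (Real.log (m * s : ℕ)) + 1)) := by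
      have h2 : (1 : ℝ) ≤ (m : ℝ) * r := by exact_mod_cast Nat.mul_pos hm1' hr1
      have h3 : 0 ≤ 2 * K + (A * Real.sqrt (Real.log (m * s : ℕ)) + 1) := by linarith
      have h4 := mul_le_mul_of_nonneg_right h2 h3
      linarith
    have h2 : (s : ℝ) ≤ w := by exact_mod_cast hsw
    linarith
  -- the logarithms
  have hlogmono : ∀ k t : ℕ, 1 ≤ k → k < m → 1 ≤ t → t ≤ s →
      A * Real.sqrt (Real.log (k * t : ℕ)) ≤ A * Real.sqrt (Real.log (m * s : ℕ)) := by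
    intro k t hk1 hk2 ht1 ht2
    apply mul_le_mul_of_nonneg_left _ hA0.le
    apply Real.sqrt_le_sqrt
    apply Real.log_le_log
    · exact_mod_cast Nat.mul_pos hk1 ht1
    · exact_mod_cast Nat.mul_le_mul hk2.le ht2
  have hlogr' : ∀ k : ℕ, 1 ≤ k → 2 * K + 2 ≤ c * Real.sqrt (Real.log (k * r : ℕ)) := by
    intro k hk
    refine hlogr.trans ?_
    apply mul_le_mul_of_nonneg_left _ hc.le
    apply Real.sqrt_le_sqrt
    apply Real.log_le_log
    · exact_mod_cast hr1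
    · exact_mod_cast Nat.le_mul_of_pos_left r hk
  -- the comparison on the windows
  have hcmp : ∀ j i k t : ℕ, n1 ≤ n + j * w → 1 ≤ k → k < m → 1 ≤ t → t ≤ s → i + k * t < w →
      |y (n + (j * w + i) + k * t) - y (n + (j * w + i)) - (k * t : ℕ)| <
        A * Real.sqrt (Real.log (k * t : ℕ)) →
      |(g (n + j * w + (i + k * t)) * ℓ (n + j * w) - g (n + j * w + i) * ℓ (n + j * w)) -
        (y (n + (j * w + i) + k * t) - y (n + (j * w + i)))| ≤ 1 := by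
    intro j i k t hj hk1 hk2 ht1 ht2 hik hlt
    have h1 := (hn1 (n + j * w) hj).2.2 i (k * t) hik.le
    have e1 : n + (j * w + i) = n + j * w + i := by ring
    have e2 : n + j * w + (i + k * t) = n + j * w + i + k * t := by ring
    rw [e1] at hlt ⊢
    rw [e2]
    have h2 : y (n + j * w + i + k * t) - y (n + j * w + i) ≤ 2 * w := by
      have h3 := (abs_lt.mp hlt).2
      have h4 := hlogmono k t hk1 hk2 ht1 ht2
      have h5 : ((k * t : ℕ) : ℝ) ≤ w := by exact_mod_cast (by omega : k * t ≤ w)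
      linarith
    have h3 := h1 h2
    have e3 : g (n + j * w + i + k * t) * ℓ (n + j * w) - g (n + j * w + i) * ℓ (n + j * w) =
      (g (n + j * w + i + k * t) - g (n + j * w + i)) * ℓ (n + j * w) := by ring
    rw [e3]
    exact h3
  refine block_final (z := z) (K := K) (A := A * Real.sqrt (Real.log (m * s : ℕ)) + 1) (η := η)
    (ε := Real.exp (-C * K ^ 2)) (B := B) (w := w) (m := m) (r := r) (s := s)
    (Y := fun j i => if n + j * w < n1 then z (j * w + i) else g (n + j * w + i) * ℓ (n + j * w))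
    (lam := fun j => if n + j * w < n1 then 1 else ℓ (n + j * w))
    (G := (range B).filter (fun i => |g (n + i) - z i| * ℓ (n + i) ≤ K))
    (E := (range B).filter (fun i => Exc y c A m r s (n1 + w) (n + i)))
    hK0 (by linarith) hr1 hrs hmain ?_ (Finset.filter_subset _ _) ?_ ?_ ?_ hη hmη hw hE hz hε
    hεB R hR hRc
  · intro j _
    split_ifs with h
    · exact one_pos
    · exact (hn1 _ (by omega)).1
  · intro j hj i hi hG
    rw [Finset.mem_filter] at hG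
    split_ifs with h
    · rw [one_mul, sub_self, abs_zero]
      exact hK0
    · have h1 := hn1 (n + j * w) (by omega)
      have h2 := h1.2.1 i
      have e1 : n + (j * w + i) = n + j * w + i := by ring
      rw [e1] at hG
      have e2 : g (n + j * w + i) * ℓ (n + j * w) - ℓ (n + j * w) * z (j * w + i) =
        (g (n + j * w + i) - z (j * w + i)) * ℓ (n + j * w) := by ring
      rw [e2, abs_mul, abs_of_pos h1.1]
      exact (mul_le_mul_of_nonneg_left h2 (abs_nonneg _)).trans hG.2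
  · intro j hj i hE' k hk1 hk2 hik
    have hw' : (j + 1) * w = j * w + w := by ring
    rw [Finset.mem_filter, Finset.mem_range] at hE'
    push Not at hE'
    have hE'' := hE' (by omega)
    unfold Exc at hE''
    push Not at hE''
    obtain ⟨g1, g2⟩ := hE''
    obtain ⟨⟨g3, g4⟩, g5⟩ := g2 k (Finset.mem_Ico.mpr ⟨hk1, hk2⟩)
    have hnot : ¬ (n + j * w < n1) := by omega
    rw [if_neg hnot, if_neg hnot]
    have h1 := abs_le.mp (hcmp j i k s (by omega) hk1 hk2 hs1 le_rfl hik g3)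
    have h2 := abs_lt.mp g3
    have h3 := hlogmono k s hk1 hk2 hs1 le_rfl
    rw [abs_le]
    constructor <;> linarith [h1.1, h1.2, h2.1, h2.2]
  · intro j hj i hE' k hk1 hk2 hik
    have hw' : (j + 1) * w = j * w + w := by ring
    rw [Finset.mem_filter, Finset.mem_range] at hE'
    push Not at hE'
    have hE'' := hE' (by omega)
    unfold Exc at hE''
    push Not at hE''
    obtain ⟨g1, g2⟩ := hE''
    obtain ⟨⟨g3, g4⟩, g5⟩ := g2 k (Finset.mem_Ico.mpr ⟨hk1, hk2⟩)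
    have hnot : ¬ (n + j * w < n1) := by omega
    rw [if_neg hnot, if_neg hnot]
    have h1 := abs_le.mp (hcmp j i k r (by omega) hk1 hk2 hr1 hrs hik g4)
    have h3 := hlogr' k hk1
    have h4 : 2 * K + 2 < |y (n + (j * w + i) + k * r) - y (n + (j * w + i)) - (k * r : ℕ)| :=
      lt_of_le_of_lt h3 g5
    rcases lt_abs.mp h4 with h5 | h5
    · refine lt_abs.mpr (Or.inl ?_)
      linarith [h1.1, h1.2]
    · refine lt_abs.mpr (Or.inr ?_)
      linarith [h1.1, h1.2]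

end Pool.Agent.X309.TP
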