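import Pool.Agent.X309.TPd
import Pool.Agent.X112.GS.NT2
import Pool.Agent.X112.GS.Nc

/-! # Ordinates of the zeros of zeta and sequences with few sign changes -/

set_option autoImplicit false

open Finset Polynomial Filter

namespace Pool.Agent.X309.TP

open Pool.Agent.X112.GS (yy anti2_yy lln2_yy block_low nc)
open SG (ord NZ)

/-- the slowly varying factor -/
noncomputable def ell (n : ℕ) : ℝ := Real.log (ord n) / (2 * Real.pi)

lemma doubling (w : ℕ) : ∃ n1 : ℕ, 1 ≤ n1 ∧ ∀ n, n1 ≤ n → ord (n + w) ≤ 2 * ord n := by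
  obtain ⟨T0, hT0, h⟩ := block_low (1 / 2) (by norm_num)
  have hpi := Real.pi_pos
  have hpi4 := Real.pi_lt_four
  have hord : Tendsto ord atTop atTop := Pool.Agent.Y743.LR.ord_tendsto
  have hlog : Tendsto (fun n => Real.log (ord n)) atTop atTop := Real.tendsto_log_atTop.comp hord
  obtain ⟨n1, hn1⟩ := ((hord.eventually_ge_atTop (max T0 (16 * w))).and
    (hlog.eventually_ge_atTop 1)).exists_forall_of_atTop
  refine ⟨max n1 1, le_max_right _ _, fun n hn => ?_⟩
  obtain ⟨h1, h2⟩ := hn1 n ((le_max_left _ _).trans hn)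
  have hn' : 1 ≤ n := (le_max_right _ _).trans hn
  have h3 := h (ord n) ((le_max_left _ _).trans h1)
  have h4 : (16 : ℝ) * w ≤ ord n := (le_max_right _ _).trans h1
  have h5 : n ≤ NZ (ord n) := (SG.ord_le_iff hn' _).mp le_rfl
  rw [SG.ord_le_iff (by omega)]
  have h6 : (w : ℝ) ≤ (1 - 1 / 2) * (ord n * Real.log (ord n) / (2 * Real.pi)) := by
    have h7 : ord n * 1 / (2 * Real.pi) ≤ ord n * Real.log (ord n) / (2 * Real.pi) := by
      apply div_le_div_of_nonneg_right _ (by positivity)
      apply mul_le_mul_of_nonneg_left h2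
      have : (0 : ℝ) ≤ w := Nat.cast_nonneg _
      linarith
    have h8 : 2 * (w : ℝ) ≤ ord n * 1 / (2 * Real.pi) := by
      rw [le_div_iff₀ (by positivity)]
      have : (0 : ℝ) ≤ w := Nat.cast_nonneg _
      nlinarith
    linarith
  have h7 : (n : ℝ) + w ≤ NZ (2 * ord n) := by
    have : (n : ℝ) ≤ NZ (ord n) := by exact_mod_cast h5
    linarith
  exact_mod_cast h7

lemma scale_yy : Scale yy ord ell := by
  intro w
  have hpi := Real.pi_pos
  have hpi3 := Real.pi_gt_three
  have hord : Tendsto ord atTop atTop := Pool.Agent.Y743.LR.ord_tendsto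
  have hlog : Tendsto (fun n => Real.log (ord n)) atTop atTop := Real.tendsto_log_atTop.comp hord
  obtain ⟨n0, hn01, hn0⟩ := doubling w
  obtain ⟨n1, hn1⟩ := ((hord.eventually_ge_atTop 1).and
    (hlog.eventually_ge_atTop (4 * Real.pi * w + 1))).exists_forall_of_atTop
  refine ⟨max n0 n1, fun n hn => ?_⟩
  have hnn0 : n0 ≤ n := (le_max_left _ _).trans hn
  have hnn1 : n1 ≤ n := (le_max_right _ _).trans hn
  obtain ⟨h1, h2⟩ := hn1 n hnn1
  have hw0 : (0 : ℝ) ≤ w := Nat.cast_nonneg _
  have hlog0 : 1 ≤ Real.log (ord n) := by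
    have : 0 ≤ 4 * Real.pi * w := by positivity
    linarith
  refine ⟨?_, ?_, ?_⟩
  · unfold ell
    positivity
  · intro i
    unfold ell
    apply div_le_div_of_nonneg_right _ (by positivity)
    exact Real.log_le_log (by linarith) (SG.ord_mono (by omega) (by omega))
  · intro i t hit hy
    obtain ⟨x, hx⟩ : ∃ x : ℝ, x = ord n := ⟨_, rfl⟩
    obtain ⟨u, hu⟩ : ∃ u : ℝ, u = ord (n + i) := ⟨_, rfl⟩
    obtain ⟨v, hv⟩ : ∃ v : ℝ, v = ord (n + i + t) := ⟨_, rfl⟩
    have hxu : x ≤ u := by rw [hx, hu]; exact SG.ord_mono (by omega) (by omega)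
    have huv : u ≤ v := by rw [hu, hv]; exact SG.ord_mono (by omega) (by omega)
    have hvx : v ≤ 2 * x := by
      rw [hv, hx]
      exact (SG.ord_mono (by omega) (by omega)).trans (hn0 n hnn0)
    have hx1 : 1 ≤ x := by rw [hx]; exact h1
    have hxlog : 1 ≤ Real.log x := by rw [hx]; exact hlog0
    have hxlog2 : 4 * Real.pi * w + 1 ≤ Real.log x := by rw [hx]; exact h2
    have lo := Pool.Agent.Y743.CL.unf_lo (show 0 < u by linarith) huv
    have hi := Pool.Agent.Y743.CL.unf_hi (show 0 < u by linarith) huv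
    unfold yy at hy ⊢
    unfold ell
    rw [← hu, ← hv] at hy ⊢
    rw [← hx]
    have e1 : v * Real.log v / (2 * Real.pi) - u * Real.log u / (2 * Real.pi) =
      (v * Real.log v - u * Real.log u) / (2 * Real.pi) := by ring
    have e2 : (v - u) * (Real.log x / (2 * Real.pi)) = ((v - u) * Real.log x) / (2 * Real.pi) := by ring
    rw [e1] at hy ⊢
    rw [e2, ← sub_div]
    rw [div_le_iff₀ (by positivity)] at hy
    have l1 : Real.log x ≤ Real.log v := Real.log_le_log (by linarith) (by linarith)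
    have l2 : Real.log v ≤ Real.log x + 1 := by
      have g1 : Real.log v ≤ Real.log (2 * x) := Real.log_le_log (by linarith) hvx
      have g2 : Real.log (2 * x) = Real.log 2 + Real.log x := Real.log_mul (by norm_num) (by linarith)
      have g3 := Real.log_two_lt_d9
      linarith
    have l3 : (v - u) * Real.log x ≤ (v - u) * Real.log v := mul_le_mul_of_nonneg_left l1 (by linarith)
    have l4 : (v - u) * (Real.log v + 1) ≤ (v - u) * (Real.log x + 2) :=
      mul_le_mul_of_nonneg_left (by linarith) (by linarith)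
    have l5 : v - u ≤ 1 := by
      by_contra hcon
      push Not at hcon
      have g1 : 1 * Real.log x ≤ (v - u) * Real.log x := mul_le_mul_of_nonneg_right hcon.le (by linarith)
      nlinarith
    rw [abs_le]
    constructor
    · rw [le_div_iff₀ (by positivity)]
      nlinarith
    · rw [div_le_iff₀ (by positivity)]
      nlinarith

/-- the shifted difference of a polynomial sequence -/
lemma form_poly (d : ℕ) : ∀ f : ℝ[X], f.natDegree < d →
    form (pol (Multiset.replicate d 1)) (fun i : ℕ => f.eval (i : ℝ)) = fun _ => 0 := by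
  have e0 : ∀ d : ℕ, pol (Multiset.replicate d 1) = (X - C 1) ^ d := by
    intro d
    unfold pol
    rw [Multiset.map_replicate, Multiset.prod_replicate]
  have e1 : ∀ (n : ℕ) (f : ℝ → ℝ), form ((X - C 1) ^ n) (fun i : ℕ => f i) =
      fun i : ℕ => (fwdDiff (1 : ℝ))^[n] f i := by
    intro n
    induction n with
    | zero =>
      intro f
      rw [pow_zero, form_one]
      rfl
    | succ n ih =>
      intro f
      rw [pow_succ', form_mul, ih, form_lin]
      funext i
      rw [Function.iterate_succ_apply', fwdDiff]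
      push_cast
      ring
  intro f hf
  rw [e0, e1 d f.eval]
  funext i
  rw [Polynomial.fwdDiff_iter_eq_zero_of_degree_lt hf]
  rfl

open Classical in
/-- the theorem for the ordinates of the zeros of zeta -/
theorem main_ord (η : ℝ) (hη : 0 < η) : ∃ C : ℝ, 0 < C ∧ ∀ K : ℝ, 1 ≤ K → ∀ᶠ N : ℕ in atTop,
    ∀ B : ℕ, Real.exp (C * K ^ 2) ≤ B → B ≤ N → ∃ Bad : Finset ℕ, (Bad.card : ℝ) ≤ η * N ∧
      ∀ n, 1 ≤ n → n ≤ N → n ∉ Bad → ∀ z : ℕ → ℝ,
        η * B ≤ ((range B).filter (fun i => |ord (n + i) - z i| * Real.log (ord (n + i)) ≤ K)).card →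
        ∀ R : Multiset ℝ, (∀ ρ ∈ R, 0 < ρ) → (Multiset.card R : ℝ) ≤ Real.exp (-C * K ^ 2) * B →
          Real.exp (-C * K ^ 2) * B ≤
            ((range (B - Multiset.card R)).filter (fun i => form (pol R) z i ≠ 0)).card ∧
          SC (form ((X - 1) ^ 2 * pol R) z) (B - Multiset.card R - 2)
            ⌈Real.exp (-C * K ^ 2) * B⌉₊ := by
  obtain ⟨C, hC, h⟩ := main_abs anti2_yy lln2_yy scale_yy η hη
  refine ⟨C, hC, fun K hK => ?_⟩
  filter_upwards [h K hK] with N hN B hB1 hB2
  obtain ⟨Bad, h1, h2⟩ := hN B hB1 hB2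
  refine ⟨Bad, h1, fun n hn1 hn2 hn3 z hz R hR hRc => h2 n hn1 hn2 hn3 z (hz.trans ?_) R hR hRc⟩
  have hpi3 := Real.pi_gt_three
  exact_mod_cast Finset.card_le_card (fun i hi => by
    rw [Finset.mem_filter] at hi ⊢
    refine ⟨hi.1, ?_⟩
    unfold ell
    rw [← mul_div_assoc, div_le_iff₀ (by positivity)]
    have : K ≤ K * (2 * Real.pi) := by nlinarith
    exact hi.2.trans this)

end Pool.Agent.X309.TP
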