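import Pool.Agent.X309.TPe

/-! # Ordinates of the zeros of zeta and difference operators with positive roots: all `n ≤ N` -/

set_option autoImplicit false

open Finset Polynomial Filter

namespace Pool.Agent.X309.TP

open SG (ord NZ)

/-- `u` changes sign at least `m` times on `[a, b)` -/
def Changes (u : ℕ → ℝ) (a b m : ℕ) : Prop :=
  ∃ i : ℕ → ℕ, StrictMono i ∧ a ≤ i 0 ∧ i m < b ∧ ∀ t < m, u (i t) * u (i (t + 1)) < 0

lemma changes_of_sc {u : ℕ → ℝ} {L m : ℕ} (h : SC u L m) : Changes u 0 L m := by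
  obtain ⟨i, h1, h2, h3⟩ := h
  exact ⟨i, h1, Nat.zero_le _, h2, h3⟩

lemma form_shift (P : ℝ[X]) (z : ℕ → ℝ) (n i : ℕ) :
    form P (fun i => z (n + i)) i = form P z (n + i) := by
  unfold form
  simp only [Nat.add_assoc]

open Classical in
/-- the ordinates themselves -/
theorem main_global : ∃ ε : ℝ, 0 < ε ∧ ∀ᶠ N : ℕ in atTop, ∀ R : Multiset ℝ, (∀ ρ ∈ R, 0 < ρ) →
    (Multiset.card R : ℝ) ≤ ε * N →
    ε * N ≤ ((Icc 1 N).filter (fun n => n + Multiset.card R ≤ N ∧ form (pol R) ord n ≠ 0)).card ∧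
    Changes (form ((X - 1) ^ 2 * pol R) ord) 1 (N - Multiset.card R - 1) ⌈ε * N⌉₊ := by
  obtain ⟨C, hC, h⟩ := main_ord (1 / 4) (by norm_num)
  obtain ⟨ε, hε⟩ : ∃ ε : ℝ, ε = Real.exp (-C * 1 ^ 2) / 3 := ⟨_, rfl⟩
  have hε0 : 0 < ε := by rw [hε]; positivity
  have hlarge : ∀ᶠ N : ℕ in atTop, 3 * (Real.exp (C * 1 ^ 2) + 1) ≤ (N : ℝ) :=
    tendsto_natCast_atTop_atTop.eventually_ge_atTop _
  have h12 : ∀ᶠ N : ℕ in atTop, 12 ≤ N := eventually_ge_atTop _
  refine ⟨ε, hε0, ?_⟩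
  filter_upwards [h 1 le_rfl, hlarge, h12] with N hN hN1 hN2 R hR hRc
  obtain ⟨B, hB⟩ : ∃ B : ℕ, B = N / 2 := ⟨_, rfl⟩
  have hB2 : 2 * B ≤ N := by omega
  have hB2' : N ≤ 2 * B + 1 := by omega
  have hNB : (N : ℝ) ≤ 2 * B + 1 := by exact_mod_cast hB2'
  have hN2' : (12 : ℝ) ≤ N := by exact_mod_cast hN2
  have hNB3 : (N : ℝ) ≤ 3 * B := by linarith
  obtain ⟨Bad, hBad, h1⟩ := hN B (by linarith) (by omega)
  obtain ⟨n, hn1, hn2, hn3⟩ : ∃ n, 1 ≤ n ∧ n ≤ B ∧ n ∉ Bad := by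
    by_contra hcon
    push Not at hcon
    have h2 : Icc 1 B ⊆ Bad := by
      intro x hx
      rw [Finset.mem_Icc] at hx
      exact hcon x hx.1 hx.2
    have h3 := Finset.card_le_card h2
    rw [Nat.card_Icc, Nat.add_sub_cancel] at h3
    have h4 : (B : ℝ) ≤ Bad.card := by exact_mod_cast h3
    linarith
  have hεB : ε * N ≤ Real.exp (-C * 1 ^ 2) * B := by
    have h5 := mul_le_mul_of_nonneg_left hNB3 (Real.exp_pos (-C * 1 ^ 2)).le
    rw [hε]
    generalize Real.exp (-C * 1 ^ 2) = e at h5 ⊢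
    linarith
  have h2 := h1 n hn1 (by omega) hn3 (fun i => ord (n + i)) (by
    have h3 : (range B).filter (fun i => |ord (n + i) - ord (n + i)| * Real.log (ord (n + i)) ≤ 1) =
        range B := by
      apply Finset.filter_true_of_mem
      intro i _
      rw [sub_self, abs_zero, zero_mul]
      exact zero_le_one
    rw [h3, Finset.card_range]
    have : (0 : ℝ) ≤ B := Nat.cast_nonneg _
    linarith) R hR (hRc.trans hεB)
  obtain ⟨h3, i, i1, i2, i3⟩ := h2
  constructor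
  · refine hεB.trans (h3.trans ?_)
    have h4 : ((range (B - Multiset.card R)).filter
        (fun i => form (pol R) (fun i => ord (n + i)) i ≠ 0)).card ≤
        ((Icc 1 N).filter (fun n => n + Multiset.card R ≤ N ∧ form (pol R) ord n ≠ 0)).card := by
      apply Finset.card_le_card_of_injOn (fun i => n + i)
      · intro i hi
        rw [Finset.mem_coe, Finset.mem_filter, Finset.mem_range, form_shift] at hi
        rw [Finset.mem_coe, Finset.mem_filter, Finset.mem_Icc]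
        obtain ⟨g1, g2⟩ := hi
        refine ⟨⟨?_, ?_⟩, ?_, g2⟩
        · change 1 ≤ n + i
          omega
        · change n + i ≤ N
          omega
        · change n + i + Multiset.card R ≤ N
          omega
      · intro a _ b _ hab
        simpa using hab
    exact_mod_cast h4
  · have hceil : ⌈ε * N⌉₊ ≤ ⌈Real.exp (-C * 1 ^ 2) * B⌉₊ := Nat.ceil_mono hεB
    refine ⟨fun t => n + i t, fun a b hab => Nat.add_lt_add_left (i1 hab) n, ?_, ?_, ?_⟩
    · change 1 ≤ n + i 0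
      omega
    · change n + i ⌈ε * N⌉₊ < _
      have := i1.monotone hceil
      omega
    · intro t ht
      have h4 := i3 t (by omega)
      rw [form_shift, form_shift] at h4
      exact h4

open Classical in
/-- windows -/
theorem main_window (η : ℝ) (hη : 0 < η) : ∃ C : ℝ, 0 < C ∧ ∀ K : ℝ, 1 ≤ K → ∀ᶠ N : ℕ in atTop,
    ∀ B : ℕ, Real.exp (C * K ^ 2) ≤ B → B ≤ N →
      (((Icc 1 N).filter (fun n => ¬ ∀ z : ℕ → ℝ,
        η * B ≤ ((range B).filter (fun i => |ord (n + i) - z i| * Real.log (ord (n + i)) ≤ K)).card →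
        ∀ R : Multiset ℝ, (∀ ρ ∈ R, 0 < ρ) → (Multiset.card R : ℝ) ≤ Real.exp (-C * K ^ 2) * B →
          Real.exp (-C * K ^ 2) * B ≤
            ((range B).filter (fun i => i + Multiset.card R < B ∧ form (pol R) z i ≠ 0)).card ∧
          Changes (form ((X - 1) ^ 2 * pol R) z) 0 (B - Multiset.card R - 2)
            ⌈Real.exp (-C * K ^ 2) * B⌉₊)).card : ℝ) ≤ η * N := by
  obtain ⟨C, hC, h⟩ := main_ord η hη
  refine ⟨C, hC, fun K hK => ?_⟩
  filter_upwards [h K hK] with N hN B hB1 hB2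
  obtain ⟨Bad, h1, h2⟩ := hN B hB1 hB2
  refine le_trans ?_ h1
  have h3 : (Icc 1 N).filter (fun n => ¬ ∀ z : ℕ → ℝ,
        η * B ≤ ((range B).filter (fun i => |ord (n + i) - z i| * Real.log (ord (n + i)) ≤ K)).card →
        ∀ R : Multiset ℝ, (∀ ρ ∈ R, 0 < ρ) → (Multiset.card R : ℝ) ≤ Real.exp (-C * K ^ 2) * B →
          Real.exp (-C * K ^ 2) * B ≤
            ((range B).filter (fun i => i + Multiset.card R < B ∧ form (pol R) z i ≠ 0)).card ∧
          Changes (form ((X - 1) ^ 2 * pol R) z) 0 (B - Multiset.card R - 2)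
            ⌈Real.exp (-C * K ^ 2) * B⌉₊) ⊆ Bad := by
    intro n hn
    rw [Finset.mem_filter, Finset.mem_Icc] at hn
    obtain ⟨⟨hn1, hn2⟩, hn3⟩ := hn
    by_contra hcon
    apply hn3
    intro z hz R hR hRc
    obtain ⟨a1, a2⟩ := h2 n hn1 hn2 hcon z hz R hR hRc
    refine ⟨a1.trans ?_, changes_of_sc a2⟩
    exact_mod_cast Finset.card_le_card (fun i hi => by
      rw [Finset.mem_filter, Finset.mem_range] at hi ⊢
      exact ⟨by omega, by omega, hi.2⟩)
  exact_mod_cast Finset.card_le_card h3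

end Pool.Agent.X309.TP
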